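import Pool.Agent.CFS.Targets

set_option autoImplicit false

/-!
# CFS, target AEQ: almost everywhere convergence over dyadic-exponential blocks
-/

namespace Pool.Agent.CFS

open MeasureTheory FourierTransform Set Filter Topology
open scoped ENNReal NNReal ComplexConjugate
open Pool.Agent.MBS (E ex S)

namespace AEQ_

/-- the block ends -/
def M (k : ℕ) : ℕ := (2 ^ 2 ^ k) ^ 2

theorem M_succ_eq (k : ℕ) : M (k + 1) = (2 ^ 2 ^ (k + 1)) ^ 2 := rfl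

theorem M_mono {k l : ℕ} (h : k ≤ l) : M k ≤ M l := by
  unfold M
  exact Nat.pow_le_pow_left (Nat.pow_le_pow_right (by norm_num)
    (Nat.pow_le_pow_right (by norm_num) h)) 2

theorem lt_M (k : ℕ) : k < M k := by
  unfold M
  calc k < 2 ^ k := Nat.lt_two_pow_self
    _ < 2 ^ 2 ^ k := Nat.lt_two_pow_self
    _ ≤ (2 ^ 2 ^ k) ^ 2 := Nat.le_self_pow (by norm_num) _

theorem exists_block (K m : ℕ) (h : M K ≤ m) : ∃ k, K ≤ k ∧ M k ≤ m ∧ m ≤ M (k + 1) := by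
  have hex : ∃ j, m < M (K + j + 1) :=
    ⟨m, lt_of_lt_of_le (lt_M m) (M_mono (by omega))⟩
  classical
  have h1 := Nat.find_spec hex
  rcases Nat.eq_zero_or_pos (Nat.find hex) with h0 | h0
  · rw [h0] at h1
    exact ⟨K, le_rfl, h, h1.le⟩
  · have h2 := Nat.find_min hex (m := Nat.find hex - 1) (by omega)
    refine ⟨K + Nat.find hex, by omega, ?_, h1.le⟩
    have h3 : K + (Nat.find hex - 1) + 1 = K + Nat.find hex := by omega
    rw [h3] at h2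
    exact not_lt.1 h2

theorem dm_mono {m m' : ℕ} (h : m ≤ m') : dm m ⊆ dm m' := by
  intro n hn
  unfold dm at hn ⊢
  rw [Finset.mem_filter, Finset.mem_Icc] at hn ⊢
  have h' : (m : ℤ) ≤ m' := by exact_mod_cast h
  refine ⟨⟨fun i => ?_, fun i => ?_⟩, hn.2.trans h'⟩
  · have := hn.1.1 i
    simp only at this ⊢
    omega
  · have := hn.1.2 i
    simp only at this ⊢
    omega

theorem mem_dm {m : ℕ} {n : Fin 2 → ℤ} : n ∈ dm m ↔ n 0 ^ 2 + n 1 ^ 2 ≤ (m : ℤ) := by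
  unfold dm
  rw [Finset.mem_filter, Finset.mem_Icc]
  refine ⟨fun h => h.2, fun h => ⟨⟨?_, ?_⟩, h⟩⟩
  · intro i
    fin_cases i
    · simp only [Fin.zero_eta]
      nlinarith [sq_nonneg (n 1), sq_nonneg (n 0), sq_nonneg (n 0 + 1)]
    · simp only [Fin.mk_one]
      nlinarith [sq_nonneg (n 1), sq_nonneg (n 0), sq_nonneg (n 1 + 1)]
  · intro i
    fin_cases i
    · simp only [Fin.zero_eta]
      nlinarith [sq_nonneg (n 1), sq_nonneg (n 0), sq_nonneg (n 0 - 1)]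
    · simp only [Fin.mk_one]
      nlinarith [sq_nonneg (n 1), sq_nonneg (n 0), sq_nonneg (n 1 - 1)]

theorem norm_lat (n : Fin 2 → ℤ) : ‖lat n‖ ^ 2 = (n 0 : ℝ) ^ 2 + (n 1 : ℝ) ^ 2 := by
  rw [EuclideanSpace.norm_sq_eq, Fin.sum_univ_two]
  unfold lat
  simp

/-- the block -/
noncomputable def B (k : ℕ) : Finset (Fin 2 → ℤ) := dm (M (k + 1)) \ dm (M k)

theorem low_lat {k : ℕ} {n : Fin 2 → ℤ} (h : n ∈ B k) : (2 : ℝ) ^ (2 ^ k) ≤ ‖lat n‖ := by
  unfold B at h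
  rw [Finset.mem_sdiff, mem_dm, mem_dm, not_le] at h
  have h2 : ((M k : ℤ) : ℝ) < ((n 0 ^ 2 + n 1 ^ 2 : ℤ) : ℝ) := by exact_mod_cast h.2
  have h3 : ((2 : ℝ) ^ (2 ^ k)) ^ 2 < ‖lat n‖ ^ 2 := by
    rw [norm_lat]
    unfold M at h2
    push_cast at h2
    exact h2
  exact (lt_of_pow_lt_pow_left₀ 2 (norm_nonneg _) h3).le

theorem sum_block (g : (Fin 2 → ℤ) → ℝ≥0∞) (K : ℕ) :
    (∑ k ∈ Finset.range K, ∑ n ∈ B k, g n) + ∑ n ∈ dm (M 0), g n = ∑ n ∈ dm (M K), g n := by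
  induction K with
  | zero => simp
  | succ K ih =>
    rw [Finset.sum_range_succ, add_right_comm, ih, add_comm]
    unfold B
    exact Finset.sum_sdiff (dm_mono (M_mono (Nat.le_succ K)))

theorem tsum_block (g : (Fin 2 → ℤ) → ℝ≥0∞) : ∑' k, ∑ n ∈ B k, g n ≤ ∑' n, g n := by
  refine ENNReal.tsum_le_of_sum_range_le fun K => ?_
  calc ∑ k ∈ Finset.range K, ∑ n ∈ B k, g n
      ≤ (∑ k ∈ Finset.range K, ∑ n ∈ B k, g n) + ∑ n ∈ dm (M 0), g n := le_self_add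
    _ = ∑ n ∈ dm (M K), g n := sum_block g K
    _ ≤ ∑' n, g n := ENNReal.sum_le_tsum _

theorem pm_sub (a : (Fin 2 → ℤ) → ℂ) (k : ℕ) (x : E 2) :
    pm a (M (k + 1)) x - pm a (M k) x = ∑ n ∈ B k, a n * ex x (lat n) := by
  unfold pm B
  rw [← Finset.sum_sdiff (dm_mono (M_mono (Nat.le_succ k))), add_sub_cancel_right]

/-- the coefficients outside a disc -/
noncomputable def cut (a : (Fin 2 → ℤ) → ℂ) (k : ℕ) (n : Fin 2 → ℤ) : ℂ :=
  if n ∈ dm (M k) then 0 else a n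

theorem pm_cut (a : (Fin 2 → ℤ) → ℂ) (k m : ℕ) (h : M k ≤ m) (x : E 2) :
    pm (cut a k) m x = pm a m x - pm a (M k) x := by
  have h1 := Finset.sum_sdiff (dm_mono h) (f := fun n => a n * ex x (lat n))
  have h2 := Finset.sum_sdiff (dm_mono h) (f := fun n => cut a k n * ex x (lat n))
  unfold pm
  rw [← h1, ← h2, add_sub_cancel_right]
  have h3 : ∑ n ∈ dm (M k), cut a k n * ex x (lat n) = 0 := by
    refine Finset.sum_eq_zero fun n hn => ?_
    rw [cut, if_pos hn, zero_mul]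
  rw [h3, add_zero]
  refine Finset.sum_congr rfl fun n hn => ?_
  rw [cut, if_neg (Finset.mem_sdiff.1 hn).2]

theorem sum_cut (a : (Fin 2 → ℤ) → ℂ) (k : ℕ) :
    ∑ n ∈ dm (M (k + 1)), ‖cut a k n‖ₑ ^ 2 = ∑ n ∈ B k, ‖a n‖ₑ ^ 2 := by
  rw [← Finset.sum_sdiff (dm_mono (M_mono (Nat.le_succ k)))]
  have h3 : ∑ n ∈ dm (M k), ‖cut a k n‖ₑ ^ 2 = 0 := by
    refine Finset.sum_eq_zero fun n hn => ?_
    rw [cut, if_pos hn]
    simp
  rw [h3, add_zero]
  unfold B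
  refine Finset.sum_congr rfl fun n hn => ?_
  rw [cut, if_neg (Finset.mem_sdiff.1 hn).2]

theorem ex_cont (ξ : E 2) : Continuous fun x : E 2 => ex x ξ := by
  unfold ex
  have h : Continuous fun x : E 2 => inner ℝ x ξ := by fun_prop
  have h' : Continuous fun x : E 2 => ((inner ℝ x ξ : ℝ) : ℂ) :=
    Complex.continuous_ofReal.comp h
  exact Complex.continuous_exp.comp (continuous_const.mul h')

theorem pm_cont (a : (Fin 2 → ℤ) → ℂ) (m : ℕ) : Continuous (pm a m) := by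
  unfold pm
  exact continuous_finsetSum _ fun n _ => continuous_const.mul (ex_cont _)

/-- real summability from the weighted squares -/
theorem summable_of (b : ℕ → ℂ) (h : ∑' k : ℕ, ((k : ℝ≥0∞) + 1) ^ 2 * ‖b k‖ₑ ^ 2 ≠ ⊤) :
    Summable fun k => ‖b k‖ := by
  have e : ∀ k : ℕ, ((k : ℝ≥0∞) + 1) ^ 2 * ‖b k‖ₑ ^ 2 =
      ENNReal.ofReal (((k : ℝ) + 1) ^ 2 * ‖b k‖ ^ 2) := by
    intro k
    rw [ENNReal.ofReal_mul (by positivity), ENNReal.ofReal_pow (by positivity),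
      ENNReal.ofReal_pow (norm_nonneg _), ofReal_norm, ENNReal.ofReal_add (by positivity)
      zero_le_one, ENNReal.ofReal_natCast, ENNReal.ofReal_one]
  have h1 : Summable fun k : ℕ => ((k : ℝ) + 1) ^ 2 * ‖b k‖ ^ 2 := by
    have h2 : ∑' k : ℕ, ENNReal.ofReal (((k : ℝ) + 1) ^ 2 * ‖b k‖ ^ 2) ≠ ⊤ := by
      simpa only [e] using h
    exact (ENNReal.summable_toReal h2).congr fun k =>
      ENNReal.toReal_ofReal (by positivity)
  have h3 : Summable fun k : ℕ => (((k : ℝ) + 1) ^ 2)⁻¹ := by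
    have h4 : Summable fun k : ℕ => ((k : ℝ) ^ 2)⁻¹ := by
      simp
    have h5 := (summable_nat_add_iff 1).2 h4
    refine h5.congr fun k => ?_
    push_cast
    rfl
  refine Summable.of_nonneg_of_le (fun k => norm_nonneg _) (fun k => ?_) (h1.add h3)
  have hk : (0 : ℝ) < (k : ℝ) + 1 := by positivity
  set c : ℝ := (k : ℝ) + 1 with hc
  set y : ℝ := ‖b k‖ with hy
  have hy0 : 0 ≤ y := norm_nonneg _
  have h6 : c * y * c⁻¹ = y := by field_simp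
  have h7 : (c ^ 2)⁻¹ = c⁻¹ ^ 2 := by rw [inv_pow]
  rw [h7]
  nlinarith [sq_nonneg (c * y - c⁻¹), sq_nonneg (c * y), sq_nonneg (c⁻¹)]

/-- convergence from the two block estimates -/
theorem conv (p : ℕ → ℂ) (q : ℕ → ℝ≥0∞)
    (h1 : ∑' k : ℕ, ((k : ℝ≥0∞) + 1) ^ 2 * ‖p (M (k + 1)) - p (M k)‖ₑ ^ 2 ≠ ⊤)
    (h2 : ∑' k : ℕ, q k ^ 2 ≠ ⊤)
    (hq : ∀ k m, M k ≤ m → m ≤ M (k + 1) → ‖p m - p (M k)‖ₑ ≤ q k) :
    ∃ z : ℂ, Tendsto p atTop (𝓝 z) := by
  have hs := summable_of (fun k => p (M (k + 1)) - p (M k)) h1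
  have hc : CauchySeq fun k => p (M k) := by
    refine cauchySeq_of_summable_dist (hs.congr fun k => ?_)
    rw [dist_comm, dist_eq_norm]
  obtain ⟨z, hz⟩ := cauchySeq_tendsto_of_complete hc
  refine ⟨z, ?_⟩
  have hq0 : Tendsto (fun k => q k ^ 2) atTop (𝓝 0) := ENNReal.tendsto_atTop_zero_of_tsum_ne_top h2
  rw [Metric.tendsto_atTop]
  intro ε hε
  have hε2 : 0 < ε / 2 := by linarith
  obtain ⟨K1, hK1⟩ := (Metric.tendsto_atTop.1 hz) (ε / 2) hε2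
  have h3 : ∀ᶠ k in atTop, q k ^ 2 < ENNReal.ofReal (ε / 2) ^ 2 :=
    (tendsto_order.1 hq0).2 _ (by
      have : 0 < ENNReal.ofReal (ε / 2) := ENNReal.ofReal_pos.2 hε2
      positivity)
  obtain ⟨K2, hK2⟩ := eventually_atTop.1 h3
  refine ⟨M (max K1 K2), fun m hm => ?_⟩
  obtain ⟨k, hk1, hk2, hk3⟩ := exists_block _ _ hm
  have h4 := hK1 k ((le_max_left _ _).trans hk1)
  have h5 := hK2 k ((le_max_right _ _).trans hk1)
  have h6 : q k < ENNReal.ofReal (ε / 2) := lt_of_pow_lt_pow_left' 2 h5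
  have h7 : ‖p m - p (M k)‖ₑ < ENNReal.ofReal (ε / 2) := (hq k m hk2 hk3).trans_lt h6
  rw [← ofReal_norm, ENNReal.ofReal_lt_ofReal_iff hε2] at h7
  calc dist (p m) z ≤ dist (p m) (p (M k)) + dist (p (M k)) z := dist_triangle _ _ _
    _ < ε / 2 + ε / 2 := by
      rw [dist_eq_norm (p m)]
      exact add_lt_add h7 h4
    _ = ε := by ring

end AEQ_

open AEQ_ in
/-- AEQ. -/
theorem p_AEQ (h1 : T_MAXE) (h2 : T_PAR) (h3 : T_BLK) (h4 : T_CELL) : T_AEQ := by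
  intro hsep a hfin
  obtain ⟨C, hC⟩ := h1 hsep
  obtain ⟨-, hcell, hper, hQm, -⟩ := h4
  set s : ℕ → ℝ≥0∞ := fun k => ∑ n ∈ B k, ‖a n‖ₑ ^ 2 * wl ‖lat n‖ with hs
  have hsum : ∑' k, s k ≠ ⊤ := ne_top_of_le_ne_top hfin (tsum_block _)
  refine hcell _ ?_ ?_
  · set b : ℕ → E 2 → ℂ := fun k x => pm a (M (k + 1)) x - pm a (M k) x with hb
    set q : ℕ → E 2 → ℝ≥0∞ := fun k x =>
      ⨆ (m : ℕ) (_ : m ≤ (2 ^ 2 ^ (k + 1)) ^ 2), ‖pm (cut a k) m x‖ₑ with hq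
    have hbm : ∀ k : ℕ, Measurable fun x => ((k : ℝ≥0∞) + 1) ^ 2 * ‖b k x‖ₑ ^ 2 := by
      intro k
      have : Continuous (b k) := (pm_cont a _).sub (pm_cont a _)
      exact (this.measurable.enorm.pow_const 2).const_mul _
    have hqm : ∀ k : ℕ, Measurable fun x => q k x ^ 2 := by
      intro k
      refine Measurable.pow_const ?_ 2
      exact Measurable.iSup fun m => Measurable.iSup fun _ =>
        (pm_cont (cut a k) m).measurable.enorm
    have hbi : ∀ k : ℕ, ∫⁻ x in Q1, ((k : ℝ≥0∞) + 1) ^ 2 * ‖b k x‖ₑ ^ 2 ≤ 16 * s k := by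
      intro k
      have hbc : Continuous (b k) := (pm_cont a _).sub (pm_cont a _)
      rw [lintegral_const_mul _ (hbc.measurable.enorm.pow_const 2)]
      have e1 : ∫⁻ x in Q1, ‖b k x‖ₑ ^ 2 = ∑ n ∈ B k, ‖a n‖ₑ ^ 2 := by
        rw [← h2 a (B k)]
        refine lintegral_congr fun x => ?_
        simp only [hb]
        rw [pm_sub]
      rw [e1, hs]
      simp only
      rw [Finset.mul_sum, Finset.mul_sum]
      refine Finset.sum_le_sum fun n hn => ?_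
      have h5 := (h3 k ‖lat n‖ (low_lat hn)).2.1
      calc ((k : ℝ≥0∞) + 1) ^ 2 * ‖a n‖ₑ ^ 2 ≤ 16 * wl ‖lat n‖ * ‖a n‖ₑ ^ 2 := by gcongr
        _ = 16 * (‖a n‖ₑ ^ 2 * wl ‖lat n‖) := by ring
    have hqi : ∀ k : ℕ, ∫⁻ x in Q1, q k x ^ 2 ≤ C * 4096 * s k := by
      intro k
      have h5 := hC (2 ^ 2 ^ (k + 1)) (cut a k)
      have e2 : ∑ n ∈ dm ((2 ^ 2 ^ (k + 1)) ^ 2), ‖cut a k n‖ₑ ^ 2 = ∑ n ∈ B k, ‖a n‖ₑ ^ 2 :=
        sum_cut a k
      rw [e2] at h5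
      refine h5.trans ?_
      rw [hs]
      simp only
      rw [mul_assoc, mul_assoc]
      refine mul_le_mul_right ?_ _
      rw [Finset.mul_sum, Finset.mul_sum]
      refine Finset.sum_le_sum fun n hn => ?_
      have h6 := (h3 k ‖lat n‖ (low_lat hn)).1
      have e3 : wl ((2 ^ 2 ^ (k + 1) : ℕ) : ℝ) = wl (2 ^ 2 ^ (k + 1)) := by push_cast; rfl
      rw [e3]
      calc wl (2 ^ 2 ^ (k + 1)) * ‖a n‖ₑ ^ 2 ≤ 4096 * wl ‖lat n‖ * ‖a n‖ₑ ^ 2 := by gcongr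
        _ = 4096 * (‖a n‖ₑ ^ 2 * wl ‖lat n‖) := by ring
    have hF1 : ∀ᵐ x ∂(volume.restrict Q1),
        ∑' k : ℕ, ((k : ℝ≥0∞) + 1) ^ 2 * ‖b k x‖ₑ ^ 2 < ⊤ := by
      refine ae_lt_top (Measurable.tsum hbm) ?_
      rw [lintegral_tsum fun k => (hbm k).aemeasurable]
      refine ne_top_of_le_ne_top ?_ (ENNReal.tsum_le_tsum hbi)
      rw [ENNReal.tsum_mul_left]
      exact ENNReal.mul_ne_top (by norm_num) hsum
    have hF2 : ∀ᵐ x ∂(volume.restrict Q1), ∑' k : ℕ, q k x ^ 2 < ⊤ := by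
      refine ae_lt_top (Measurable.tsum hqm) ?_
      rw [lintegral_tsum fun k => (hqm k).aemeasurable]
      refine ne_top_of_le_ne_top ?_ (ENNReal.tsum_le_tsum hqi)
      rw [ENNReal.tsum_mul_left]
      exact ENNReal.mul_ne_top (ENNReal.mul_ne_top ENNReal.coe_ne_top (by norm_num)) hsum
    filter_upwards [hF1, hF2] with x hx1 hx2
    refine conv (fun m => pm a m x) (fun k => q k x) hx1.ne hx2.ne fun k m hk hm => ?_
    rw [← pm_cut a k m hk x]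
    simp only [hq]
    exact le_iSup₂_of_le m hm le_rfl
  · intro x k hx
    have e : ∀ m, pm a m (x + lat k) = pm a m x := by
      intro m
      unfold pm
      refine Finset.sum_congr rfl fun n _ => ?_
      rw [hper]
    simp only [e]
    exact hx

end Pool.Agent.CFS
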