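import Pool.Agent.CFS.Targets

set_option autoImplicit false

/-!
# CFS: numbers
-/

namespace Pool.Agent.CFS

open MeasureTheory FourierTransform Set Filter Topology
open scoped ENNReal NNReal ComplexConjugate

namespace BLK_

theorem l_ge (k : ℕ) (d : ℝ) (h : (2 : ℝ) ^ (2 ^ k) ≤ d) :
    (2 : ℝ) ^ k * Real.log 2 ≤ Real.log (3 + d) := by
  have h1 : Real.log ((2 : ℝ) ^ (2 ^ k)) = (2 : ℝ) ^ k * Real.log 2 := by
    rw [Real.log_pow]
    push_cast
    ring
  rw [← h1]
  exact Real.log_le_log (by positivity) (by linarith)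

theorem d_ge (k : ℕ) (d : ℝ) (h : (2 : ℝ) ^ (2 ^ k) ≤ d) : 2 ≤ d := by
  refine le_trans ?_ h
  calc (2 : ℝ) = 2 ^ 1 := (pow_one 2).symm
    _ ≤ 2 ^ (2 ^ k) := pow_le_pow_right₀ (by norm_num) Nat.one_le_two_pow

theorem l_pos (d : ℝ) (h : 2 ≤ d) : 0 ≤ Real.log (3 + d) := Real.log_nonneg (by linarith)

theorem lam_ge (d : ℝ) (h : 2 ≤ d) : 1 ≤ Real.log (3 + Real.log (3 + d)) := by
  have h1 := l_pos d h
  rw [Real.le_log_iff_exp_le (by linarith)]
  have := Real.exp_one_lt_d9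
  linarith

theorem three (k : ℕ) (d : ℝ) (h : (2 : ℝ) ^ (2 ^ k) ≤ d) :
    (k : ℝ) + 1 ≤ 4 * Real.log (3 + Real.log (3 + d)) := by
  have hl := l_ge k d h
  have hl0 := l_pos d (d_ge k d h)
  set l := Real.log (3 + d) with hldef
  have h2 := Real.log_two_gt_d9
  have hk : (0 : ℝ) < 2 ^ k := by positivity
  have h3 : (2 : ℝ) ^ (k + 3) ≤ (3 + l) ^ 2 := by
    have h4 : (2 : ℝ) ^ (k + 3) = 8 * 2 ^ k := by
      rw [pow_add]
      norm_num
      ring
    have h5 : 8 * (2 : ℝ) ^ k ≤ 12 * l := by nlinarith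
    nlinarith [sq_nonneg (3 - l)]
  have h4 := Real.log_le_log (by positivity) h3
  rw [Real.log_pow, Real.log_pow] at h4
  push_cast at h4
  have h5 : (0 : ℝ) ≤ k := Nat.cast_nonneg k
  nlinarith

end BLK_

open BLK_ in
theorem p_BLK : T_BLK := by
  intro k d h
  have hd := d_ge k d h
  have hL := lam_ge d hd
  have hl := l_ge k d h
  have hl0 := l_pos d hd
  have h3 := three k d h
  refine ⟨?_, ?_, h3⟩
  · set l := Real.log (3 + d) with hldef
    set L := Real.log (3 + l) with hLdef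
    have hx : (1 : ℝ) ≤ 2 ^ (2 ^ (k + 1)) := one_le_pow₀ (by norm_num)
    have e1 : Real.log (3 + 2 ^ (2 ^ (k + 1))) ≤ 2 + 2 * l := by
      have e2 : Real.log (3 + (2 : ℝ) ^ (2 ^ (k + 1))) ≤ Real.log (4 * 2 ^ (2 ^ (k + 1))) :=
        Real.log_le_log (by positivity) (by linarith)
      have e3 : Real.log (4 * (2 : ℝ) ^ (2 ^ (k + 1))) =
          2 * Real.log 2 + 2 * (2 ^ k * Real.log 2) := by
        rw [Real.log_mul (by norm_num) (by positivity), Real.log_pow]
        have e4 : Real.log 4 = 2 * Real.log 2 := by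
          rw [show (4 : ℝ) = 2 ^ 2 by norm_num, Real.log_pow]
          norm_num
        rw [e4]
        push_cast
        ring
      have e5 := Real.log_two_lt_d9
      linarith
    have e0 : 0 ≤ Real.log (3 + 2 ^ (2 ^ (k + 1))) := Real.log_nonneg (by linarith)
    have e6 : Real.log (3 + Real.log (3 + 2 ^ (2 ^ (k + 1)))) ≤ 2 * L := by
      have e7 : Real.log (3 + Real.log (3 + 2 ^ (2 ^ (k + 1)))) ≤ Real.log (2 * (3 + l)) :=
        Real.log_le_log (by linarith) (by linarith)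
      rw [Real.log_mul (by norm_num) (by linarith)] at e7
      have e5 := Real.log_two_lt_d9
      linarith
    have e8 : 0 ≤ Real.log (3 + Real.log (3 + 2 ^ (2 ^ (k + 1)))) :=
      Real.log_nonneg (by linarith)
    unfold wl
    calc ENNReal.ofReal (Real.log (3 + Real.log (3 + 2 ^ (2 ^ (k + 1)))) ^ 12)
        ≤ ENNReal.ofReal (4096 * L ^ 12) := by
          apply ENNReal.ofReal_le_ofReal
          calc Real.log (3 + Real.log (3 + 2 ^ (2 ^ (k + 1)))) ^ 12 ≤ (2 * L) ^ 12 :=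
                pow_le_pow_left₀ e8 e6 12
            _ = 4096 * L ^ 12 := by ring
      _ = 4096 * ENNReal.ofReal (L ^ 12) := by
          rw [ENNReal.ofReal_mul (by norm_num)]
          norm_num
  · unfold wl
    set L := Real.log (3 + Real.log (3 + d)) with hLdef
    have e1 : ((k : ℝ) + 1) ^ 2 ≤ 16 * L ^ 12 := by
      have hk : (0 : ℝ) ≤ k := Nat.cast_nonneg k
      have e2 : ((k : ℝ) + 1) ^ 2 ≤ (4 * L) ^ 2 := pow_le_pow_left₀ (by linarith) h3 2
      have e3 : L ^ 2 ≤ L ^ 12 := pow_le_pow_right₀ hL (by norm_num)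
      nlinarith
    have e2 : ((k : ℝ≥0∞) + 1) ^ 2 = ENNReal.ofReal (((k : ℝ) + 1) ^ 2) := by
      rw [ENNReal.ofReal_pow (by positivity), ENNReal.ofReal_add (Nat.cast_nonneg k) (by norm_num),
        ENNReal.ofReal_natCast, ENNReal.ofReal_one]
    rw [e2]
    calc ENNReal.ofReal (((k : ℝ) + 1) ^ 2) ≤ ENNReal.ofReal (16 * L ^ 12) :=
          ENNReal.ofReal_le_ofReal e1
      _ = 16 * ENNReal.ofReal (L ^ 12) := by
          rw [ENNReal.ofReal_mul (by norm_num)]
          norm_num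

end Pool.Agent.CFS
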