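import Pool.Agent.CFS.Targets

set_option autoImplicit false

/-!
# CFS, T_CELL: unit cells and periodicity
-/

namespace Pool.Agent.CFS

open MeasureTheory FourierTransform Set Filter Topology
open scoped ENNReal NNReal ComplexConjugate
open Pool.Agent.MBS (E ex S)

namespace CELL_

/-- the unit cell with lower corner `k` -/
def cell (k : Fin 2 → ℤ) : Set (E 2) := {x | ∀ i, ⌊x i⌋ = k i}

theorem coord_meas (i : Fin 2) : Measurable (fun x : E 2 => x i) := by
  have : Continuous (fun x : E 2 => x i) := by fun_prop
  exact this.measurable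

theorem cell_meas (k : Fin 2 → ℤ) : MeasurableSet (cell k) := by
  have h : cell k = ⋂ i, {x : E 2 | ⌊x i⌋ = k i} := by
    ext x
    simp [cell]
  rw [h]
  refine MeasurableSet.iInter fun i => ?_
  exact measurableSet_eq_fun ((coord_meas i).floor) measurable_const

theorem Q1_eq : Q1 = cell 0 := by
  ext x
  unfold Q1 cell
  simp only [mem_ofPred_eq, Pi.zero_apply, Int.floor_eq_zero_iff]

theorem lat_apply (k : Fin 2 → ℤ) (i : Fin 2) : lat k i = (k i : ℝ) := rfl

theorem shift (k : Fin 2 → ℤ) : (fun x : E 2 => x + lat k) ⁻¹' cell k = cell 0 := by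
  ext x
  unfold cell
  simp only [mem_preimage, mem_ofPred_eq, PiLp.add_apply, lat_apply, Int.floor_add_intCast,
    Pi.zero_apply]
  refine forall_congr' fun i => ?_
  constructor
  · intro h; linarith
  · intro h; linarith

theorem sub_mem (x : E 2) : x - lat (fun i => ⌊x i⌋) ∈ cell 0 := by
  unfold cell
  simp only [mem_ofPred_eq, PiLp.sub_apply, lat_apply, Int.floor_sub_intCast, Pi.zero_apply,
    sub_self]
  intro _
  trivial

theorem cell_int (G : E 2 → ℝ≥0∞) (hG : Measurable G)
    (hp : ∀ (x : E 2) (k : Fin 2 → ℤ), G (x + lat k) = G x) (k : Fin 2 → ℤ) :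
    ∫⁻ x in cell k, G x = ∫⁻ x in Q1, G x := by
  have h := (measurePreserving_add_right (volume : Measure (E 2))
    (lat k)).setLIntegral_comp_preimage (cell_meas k) hG
  rw [shift] at h
  rw [← h, Q1_eq]
  refine lintegral_congr fun x => ?_
  exact hp x k

end CELL_

open CELL_ in
theorem p_CELL : T_CELL := by
  refine ⟨?_, ?_, ?_, ?_, ?_⟩
  · intro G K hG hp
    set F : Finset (Fin 2 → ℤ) := Fintype.piFinset (fun _ => Finset.Ico (-(K : ℤ)) K) with hF
    have hU : {x : E 2 | ∀ i, x i ∈ Ico (-(K : ℝ)) K} = ⋃ k ∈ F, cell k := by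
      ext x
      simp only [mem_ofPred_eq, mem_iUnion, exists_prop, hF, Fintype.mem_piFinset,
        Finset.mem_Ico, mem_Ico]
      constructor
      · intro h
        refine ⟨fun i => ⌊x i⌋, fun i => ⟨?_, ?_⟩, fun i => rfl⟩
        · rw [Int.le_floor]
          push_cast
          exact (h i).1
        · rw [Int.floor_lt]
          push_cast
          exact (h i).2
      · rintro ⟨k, hk, hx⟩ i
        have h1 := hx i
        constructor
        · have h2 := (hk i).1
          rw [← h1, Int.le_floor] at h2
          push_cast at h2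
          exact h2
        · have h2 := (hk i).2
          rw [← h1, Int.floor_lt] at h2
          push_cast at h2
          exact h2
    have hd : (F : Set (Fin 2 → ℤ)).PairwiseDisjoint cell := by
      intro k _ l _ hkl
      rw [Function.onFun, Set.disjoint_left]
      intro x hx hx'
      apply hkl
      funext i
      rw [← hx i, ← hx' i]
    rw [hU, lintegral_biUnion_finset hd (fun k _ => cell_meas k)]
    rw [Finset.sum_congr rfl (fun k _ => cell_int G hG hp k), Finset.sum_const, nsmul_eq_mul]
    congr 1
    rw [hF, Fintype.card_piFinset]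
    simp only [Int.card_Ico, Finset.prod_const, Finset.card_univ, Fintype.card_fin]
    have h2 : ((K : ℤ) - -(K : ℤ)).toNat = 2 * K := by omega
    rw [h2]
    push_cast
    ring
  · intro p hp hper
    rw [ae_restrict_iff' (by rw [Q1_eq]; exact cell_meas 0)] at hp
    have h1 : ∀ k : Fin 2 → ℤ, ∀ᵐ x : E 2, x - lat k ∈ Q1 → p (x - lat k) := by
      intro k
      exact (measurePreserving_sub_right (volume : Measure (E 2))
        (lat k)).quasiMeasurePreserving.ae hp
    have h2 := ae_all_iff.mpr h1
    filter_upwards [h2] with x hx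
    have h3 := hx (fun i => ⌊x i⌋) (by rw [Q1_eq]; exact sub_mem x)
    have h4 := hper _ (fun i => ⌊x i⌋) h3
    rwa [sub_add_cancel] at h4
  · intro x k n
    unfold ex
    have h1 : (inner ℝ (x + lat k) (lat n) : ℝ) =
        inner ℝ x (lat n) + ((∑ i, k i * n i : ℤ) : ℝ) := by
      rw [inner_add_left]
      congr 1
      rw [PiLp.inner_apply]
      push_cast
      refine Finset.sum_congr rfl fun i _ => ?_
      rw [lat_apply, lat_apply]
      simp [mul_comm]
    rw [h1]
    push_cast
    have h2 := Complex.exp_int_mul_two_pi_mul_I (∑ i, k i * n i)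
    push_cast at h2
    rw [mul_add, Complex.exp_add, mul_comm (2 * (Real.pi : ℂ) * Complex.I) (∑ i, _), h2, mul_one]
  · rw [Q1_eq]
    exact cell_meas 0
  · have h1 : Q1 = (MeasurableEquiv.toLp 2 (Fin 2 → ℝ)).symm ⁻¹'
        (Set.pi univ fun _ => Ico (0 : ℝ) 1) := by
      ext x
      simp only [Q1, mem_ofPred_eq, mem_preimage, Set.mem_pi, mem_univ, forall_true_left]
      rfl
    rw [h1, (EuclideanSpace.volume_preserving_symm_measurableEquiv_toLp (Fin 2)).measure_preimage
      (MeasurableSet.univ_pi fun _ => measurableSet_Ico).nullMeasurableSet, Real.volume_pi_Ico]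
    simp

end Pool.Agent.CFS
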