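import Pool.Agent.CFS.Targets

set_option autoImplicit false

/-!
# CFS, job CSM: lattice points in discs
-/

namespace Pool.Agent.CFS

open MeasureTheory FourierTransform Set Filter Topology
open scoped ENNReal NNReal ComplexConjugate
open Pool.Agent.MBS (E ex S)

namespace CSM_

theorem norm_lat (n : Fin 2 → ℤ) : ‖lat n‖ ^ 2 = ((n 0 ^ 2 + n 1 ^ 2 : ℤ) : ℝ) := by
  have h : ‖lat n‖ ^ 2 = ∑ i, ‖(lat n) i‖ ^ 2 := EuclideanSpace.norm_sq_eq (lat n)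
  rw [h, Fin.sum_univ_two]
  simp only [lat, Real.norm_eq_abs, sq_abs]
  push_cast
  rfl

theorem abs_le_sq (z : ℤ) : |z| ≤ z ^ 2 := by
  rcases eq_or_ne z 0 with h | h
  · simp [h]
  · have h1 : 1 ≤ |z| := Int.one_le_abs h
    nlinarith [sq_abs z]

theorem mem_dm (n : Fin 2 → ℤ) (m : ℕ) : n ∈ dm m ↔ n 0 ^ 2 + n 1 ^ 2 ≤ (m : ℤ) := by
  unfold dm
  rw [Finset.mem_filter, Finset.mem_Icc]
  refine ⟨fun h => h.2, fun h => ⟨?_, h⟩⟩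
  have h0 := abs_le_sq (n 0)
  have h1 := abs_le_sq (n 1)
  have h2 := sq_nonneg (n 0)
  have h3 := sq_nonneg (n 1)
  have a0 := abs_le.1 (h0.trans (by linarith : n 0 ^ 2 ≤ (m : ℤ)))
  have a1 := abs_le.1 (h1.trans (by linarith : n 1 ^ 2 ≤ (m : ℤ)))
  constructor
  · intro i
    fin_cases i
    · exact a0.1
    · exact a1.1
  · intro i
    fin_cases i
    · exact a0.2
    · exact a1.2

theorem mem_dm' (n : Fin 2 → ℤ) (m : ℕ) : n ∈ dm m ↔ ‖lat n‖ ^ 2 ≤ m := by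
  rw [mem_dm, norm_lat]
  exact_mod_cast Iff.rfl

theorem mem_iff (n : Fin 2 → ℤ) {R : ℝ} (hR : 0 ≤ R) :
    ‖lat n‖ ≤ R ↔ n ∈ dm ⌊R ^ 2⌋₊ := by
  rw [mem_dm]
  have h0 : 0 ≤ n 0 ^ 2 + n 1 ^ 2 := by positivity
  obtain ⟨j, hj⟩ := Int.eq_ofNat_of_zero_le h0
  rw [hj, ← pow_le_pow_iff_left₀ (norm_nonneg _) hR two_ne_zero, norm_lat, hj]
  have h1 : ((j : ℤ) ≤ ((⌊R ^ 2⌋₊ : ℕ) : ℤ)) ↔ j ≤ ⌊R ^ 2⌋₊ := by exact_mod_cast Iff.rfl
  rw [h1, Nat.le_floor_iff (by positivity)]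
  push_cast
  rfl

end CSM_

open CSM_ in
theorem p_CSM : T_CSM := by
  refine ⟨mem_dm', ?_⟩
  intro f R x hR
  unfold CS pm
  rw [← finsum_mem_coe_finset]
  refine finsum_congr fun n => ?_
  exact finsum_congr_Prop (propext ((mem_iff n hR).trans Finset.mem_coe.symm)) fun _ => rfl

end Pool.Agent.CFS
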