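import Pool.Agent.CFS.Targets

set_option autoImplicit false

/-!
# CFS: disc partial sums of the transferred function
-/

namespace Pool.Agent.CFS

open MeasureTheory FourierTransform Set Filter Topology
open scoped ENNReal NNReal ComplexConjugate
open Pool.Agent.MBS (E ex S)

namespace CUT_

theorem mem_dm (n : Fin 2 → ℤ) (m : ℕ) : n ∈ dm m ↔ n 0 ^ 2 + n 1 ^ 2 ≤ (m : ℤ) := by
  unfold dm
  rw [Finset.mem_filter, Finset.mem_Icc]
  constructor
  · exact fun h => h.2
  · intro h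
    have key : ∀ i : Fin 2, -(m : ℤ) ≤ n i ∧ n i ≤ m := by
      intro i
      have h0 : n i ^ 2 ≤ (m : ℤ) := by
        fin_cases i
        · change n 0 ^ 2 ≤ (m : ℤ); nlinarith [sq_nonneg (n 1)]
        · change n 1 ^ 2 ≤ (m : ℤ); nlinarith [sq_nonneg (n 0)]
      constructor
      · nlinarith [Int.le_self_sq (-(n i)), neg_sq (n i)]
      · nlinarith [Int.le_self_sq (n i)]
    exact ⟨⟨fun i => (key i).1, fun i => (key i).2⟩, h⟩

theorem norm_lat (n : Fin 2 → ℤ) : ‖lat n‖ ^ 2 = ((n 0 ^ 2 + n 1 ^ 2 : ℤ) : ℝ) := by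
  rw [EuclideanSpace.norm_sq_eq, Fin.sum_univ_two]
  simp [lat]

/-- the geometric lemma -/
theorem geo (N m : ℕ) (hm : m ≤ N ^ 2) (n : Fin 2 → ℤ) (hn : n ∈ dm (N ^ 2)) (ξ : E 2)
    (hξ : ‖ξ - lat n‖ < 1 / (8 * (N + 1))) :
    (n ∈ dm m → ‖ξ‖ ≤ Real.sqrt (m + 1 / 2)) ∧
    (n ∉ dm m → Real.sqrt (m + 1 / 2) < ‖ξ‖) := by
  have hN : (0 : ℝ) ≤ N := Nat.cast_nonneg N
  have hN1 : (0 : ℝ) < N + 1 := by linarith
  set e : ℝ := 1 / (8 * (N + 1)) with he
  have he0 : 0 < e := by positivity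
  have heN : 8 * ((N + 1) * e) = 1 := by rw [he]; field_simp
  have he1 : e ≤ 1 / 8 := by nlinarith
  have hl := norm_lat n
  rw [mem_dm] at hn
  have hlN : ‖lat n‖ ^ 2 ≤ (N : ℝ) ^ 2 := by
    rw [hl]; exact_mod_cast hn
  have hl0 := norm_nonneg (lat n)
  have hlN' : ‖lat n‖ ≤ N := by
    nlinarith [abs_le_of_sq_le_sq' hlN hN]
  have hmr : (m : ℝ) ≤ (N : ℝ) ^ 2 := by exact_mod_cast hm
  constructor
  · intro h
    rw [mem_dm] at h
    have h1 : ‖lat n‖ ^ 2 ≤ (m : ℝ) := by rw [hl]; exact_mod_cast h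
    have h2 : ‖ξ‖ ≤ ‖lat n‖ + e := by
      have := norm_add_le (ξ - lat n) (lat n)
      rw [sub_add_cancel] at this
      linarith
    refine h2.trans (Real.le_sqrt_of_sq_le ?_)
    have h3 : ‖lat n‖ * e ≤ N * e := mul_le_mul_of_nonneg_right hlN' he0.le
    nlinarith
  · intro h
    rw [mem_dm, not_le] at h
    have h1 : (m : ℝ) + 1 ≤ ‖lat n‖ ^ 2 := by rw [hl]; exact_mod_cast h
    have h2 : ‖lat n‖ - e < ‖ξ‖ := by
      have := norm_sub_norm_le (lat n) (lat n - ξ)
      rw [sub_sub_cancel, ← norm_neg (lat n - ξ), neg_sub] at this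
      linarith
    refine lt_of_le_of_lt ?_ h2
    have hR : Real.sqrt (m + 1 / 2) ≤ N + 1 := by
      rw [Real.sqrt_le_left (by linarith)]
      nlinarith
    have hR0 := Real.sqrt_nonneg ((m : ℝ) + 1 / 2)
    have hR2 : Real.sqrt (m + 1 / 2) ^ 2 = m + 1 / 2 := Real.sq_sqrt (by positivity)
    have h4 : (Real.sqrt (m + 1 / 2) + e) ^ 2 ≤ ‖lat n‖ ^ 2 := by
      have h3 : Real.sqrt (m + 1 / 2) * e ≤ (N + 1) * e := mul_le_mul_of_nonneg_right hR he0.le
      nlinarith
    have h5 := abs_le_of_sq_le_sq' h4 hl0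
    linarith [h5.2]

theorem ex_cont (x : E 2) : Continuous (fun ξ : E 2 => ex x ξ) := by
  unfold ex
  fun_prop

end CUT_

theorem p_CUT (h1 : T_FTL) : T_CUT := by
  intro φ ψ c hb a N m hm x
  obtain ⟨-, hF, hI⟩ := h1 φ ψ c hb a (dm (N ^ 2)) (N + 1) (by omega)
  have hL : (0 : ℝ) < ((N + 1 : ℕ) : ℝ) := by positivity
  set L : ℝ := ((N + 1 : ℕ) : ℝ) with hLdef
  have hcont : ∀ n : Fin 2 → ℤ, Continuous fun ξ : E 2 =>
      (((N + 1 : ℕ) : ℂ) ^ 2 * φ (L • (ξ - lat n))) * ex x ξ := by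
    intro n
    have h2 := hb.phc
    have h3 := CUT_.ex_cont x
    fun_prop
  have hzero : ∀ (n : Fin 2 → ℤ) (ξ : E 2), 1 / (8 * ((N : ℝ) + 1)) ≤ ‖ξ - lat n‖ →
      (((N + 1 : ℕ) : ℂ) ^ 2 * φ (L • (ξ - lat n))) * ex x ξ = 0 := by
    intro n ξ h
    have : φ (L • (ξ - lat n)) = 0 := by
      apply hb.phs
      rw [norm_smul, Real.norm_of_nonneg hL.le]
      have h5 : L = (N : ℝ) + 1 := by rw [hLdef]; push_cast; ring
      rw [h5]
      rw [div_le_iff₀ (by positivity)] at h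
      linarith
    rw [this]; ring
  have hint : ∀ n : Fin 2 → ℤ, Integrable fun ξ : E 2 =>
      (((N + 1 : ℕ) : ℂ) ^ 2 * φ (L • (ξ - lat n))) * ex x ξ := by
    intro n
    apply (hcont n).integrable_of_hasCompactSupport
    apply HasCompactSupport.intro (isCompact_closedBall (lat n) (1 / (8 * ((N : ℝ) + 1))))
    intro ξ hξ
    apply hzero
    rw [Metric.mem_closedBall, dist_eq_norm, not_le] at hξ
    exact hξ.le
  have hS : S (fL a (dm (N ^ 2)) ψ (N + 1)) (Real.sqrt (m + 1 / 2)) x =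
      ∑ n ∈ dm (N ^ 2), a n * ∫ ξ in Metric.closedBall (0 : E 2) (Real.sqrt (m + 1 / 2)),
        (((N + 1 : ℕ) : ℂ) ^ 2 * φ (L • (ξ - lat n))) * ex x ξ := by
    unfold S
    simp_rw [hF, Finset.sum_mul]
    rw [integral_finsetSum]
    · apply Finset.sum_congr rfl
      intro n _
      rw [← integral_const_mul]
      apply integral_congr_ae
      filter_upwards with ξ
      ring
    · intro n _
      have := ((hint n).const_mul (a n)).integrableOn (s := Metric.closedBall (0 : E 2)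
        (Real.sqrt (m + 1 / 2)))
      refine this.congr ?_
      filter_upwards with ξ
      ring
  rw [hS]
  have hterm : ∀ n ∈ dm (N ^ 2),
      a n * ∫ ξ in Metric.closedBall (0 : E 2) (Real.sqrt (m + 1 / 2)),
        (((N + 1 : ℕ) : ℂ) ^ 2 * φ (L • (ξ - lat n))) * ex x ξ =
      if n ∈ dm m then a n * (ex x (lat n) * ψ (L⁻¹ • x)) else 0 := by
    intro n hn
    split_ifs with h
    · congr 1
      rw [← hI n x]
      apply setIntegral_eq_integral_of_forall_compl_eq_zero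
      intro ξ hξ
      apply hzero
      by_contra hcon
      push Not at hcon
      have := (CUT_.geo N m hm n hn ξ hcon).1 h
      apply hξ
      rw [Metric.mem_closedBall, dist_zero_right]
      exact this
    · have : ∫ ξ in Metric.closedBall (0 : E 2) (Real.sqrt (m + 1 / 2)),
          (((N + 1 : ℕ) : ℂ) ^ 2 * φ (L • (ξ - lat n))) * ex x ξ = 0 := by
        apply setIntegral_eq_zero_of_forall_eq_zero
        intro ξ hξ
        apply hzero
        by_contra hcon
        push Not at hcon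
        have h6 := (CUT_.geo N m hm n hn ξ hcon).2 h
        rw [Metric.mem_closedBall, dist_zero_right] at hξ
        linarith
      rw [this, mul_zero]
  rw [Finset.sum_congr rfl hterm, ← Finset.sum_filter, pm, Finset.sum_mul]
  have hset : (dm (N ^ 2)).filter (fun n => n ∈ dm m) = dm m := by
    ext n
    rw [Finset.mem_filter, CUT_.mem_dm, CUT_.mem_dm]
    constructor
    · exact fun h => h.2
    · intro h
      refine ⟨h.trans ?_, h⟩
      exact_mod_cast hm
  rw [hset]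
  apply Finset.sum_congr rfl
  intro n _
  ring

end Pool.Agent.CFS
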