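import Pool.Agent.CFS.Targets

set_option autoImplicit false

/-!
# CFS, FTL: the Fourier transform of the transferred function
-/

namespace Pool.Agent.CFS

open MeasureTheory FourierTransform Set Filter Topology
open scoped ENNReal NNReal ComplexConjugate
open Pool.Agent.MBS (E ex S)

namespace FTL_

theorem ex_exp (x ξ : E 2) :
    ex x ξ = Complex.exp (((2 * Real.pi * (inner ℝ x ξ : ℝ) : ℝ) : ℂ) * Complex.I) := by
  unfold ex
  congr 1
  push_cast
  ring

theorem ex_norm (x ξ : E 2) : ‖ex x ξ‖ = 1 := by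
  rw [ex_exp, Complex.norm_exp_ofReal_mul_I]

theorem ex_add_right (x ξ η : E 2) : ex x (ξ + η) = ex x ξ * ex x η := by
  rw [ex_exp, ex_exp, ex_exp, ← Complex.exp_add, inner_add_right]
  congr 1
  push_cast
  ring

theorem ex_smul (r : ℝ) (x ξ : E 2) : ex (r • x) ξ = ex x (r • ξ) := by
  rw [ex_exp, ex_exp, real_inner_smul_left, real_inner_smul_right]

theorem ex_cont_left (ξ : E 2) : Continuous fun x : E 2 => ex x ξ := by
  have h : (fun x : E 2 => ex x ξ) = fun x : E 2 =>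
      Complex.exp (((2 * Real.pi * (inner ℝ x ξ : ℝ) : ℝ) : ℂ) * Complex.I) := by
    funext x
    exact ex_exp x ξ
  rw [h]
  fun_prop

theorem fourier_ex (f : E 2 → ℂ) (ξ : E 2) : 𝓕 f ξ = ∫ v, ex v (-ξ) * f v := by
  rw [Real.fourier_eq']
  refine integral_congr_ae (Filter.Eventually.of_forall fun v => ?_)
  simp only [smul_eq_mul]
  rw [ex_exp, inner_neg_right]
  congr 2
  push_cast
  ring

theorem fourierInv_ex (f : E 2 → ℂ) (x : E 2) : 𝓕⁻ f x = ∫ v, f v * ex x v := by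
  rw [Real.fourierInv_eq']
  refine integral_congr_ae (Filter.Eventually.of_forall fun v => ?_)
  simp only [smul_eq_mul]
  rw [ex_exp, real_inner_comm, mul_comm]

/-- one term of the sum -/
noncomputable def tm (ψ : E 2 → ℂ) (L : ℕ) (n : Fin 2 → ℤ) (x : E 2) : ℂ :=
  ex x (lat n) * ψ ((L : ℝ)⁻¹ • x)

variable {φ ψ : E 2 → ℂ} {c : ℝ}

theorem tm_cont (hb : Bump φ ψ c) (L : ℕ) (n : Fin 2 → ℤ) : Continuous (tm ψ L n) :=
  (ex_cont_left _).mul (hb.psc.comp (continuous_const_smul _))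

theorem tm_norm (ψ : E 2 → ℂ) (L : ℕ) (n : Fin 2 → ℤ) (x : E 2) :
    ‖tm ψ L n x‖ = ‖ψ ((L : ℝ)⁻¹ • x)‖ := by
  rw [tm, norm_mul, ex_norm, one_mul]

theorem tm_int (hb : Bump φ ψ c) {L : ℕ} (hL : 1 ≤ L) (n : Fin 2 → ℤ) :
    Integrable (tm ψ L n) := by
  have hL0 : ((L : ℝ)⁻¹) ≠ 0 := by
    have : (L : ℝ) ≠ 0 := by
      have : 0 < L := hL
      exact_mod_cast this.ne'
    exact inv_ne_zero this
  have h1 : Integrable fun x : E 2 => ψ ((L : ℝ)⁻¹ • x) := hb.psi.comp_smul hL0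
  refine h1.mono (tm_cont hb L n).aestronglyMeasurable (Filter.Eventually.of_forall fun x => ?_)
  rw [tm_norm]

theorem tm_sq (hb : Bump φ ψ c) {L : ℕ} (hL : 1 ≤ L) (n : Fin 2 → ℤ) :
    MemLp (tm ψ L n) 2 := by
  have hL0 : ((L : ℝ)⁻¹) ≠ 0 := by
    have : (L : ℝ) ≠ 0 := by
      have : 0 < L := hL
      exact_mod_cast this.ne'
    exact inv_ne_zero this
  rw [memLp_two_iff_integrable_sq_norm (tm_cont hb L n).aestronglyMeasurable]
  simp_rw [tm_norm]
  have h1 := (memLp_two_iff_integrable_sq_norm hb.psc.aestronglyMeasurable).1 hb.psq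
  exact h1.comp_smul hL0

theorem tm_fourier (hb : Bump φ ψ c) {L : ℕ} (hL : 1 ≤ L) (n : Fin 2 → ℤ) (ξ : E 2) :
    ∫ v, ex v (-ξ) * tm ψ L n v = (L : ℂ) ^ 2 * φ ((L : ℝ) • (ξ - lat n)) := by
  have hL0 : (L : ℝ) ≠ 0 := by
    have : 0 < L := hL
    exact_mod_cast this.ne'
  obtain ⟨G, hG⟩ : ∃ G : E 2 → ℂ, G = fun y => ex y (-((L : ℝ) • (ξ - lat n))) * ψ y := ⟨_, rfl⟩
  have h1 : ∀ v : E 2, ex v (-ξ) * tm ψ L n v = G ((L : ℝ)⁻¹ • v) := by
    intro v
    rw [hG]
    simp only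
    rw [ex_smul, smul_neg, smul_smul, inv_mul_cancel₀ hL0, one_smul, tm, ← mul_assoc,
      ← ex_add_right]
    congr 2
    abel
  simp_rw [h1]
  rw [Measure.integral_comp_inv_smul, hG, ← fourier_ex, hb.four]
  have h2 : Module.finrank ℝ (E 2) = 2 := by simp [E]
  rw [h2, abs_of_nonneg (by positivity), Complex.real_smul]
  push_cast
  rfl

theorem three (hb : Bump φ ψ c) {L : ℕ} (hL : 1 ≤ L) (n : Fin 2 → ℤ) (x : E 2) :
    ∫ ξ, (L : ℂ) ^ 2 * φ ((L : ℝ) • (ξ - lat n)) * ex x ξ =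
      ex x (lat n) * ψ ((L : ℝ)⁻¹ • x) := by
  have hL0 : (L : ℝ) ≠ 0 := by
    have : 0 < L := hL
    exact_mod_cast this.ne'
  have hφi : Integrable φ := by
    apply hb.phc.integrable_of_hasCompactSupport
    apply HasCompactSupport.of_support_subset_isCompact (isCompact_closedBall (0 : E 2) (1 / 8))
    intro ξ hξ
    rw [Function.mem_support] at hξ
    rw [mem_closedBall_zero_iff]
    by_contra h
    push Not at h
    exact hξ (hb.phs ξ h.le)
  have hinv : ∀ y : E 2, ∫ v, φ v * ex y v = ψ y := by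
    intro y
    rw [← fourierInv_ex, ← hb.four]
    have h := Continuous.fourierInv_fourier_eq hb.psc hb.psi (by rw [hb.four]; exact hφi)
    rw [h]
  rw [← integral_add_right_eq_self _ (lat n)]
  obtain ⟨H, hH⟩ : ∃ H : E 2 → ℂ, H = fun η => φ η * ex ((L : ℝ)⁻¹ • x) η := ⟨_, rfl⟩
  have h1 : ∀ ξ : E 2, (L : ℂ) ^ 2 * φ ((L : ℝ) • (ξ + lat n - lat n)) * ex x (ξ + lat n) =
      ((L : ℂ) ^ 2 * ex x (lat n)) * H ((L : ℝ) • ξ) := by
    intro ξ
    rw [hH]
    simp only
    rw [add_sub_cancel_right, ex_add_right, ex_smul, smul_smul, inv_mul_cancel₀ hL0, one_smul]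
    ring
  simp_rw [h1]
  rw [integral_const_mul, Measure.integral_comp_smul, hH, hinv]
  have h2 : Module.finrank ℝ (E 2) = 2 := by simp [E]
  rw [h2, abs_of_nonneg (by positivity), Complex.real_smul]
  push_cast
  have h3 : (L : ℂ) ≠ 0 := by
    have : 0 < L := hL
    exact_mod_cast this.ne'
  field_simp

end FTL_

open FTL_ in
theorem p_FTL : T_FTL := by
  intro φ ψ c hb a F L hL
  have hfL : fL a F ψ L = fun x => ∑ n ∈ F, a n * tm ψ L n x := rfl
  refine ⟨⟨?_, ?_, ?_⟩, ?_, fun n x => three hb hL n x⟩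
  · rw [hfL]
    exact continuous_finsetSum _ fun n _ => continuous_const.mul (tm_cont hb L n)
  · rw [hfL]
    exact integrable_finsetSum _ fun n _ => (tm_int hb hL n).const_mul _
  · rw [hfL]
    exact memLp_finsetSum _ fun n _ => (tm_sq hb hL n).const_mul _
  · intro ξ
    rw [fourier_ex, hfL]
    have h1 : ∀ v : E 2, ex v (-ξ) * ∑ n ∈ F, a n * tm ψ L n v =
        ∑ n ∈ F, a n * (ex v (-ξ) * tm ψ L n v) := by
      intro v
      rw [Finset.mul_sum]
      exact Finset.sum_congr rfl fun n _ => by ring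
    simp_rw [h1]
    have hint : ∀ n, Integrable fun v : E 2 => a n * (ex v (-ξ) * tm ψ L n v) := by
      intro n
      refine Integrable.const_mul ?_ _
      refine (tm_int hb hL n).mono
        ((ex_cont_left _).mul (tm_cont hb L n)).aestronglyMeasurable
        (Filter.Eventually.of_forall fun v => ?_)
      rw [norm_mul, ex_norm, one_mul]
    rw [integral_finsetSum _ fun n _ => hint n]
    refine Finset.sum_congr rfl fun n _ => ?_
    rw [integral_const_mul, tm_fourier hb hL]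

end Pool.Agent.CFS
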