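import Pool.Agent.CFS.Targets

set_option autoImplicit false

/-!
# CFS, target LIM: identification of the limit
-/

namespace Pool.Agent.CFS

open MeasureTheory FourierTransform Set Filter Topology
open scoped ENNReal NNReal ComplexConjugate
open Pool.Agent.MBS (E ex S)

namespace LIM_

theorem ex_cont (ξ : E 2) : Continuous (fun x : E 2 => ex x ξ) := by
  unfold ex
  have : Continuous (fun x : E 2 => ((inner ℝ x ξ : ℝ) : ℂ)) :=
    Complex.continuous_ofReal.comp (continuous_id.inner continuous_const)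
  exact Complex.continuous_exp.comp (continuous_const.mul this)

theorem pm_cont (a : (Fin 2 → ℤ) → ℂ) (m : ℕ) : Continuous (pm a m) := by
  unfold pm
  exact continuous_finsetSum _ fun n _ => continuous_const.mul (ex_cont (lat n))

theorem elp_eq {α : Type*} [MeasurableSpace α] (μ : Measure α) (u : α → ℂ) :
    eLpNorm u 2 μ = (∫⁻ x, ‖u x‖ₑ ^ 2 ∂μ) ^ (1 / 2 : ℝ) := by
  rw [eLpNorm_eq_lintegral_rpow_enorm_toReal (by norm_num) (by norm_num)]
  simp

/-- a subsequence converges almost everywhere -/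
theorem exists_sub {α : Type*} [MeasurableSpace α] (μ : Measure α) (u : ℕ → α → ℂ) (g : α → ℂ)
    (hu : ∀ n, AEStronglyMeasurable (u n) μ) (hg : AEStronglyMeasurable g μ)
    (h : Tendsto (fun n => ∫⁻ x, ‖g x - u n x‖ₑ ^ 2 ∂μ) atTop (𝓝 0)) :
    ∃ ns : ℕ → ℕ, StrictMono ns ∧ ∀ᵐ x ∂μ, Tendsto (fun i => u (ns i) x) atTop (𝓝 (g x)) := by
  have h1 : Tendsto (fun n => eLpNorm (u n - g) 2 μ) atTop (𝓝 0) := by
    have e : (fun n => eLpNorm (u n - g) 2 μ) =
        fun n => (∫⁻ x, ‖g x - u n x‖ₑ ^ 2 ∂μ) ^ (1 / 2 : ℝ) := by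
      funext n
      rw [elp_eq]
      congr 1
      refine lintegral_congr fun x => ?_
      rw [Pi.sub_apply, ← enorm_neg, neg_sub]
    rw [e]
    have h2 := h.ennrpow_const (1 / 2 : ℝ)
    rwa [ENNReal.zero_rpow_of_pos (by norm_num)] at h2
  have h3 := tendstoInMeasure_of_tendsto_eLpNorm (by norm_num) hu hg h1
  exact h3.exists_seq_tendsto_ae

end LIM_

open LIM_ in
theorem p_LIM (h1 : T_AEQ) (h2 : T_TOR) (h3 : T_CSM) (h4 : T_CELL) : T_LIM := by
  intro hS f hf hw
  obtain ⟨_, hinv, hper, hQm, _⟩ := h4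
  have hae := h1 hS (fc f) hw
  have hae' : ∀ᵐ x ∂(volume.restrict Q1), ∃ z : ℂ,
      Tendsto (fun m : ℕ => pm (fc f) m x) atTop (𝓝 z) := ae_restrict_of_ae hae
  obtain ⟨ns, hns, hsub⟩ := exists_sub (volume.restrict Q1) (pm (fc f)) f
    (fun n => (pm_cont (fc f) n).aestronglyMeasurable) hf.meas.aestronglyMeasurable (h2 f hf).2
  have hQ : ∀ᵐ x ∂(volume.restrict Q1), Tendsto (fun m : ℕ => pm (fc f) m x) atTop
      (𝓝 (f x)) := by
    filter_upwards [hae', hsub] with x hx1 hx2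
    obtain ⟨z, hz⟩ := hx1
    have h5 := tendsto_nhds_unique (hz.comp hns.tendsto_atTop) hx2
    rwa [h5] at hz
  have hall : ∀ᵐ x : E 2, Tendsto (fun m : ℕ => pm (fc f) m x) atTop (𝓝 (f x)) := by
    refine hinv _ hQ fun x k hx => ?_
    have e1 : (fun m : ℕ => pm (fc f) m (x + lat k)) = fun m : ℕ => pm (fc f) m x := by
      funext m
      unfold pm
      exact Finset.sum_congr rfl fun n _ => by rw [hper x k n]
    rw [e1, hf.per x k]
    exact hx
  filter_upwards [hall] with x hx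
  have hfl : Tendsto (fun R : ℝ => ⌊R ^ 2⌋₊) atTop atTop :=
    tendsto_nat_floor_atTop.comp (tendsto_pow_atTop two_ne_zero)
  refine (hx.comp hfl).congr' ?_
  filter_upwards [eventually_ge_atTop (0 : ℝ)] with R hR
  exact (h3.2 f R x hR).symm

end Pool.Agent.CFS
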