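import Pool.Agent.CFS.Targets

set_option autoImplicit false

/-!
# CFS, target MAXE: the maximal inequality on the unit square
-/

namespace Pool.Agent.CFS

open MeasureTheory FourierTransform Set Filter Topology
open scoped ENNReal NNReal ComplexConjugate
open Pool.Agent.MBS (E ex S)

namespace MAXE_

theorem ex_cont (ξ : E 2) : Continuous (fun x : E 2 => ex x ξ) := by
  unfold ex
  fun_prop

theorem pm_cont (a : (Fin 2 → ℤ) → ℂ) (m : ℕ) : Continuous (pm a m) := by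
  unfold pm
  exact continuous_finsetSum _ fun n _ => continuous_const.mul (ex_cont (lat n))

/-- the maximal function of the sums `pm` -/
noncomputable def M (a : (Fin 2 → ℤ) → ℂ) (N : ℕ) (x : E 2) : ℝ≥0∞ :=
  ⨆ (m : ℕ) (_ : m ≤ N ^ 2), ‖pm a m x‖ₑ

theorem M_meas (a : (Fin 2 → ℤ) → ℂ) (N : ℕ) : Measurable (M a N) := by
  unfold M
  exact Measurable.iSup fun m => Measurable.iSup fun _ => (pm_cont a m).enorm.measurable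

theorem M_per (h6 : T_CELL) (a : (Fin 2 → ℤ) → ℂ) (N : ℕ) (x : E 2) (k : Fin 2 → ℤ) :
    M a N (x + lat k) = M a N x := by
  unfold M pm
  simp only [h6.2.2.1]

theorem low {φ ψ : E 2 → ℂ} {c : ℝ} (hB : Bump φ ψ c) (h3 : T_CUT) (a : (Fin 2 → ℤ) → ℂ)
    (N : ℕ) (x : E 2) (hx : ∀ i, x i ∈ Ico (-((N + 1 : ℕ) : ℝ)) ((N + 1 : ℕ) : ℝ)) :
    ENNReal.ofReal c * M a N x ≤
      ⨆ R ∈ {R : ℝ | ∃ m : ℕ, m ≤ N ^ 2 ∧ R = Real.sqrt ((m : ℝ) + 1 / 2)},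
        ‖S (fL a (dm (N ^ 2)) ψ (N + 1)) R x‖ₑ := by
  have hL : (0 : ℝ) < ((N + 1 : ℕ) : ℝ) := by positivity
  have hc : ENNReal.ofReal c ≤ ‖ψ ((((N + 1 : ℕ) : ℝ))⁻¹ • x)‖ₑ := by
    rw [← ofReal_norm_eq_enorm]
    refine ENNReal.ofReal_le_ofReal (hB.low _ fun i => ?_)
    have h1 := hx i
    rw [PiLp.smul_apply, smul_eq_mul, abs_mul, abs_of_pos (inv_pos.2 hL), inv_mul_le_iff₀ hL,
      mul_one]
    exact abs_le.2 ⟨h1.1, h1.2.le⟩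
  unfold M
  rw [ENNReal.mul_iSup]
  refine iSup_le fun m => ?_
  rw [ENNReal.mul_iSup]
  refine iSup_le fun hm => ?_
  have h1 := h3 φ ψ c hB a N m hm x
  refine le_trans ?_ (le_iSup₂ (f := fun (R : ℝ)
    (_ : R ∈ {R : ℝ | ∃ m : ℕ, m ≤ N ^ 2 ∧ R = Real.sqrt ((m : ℝ) + 1 / 2)}) =>
    ‖S (fL a (dm (N ^ 2)) ψ (N + 1)) R x‖ₑ) (Real.sqrt ((m : ℝ) + 1 / 2)) ⟨m, hm, rfl⟩)
  rw [h1, enorm_mul, mul_comm]
  exact mul_le_mul_right hc _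

end MAXE_

open MAXE_ in
theorem p_MAXE (h1 : T_BUMP) (h2 : T_FTL) (h3 : T_CUT) (h4 : T_PLN) (h5 : T_SEPR)
    (h6 : T_CELL) : T_MAXE := by
  rintro ⟨Cs, hsep⟩
  obtain ⟨φ, ψ, c, hB⟩ := h1
  obtain ⟨Cp, hpln⟩ := h4 φ ψ c hB
  refine ⟨(c.toNNReal ^ 2)⁻¹ * (Cs * 4096 * Cp), fun N a => ?_⟩
  obtain ⟨hc1, hi1, hm1⟩ := (h2 φ ψ c hB a (dm (N ^ 2)) (N + 1) (Nat.le_add_left 1 N)).1
  obtain ⟨hgap, hd0, hd1, hlog⟩ := h5 N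
  have hS := hsep (2 * (N : ℝ) ^ 2 + 2)⁻¹
    {R : ℝ | ∃ m : ℕ, m ≤ N ^ 2 ∧ R = Real.sqrt ((m : ℝ) + 1 / 2)}
    (fL a (dm (N ^ 2)) ψ (N + 1)) hd0 hd1
    (by
      rintro R ⟨m, hm, rfl⟩
      positivity)
    (by
      rintro R ⟨m, hm, rfl⟩ R' ⟨m', hm', rfl⟩ hlt
      exact hgap m m' hm' hlt)
    hc1.measurable hi1 hm1
  have hP := hpln a (dm (N ^ 2)) (N + 1) (Nat.le_add_left 1 N)
  -- the left side
  set κ : ℝ≥0∞ := ENNReal.ofReal c with hκ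
  set L : ℝ≥0∞ := ((N + 1 : ℕ) : ℝ≥0∞) with hL
  have hκ0 : κ ≠ 0 := (ENNReal.ofReal_pos.2 hB.c0).ne'
  have hκt : κ ≠ ⊤ := ENNReal.ofReal_ne_top
  have hL0 : L ≠ 0 := by
    rw [hL]
    exact_mod_cast Nat.succ_ne_zero N
  have hLt : L ≠ ⊤ := ENNReal.natCast_ne_top _
  have hmeasB : MeasurableSet
      {x : E 2 | ∀ i, x i ∈ Ico (-((N + 1 : ℕ) : ℝ)) ((N + 1 : ℕ) : ℝ)} := by
    have : {x : E 2 | ∀ i, x i ∈ Ico (-((N + 1 : ℕ) : ℝ)) ((N + 1 : ℕ) : ℝ)} =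
        ⋂ i : Fin 2, (fun x : E 2 => x i) ⁻¹' Ico (-((N + 1 : ℕ) : ℝ)) ((N + 1 : ℕ) : ℝ) := by
      ext x
      simp
    rw [this]
    exact MeasurableSet.iInter fun i => measurableSet_Ico.preimage (by fun_prop)
  have hcell := h6.1 (fun x => M a N x ^ 2) (N + 1) ((M_meas a N).pow_const 2)
    (fun x k => by rw [M_per h6])
  have hlow : κ ^ 2 * ((2 * L) ^ 2 * ∫⁻ x in Q1, M a N x ^ 2) ≤
      ∫⁻ x, (⨆ R ∈ {R : ℝ | ∃ m : ℕ, m ≤ N ^ 2 ∧ R = Real.sqrt ((m : ℝ) + 1 / 2)},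
        ‖S (fL a (dm (N ^ 2)) ψ (N + 1)) R x‖ₑ) ^ 2 := by
    rw [← hcell, ← lintegral_const_mul' _ _ (ENNReal.pow_ne_top hκt)]
    refine le_trans ?_ (setLIntegral_le_lintegral
      {x : E 2 | ∀ i, x i ∈ Ico (-((N + 1 : ℕ) : ℝ)) ((N + 1 : ℕ) : ℝ)} _)
    refine setLIntegral_mono' hmeasB fun x hx => ?_
    rw [← mul_pow]
    exact pow_le_pow_left' (low hB h3 a N x hx) 2
  have hmain : κ ^ 2 * ((2 * L) ^ 2 * ∫⁻ x in Q1, M a N x ^ 2) ≤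
      Cs * (4096 * wl N) * (Cp * L ^ 2 * ∑ n ∈ dm (N ^ 2), ‖a n‖ₑ ^ 2) :=
    hlow.trans (hS.trans (mul_le_mul' (mul_le_mul_right hlog _) hP))
  have hmain2 : κ ^ 2 * L ^ 2 * ∫⁻ x in Q1, M a N x ^ 2 ≤
      κ ^ 2 * L ^ 2 * ((κ ^ 2)⁻¹ * (Cs * 4096 * Cp) * wl N * ∑ n ∈ dm (N ^ 2), ‖a n‖ₑ ^ 2) := by
    have e1 : κ ^ 2 * (κ ^ 2)⁻¹ = 1 :=
      ENNReal.mul_inv_cancel (pow_ne_zero 2 hκ0) (ENNReal.pow_ne_top hκt)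
    have e2 : κ ^ 2 * L ^ 2 * ((κ ^ 2)⁻¹ * (Cs * 4096 * Cp) * wl N *
        ∑ n ∈ dm (N ^ 2), ‖a n‖ₑ ^ 2) =
        Cs * (4096 * wl N) * (Cp * L ^ 2 * ∑ n ∈ dm (N ^ 2), ‖a n‖ₑ ^ 2) := by
      calc _ = (κ ^ 2 * (κ ^ 2)⁻¹) * (Cs * (4096 * wl N) *
            (Cp * L ^ 2 * ∑ n ∈ dm (N ^ 2), ‖a n‖ₑ ^ 2)) := by ring
        _ = _ := by rw [e1, one_mul]
    rw [e2]
    refine le_trans ?_ hmain
    rw [mul_assoc]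
    refine mul_le_mul_right ?_ _
    refine mul_le_mul_left ?_ _
    rw [mul_pow]
    exact le_mul_of_one_le_left' (by norm_num)
  have hfin : κ ^ 2 * L ^ 2 ≠ 0 := mul_ne_zero (pow_ne_zero 2 hκ0) (pow_ne_zero 2 hL0)
  have hfin' : κ ^ 2 * L ^ 2 ≠ ⊤ :=
    ENNReal.mul_ne_top (ENNReal.pow_ne_top hκt) (ENNReal.pow_ne_top hLt)
  have hres := (ENNReal.mul_le_mul_iff_right hfin hfin').1 hmain2
  have hcoe : (((c.toNNReal ^ 2)⁻¹ * (Cs * 4096 * Cp) : ℝ≥0) : ℝ≥0∞) =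
      (κ ^ 2)⁻¹ * (Cs * 4096 * Cp) := by
    have hne : c.toNNReal ^ 2 ≠ 0 := pow_ne_zero 2 (Real.toNNReal_pos.2 hB.c0).ne'
    rw [ENNReal.coe_mul, ENNReal.coe_inv hne, ENNReal.coe_pow, ENNReal.coe_mul, ENNReal.coe_mul]
    rfl
  rw [hcoe]
  exact hres

end Pool.Agent.CFS
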