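import Pool.Agent.CFS.Targets

set_option autoImplicit false

/-!
# CFS: MAXF, the maximal inequality for functions
-/

namespace Pool.Agent.CFS

open MeasureTheory FourierTransform Set Filter Topology
open scoped ENNReal NNReal ComplexConjugate
open Pool.Agent.MBS (E ex S)

namespace MAXF_

theorem wl_ceil (N : ℝ) (hN : 1 ≤ N) : wl (⌈N⌉₊ : ℝ) ≤ 4096 * wl N := by
  have h1 : ((⌈N⌉₊ : ℕ) : ℝ) ≤ 2 * N := by
    have := Nat.ceil_lt_add_one (show (0 : ℝ) ≤ N by linarith)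
    linarith
  have h0 : (0 : ℝ) ≤ (⌈N⌉₊ : ℝ) := Nat.cast_nonneg _
  have hl0 : 0 ≤ Real.log (3 + N) := Real.log_nonneg (by linarith)
  have hl0' : 0 ≤ Real.log (3 + (⌈N⌉₊ : ℝ)) := Real.log_nonneg (by linarith)
  have h2 : Real.log (3 + (⌈N⌉₊ : ℝ)) ≤ Real.log 2 + Real.log (3 + N) := by
    rw [← Real.log_mul two_ne_zero (by linarith)]
    exact Real.log_le_log (by linarith) (by linarith)
  have h3 : Real.log 2 ≤ 1 := by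
    have := Real.log_two_lt_d9
    linarith
  have h4 : 3 + Real.log (3 + (⌈N⌉₊ : ℝ)) ≤ 2 * (3 + Real.log (3 + N)) := by linarith
  have h5 : Real.log (3 + Real.log (3 + (⌈N⌉₊ : ℝ))) ≤
      Real.log 2 + Real.log (3 + Real.log (3 + N)) := by
    rw [← Real.log_mul two_ne_zero (by linarith)]
    exact Real.log_le_log (by linarith) h4
  have h6 : Real.log 2 ≤ Real.log (3 + Real.log (3 + N)) :=
    Real.log_le_log two_pos (by linarith)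
  have h7 : Real.log (3 + Real.log (3 + (⌈N⌉₊ : ℝ))) ≤
      2 * Real.log (3 + Real.log (3 + N)) := by linarith
  have h8 : 0 ≤ Real.log (3 + Real.log (3 + (⌈N⌉₊ : ℝ))) := Real.log_nonneg (by linarith)
  have h9 : Real.log (3 + Real.log (3 + (⌈N⌉₊ : ℝ))) ^ 12 ≤
      4096 * Real.log (3 + Real.log (3 + N)) ^ 12 := by
    calc Real.log (3 + Real.log (3 + (⌈N⌉₊ : ℝ))) ^ 12
        ≤ (2 * Real.log (3 + Real.log (3 + N))) ^ 12 := pow_le_pow_left₀ h8 h7 12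
      _ = 4096 * Real.log (3 + Real.log (3 + N)) ^ 12 := by ring
  unfold wl
  have h10 : (4096 : ℝ≥0∞) = ENNReal.ofReal 4096 := by
    rw [ENNReal.ofReal_ofNat]
  rw [h10, ← ENNReal.ofReal_mul (by norm_num)]
  exact ENNReal.ofReal_le_ofReal h9

end MAXF_

theorem p_MAXF (h1 : T_MAXE) (h2 : T_TOR) (h3 : T_CSM) : T_MAXF := by
  intro hS
  obtain ⟨C, hC⟩ := h1 hS
  refine ⟨C * 4096, ?_⟩
  intro N f hN hf
  obtain ⟨hb, _⟩ := h2 f hf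
  have hN0 : (0 : ℝ) ≤ N := by linarith
  have hceil : N ≤ (⌈N⌉₊ : ℝ) := Nat.le_ceil N
  have hsup : ∀ x : E 2, (⨆ R ∈ Ioc (0 : ℝ) N, ‖CS f R x‖ₑ) ≤
      ⨆ (m : ℕ) (_ : m ≤ ⌈N⌉₊ ^ 2), ‖pm (fc f) m x‖ₑ := by
    intro x
    refine iSup₂_le fun R hR => ?_
    rw [h3.2 f R x hR.1.le]
    have hm : ⌊R ^ 2⌋₊ ≤ ⌈N⌉₊ ^ 2 := by
      apply Nat.floor_le_of_le
      push_cast
      exact pow_le_pow_left₀ hR.1.le (hR.2.trans hceil) 2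
    exact le_iSup₂_of_le (f := fun (m : ℕ) (_ : m ≤ ⌈N⌉₊ ^ 2) => ‖pm (fc f) m x‖ₑ)
      ⌊R ^ 2⌋₊ hm le_rfl
  calc ∫⁻ x in Q1, (⨆ R ∈ Ioc (0 : ℝ) N, ‖CS f R x‖ₑ) ^ 2
      ≤ ∫⁻ x in Q1, (⨆ (m : ℕ) (_ : m ≤ ⌈N⌉₊ ^ 2), ‖pm (fc f) m x‖ₑ) ^ 2 := by
        apply lintegral_mono
        intro x
        exact pow_le_pow_left' (hsup x) 2
    _ ≤ C * wl (⌈N⌉₊ : ℝ) * ∑ n ∈ dm (⌈N⌉₊ ^ 2), ‖fc f n‖ₑ ^ 2 := hC ⌈N⌉₊ (fc f)
    _ ≤ C * (4096 * wl N) * ∫⁻ x in Q1, ‖f x‖ₑ ^ 2 := by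
        gcongr
        · exact MAXF_.wl_ceil N hN
        · exact (ENNReal.sum_le_tsum _).trans hb
    _ = ((C * 4096 : ℝ≥0) : ℝ≥0∞) * wl N * ∫⁻ x in Q1, ‖f x‖ₑ ^ 2 := by
        push_cast
        ring

end Pool.Agent.CFS
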