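import Pool.Agent.CFS.P_CELL

set_option autoImplicit false

/-!
# CFS, T_PAR: Parseval for trigonometric polynomials on the unit square
-/

namespace Pool.Agent.CFS

open MeasureTheory FourierTransform Set Filter Topology
open scoped ENNReal NNReal ComplexConjugate
open Pool.Agent.MBS (E ex S)

namespace PAR_

/-- the one dimensional factor -/
noncomputable def g (m : ℤ) : ℝ → ℂ :=
  (Ico (0 : ℝ) 1).indicator fun t => Complex.exp ((2 * Real.pi * Complex.I * m) * t)

theorem int_g (m : ℤ) : ∫ t, g m t = if m = 0 then 1 else 0 := by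
  unfold g
  rw [integral_indicator measurableSet_Ico, integral_Ico_eq_integral_Ioc,
    ← intervalIntegral.integral_of_le zero_le_one]
  by_cases h : m = 0
  · simp [h]
  · rw [if_neg h]
    have hc : (2 * Real.pi * Complex.I * m : ℂ) ≠ 0 := by
      have h1 : (m : ℂ) ≠ 0 := by exact_mod_cast h
      have h2 : (Real.pi : ℂ) ≠ 0 := by exact_mod_cast Real.pi_ne_zero
      exact mul_ne_zero (mul_ne_zero (mul_ne_zero two_ne_zero h2) Complex.I_ne_zero) h1
    rw [integral_exp_mul_complex hc]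
    have h3 : (2 * Real.pi * Complex.I * m : ℂ) * ((1 : ℝ) : ℂ) =
        m * (2 * Real.pi * Complex.I) := by
      push_cast
      ring
    rw [h3, Complex.exp_int_mul_two_pi_mul_I]
    simp

theorem ex_prod (y : Fin 2 → ℝ) (m : Fin 2 → ℤ) :
    Q1.indicator (fun x : E 2 => ex x (lat m)) (WithLp.toLp 2 y) = ∏ i, g (m i) (y i) := by
  unfold g
  by_cases h : WithLp.toLp 2 y ∈ Q1
  · rw [indicator_of_mem h]
    have h' : ∀ i, y i ∈ Ico (0 : ℝ) 1 := h
    rw [Finset.prod_congr rfl fun i _ => indicator_of_mem (h' i) _]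
    rw [← Complex.exp_sum]
    unfold ex
    congr 1
    rw [PiLp.inner_apply]
    push_cast
    rw [Finset.mul_sum]
    refine Finset.sum_congr rfl fun i _ => ?_
    rw [CELL_.lat_apply]
    simp
    ring
  · rw [indicator_of_notMem h]
    have h' : ∃ i, y i ∉ Ico (0 : ℝ) 1 := by
      by_contra hcon
      push Not at hcon
      exact h hcon
    obtain ⟨i, hi⟩ := h'
    rw [eq_comm]
    exact Finset.prod_eq_zero (Finset.mem_univ i) (indicator_of_notMem hi _)

theorem Q1_meas : MeasurableSet Q1 := p_CELL.2.2.2.1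

theorem int_ex (m : Fin 2 → ℤ) : ∫ x in Q1, ex x (lat m) = if m = 0 then 1 else 0 := by
  rw [← integral_indicator Q1_meas]
  have h1 : ∫ x : E 2, Q1.indicator (fun x : E 2 => ex x (lat m)) x =
      ∫ y : Fin 2 → ℝ, Q1.indicator (fun x : E 2 => ex x (lat m)) (WithLp.toLp 2 y) :=
    ((PiLp.volume_preserving_toLp (Fin 2)).integral_comp
      (MeasurableEquiv.toLp 2 (Fin 2 → ℝ)).measurableEmbedding _).symm
  rw [h1]
  simp only [ex_prod]
  rw [integral_fintype_prod_volume_eq_prod (fun i t => g (m i) t)]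
  simp only [int_g]
  by_cases h : m = 0
  · rw [if_pos h]
    refine Finset.prod_eq_one fun i _ => ?_
    have hi : m i = 0 := congrFun h i
    rw [if_pos hi]
  · rw [if_neg h]
    obtain ⟨i, hi⟩ := Function.ne_iff.1 h
    exact Finset.prod_eq_zero (Finset.mem_univ i) (if_neg hi)

theorem ex_cont (m : Fin 2 → ℤ) : Continuous fun x : E 2 => ex x (lat m) := by
  unfold ex
  fun_prop

theorem norm_ex (x ξ : E 2) : ‖ex x ξ‖ = 1 := by
  unfold ex
  have h : (2 * Real.pi * Complex.I * ((inner ℝ x ξ : ℝ) : ℂ) : ℂ) =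
      ((2 * Real.pi * inner ℝ x ξ : ℝ) : ℂ) * Complex.I := by
    push_cast
    ring
  rw [h, Complex.norm_exp_ofReal_mul_I]

theorem ex_mul_conj (x : E 2) (m n : Fin 2 → ℤ) :
    ex x (lat m) * conj (ex x (lat n)) = ex x (lat (m - n)) := by
  have hl : lat (m - n) = lat m - lat n := by
    ext i
    rw [PiLp.sub_apply, CELL_.lat_apply, CELL_.lat_apply, CELL_.lat_apply, Pi.sub_apply]
    push_cast
    ring
  rw [hl]
  unfold ex
  rw [← Complex.exp_conj, ← Complex.exp_add, inner_sub_right]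
  congr 1
  simp only [map_mul, Complex.conj_ofReal, Complex.conj_I, map_ofNat]
  push_cast
  ring

instance : IsFiniteMeasure ((volume : Measure (E 2)).restrict Q1) := by
  refine ⟨?_⟩
  rw [Measure.restrict_apply_univ, p_CELL.2.2.2.2]
  exact ENNReal.one_lt_top

theorem integ (c : ℂ) (m : Fin 2 → ℤ) :
    Integrable (fun x : E 2 => c * ex x (lat m)) (volume.restrict Q1) := by
  refine Integrable.const_mul ?_ c
  refine Integrable.of_bound (ex_cont m).aestronglyMeasurable 1 ?_
  exact Filter.Eventually.of_forall fun x => (norm_ex x _).le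

end PAR_

open PAR_ in
theorem p_PAR : T_PAR := by
  intro a F
  set P : E 2 → ℂ := fun x => ∑ n ∈ F, a n * ex x (lat n) with hP
  have hPc : Continuous P := by
    rw [hP]
    exact continuous_finsetSum _ fun n _ => continuous_const.mul (ex_cont n)
  have hexp : ∀ x, ((‖P x‖ ^ 2 : ℝ) : ℂ) = ∑ n ∈ F, ∑ m ∈ F, (a n * conj (a m)) *
      ex x (lat (n - m)) := by
    intro x
    have h1 : ((‖P x‖ ^ 2 : ℝ) : ℂ) = P x * conj (P x) := by
      rw [Complex.mul_conj, Complex.normSq_eq_norm_sq]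
    rw [h1, hP]
    simp only [map_sum, map_mul]
    rw [Finset.sum_mul_sum]
    refine Finset.sum_congr rfl fun n _ => Finset.sum_congr rfl fun m _ => ?_
    rw [← ex_mul_conj]
    ring
  have hint : ∫ x in Q1, ((‖P x‖ ^ 2 : ℝ) : ℂ) = ((∑ n ∈ F, ‖a n‖ ^ 2 : ℝ) : ℂ) := by
    simp only [hexp]
    rw [integral_finsetSum _ fun n _ => integrable_finsetSum _ fun m _ => integ _ _]
    push_cast
    refine Finset.sum_congr rfl fun n hn => ?_
    rw [integral_finsetSum _ fun m _ => integ _ _, Finset.sum_eq_single n]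
    · rw [integral_const_mul, int_ex, sub_self, if_pos rfl, mul_one, Complex.mul_conj,
        Complex.normSq_eq_norm_sq]
      push_cast
      rfl
    · intro m _ hm
      rw [integral_const_mul, int_ex, if_neg (sub_ne_zero.mpr hm.symm), mul_zero]
    · intro h
      exact absurd hn h
  have hint' : ∫ x in Q1, ‖P x‖ ^ 2 = ∑ n ∈ F, ‖a n‖ ^ 2 := by
    have h := hint
    rw [integral_complex_ofReal] at h
    exact_mod_cast h
  have hbd : ∀ x, ‖P x‖ ≤ ∑ n ∈ F, ‖a n‖ := by
    intro x
    refine (norm_sum_le _ _).trans (Finset.sum_le_sum fun n _ => ?_)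
    rw [norm_mul, norm_ex, mul_one]
  have hI : Integrable (fun x => ‖P x‖ ^ 2) (volume.restrict Q1) := by
    refine Integrable.of_bound (hPc.norm.pow 2).aestronglyMeasurable
      ((∑ n ∈ F, ‖a n‖) ^ 2) (Filter.Eventually.of_forall fun x => ?_)
    rw [Real.norm_of_nonneg (by positivity)]
    exact pow_le_pow_left₀ (norm_nonneg _) (hbd x) 2
  have e1 : ∀ z : ℂ, ‖z‖ₑ ^ 2 = ENNReal.ofReal (‖z‖ ^ 2) := by
    intro z
    rw [ENNReal.ofReal_pow (norm_nonneg _), ofReal_norm]
  calc ∫⁻ x in Q1, ‖∑ n ∈ F, a n * ex x (lat n)‖ₑ ^ 2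
      = ∫⁻ x in Q1, ENNReal.ofReal (‖P x‖ ^ 2) := by
        refine lintegral_congr fun x => ?_
        exact e1 _
    _ = ENNReal.ofReal (∫ x in Q1, ‖P x‖ ^ 2) := by
        rw [ofReal_integral_eq_lintegral_ofReal hI
          (Filter.Eventually.of_forall fun x => by positivity)]
    _ = ∑ n ∈ F, ‖a n‖ₑ ^ 2 := by
        rw [hint', ENNReal.ofReal_sum_of_nonneg fun n _ => by positivity]
        exact Finset.sum_congr rfl fun n _ => (e1 _).symm

end Pool.Agent.CFS
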