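import Pool.Agent.CFS.Targets

/-!
# CFS: Plancherel for the transferred function
-/

set_option autoImplicit false

namespace Pool.Agent.CFS

open MeasureTheory FourierTransform Set Filter Topology
open scoped ENNReal NNReal ComplexConjugate
open Pool.Agent.MBS (E ex S)

namespace PLN_

theorem sq_eLp (f : E 2 → ℂ) : ∫⁻ x, ‖f x‖ₑ ^ 2 = eLpNorm f 2 ^ 2 := by
  have h := eLpNorm_nnreal_pow_eq_lintegral (f := f) (μ := (volume : Measure (E 2)))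
    (p := (2 : ℝ≥0)) (by norm_num)
  have h2 : (((2 : ℝ≥0)) : ℝ) = ((2 : ℕ) : ℝ) := by norm_num
  have h3 : (((2 : ℝ≥0)) : ℝ≥0∞) = 2 := by norm_num
  rw [h2, h3, ENNReal.rpow_natCast] at h
  rw [h]
  refine lintegral_congr fun x => ?_
  rw [ENNReal.rpow_natCast]

theorem lat_dist {n m : Fin 2 → ℤ} (h : n ≠ m) : 1 ≤ ‖lat n - lat m‖ := by
  obtain ⟨i, hi⟩ := Function.ne_iff.1 h
  have h1 : ‖(lat n - lat m) i‖ ≤ ‖lat n - lat m‖ := PiLp.norm_apply_le _ i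
  have h2 : (lat n - lat m) i = ((n i - m i : ℤ) : ℝ) := by
    simp [lat]
  rw [h2] at h1
  refine le_trans ?_ h1
  rw [Real.norm_eq_abs, ← Int.cast_abs]
  have h3 : 1 ≤ |n i - m i| := Int.one_le_abs (sub_ne_zero.2 hi)
  exact_mod_cast h3

theorem one_term {φ : E 2 → ℂ} (hs : ∀ ξ, 1 / 8 ≤ ‖ξ‖ → φ ξ = 0) (a : (Fin 2 → ℤ) → ℂ)
    (F : Finset (Fin 2 → ℤ)) (L : ℕ) (hL : 1 ≤ L) (ξ : E 2) :
    ‖∑ n ∈ F, a n * ((L : ℂ) ^ 2 * φ ((L : ℝ) • (ξ - lat n)))‖ₑ ^ 2 ≤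
      ∑ n ∈ F, ‖a n‖ₑ ^ 2 * ((L : ℝ≥0∞) ^ 4 * ‖φ ((L : ℝ) • (ξ - lat n))‖ₑ ^ 2) := by
  have hL' : (1 : ℝ) ≤ L := by exact_mod_cast hL
  by_cases h : ∃ n ∈ F, φ ((L : ℝ) • (ξ - lat n)) ≠ 0
  · obtain ⟨n, hn, h0⟩ := h
    have key : ∀ m, φ ((L : ℝ) • (ξ - lat m)) ≠ 0 → ‖ξ - lat m‖ < 1 / 8 := by
      intro m hm
      by_contra hc
      rw [not_lt] at hc
      apply hm
      apply hs
      rw [norm_smul, Real.norm_eq_abs, abs_of_pos (by linarith)]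
      nlinarith [norm_nonneg (ξ - lat m)]
    have hz : ∀ m ∈ F, m ≠ n → a m * ((L : ℂ) ^ 2 * φ ((L : ℝ) • (ξ - lat m))) = 0 := by
      intro m _ hmn
      by_contra hc
      have hm : φ ((L : ℝ) • (ξ - lat m)) ≠ 0 := by
        intro h1
        apply hc
        rw [h1]
        ring
      have h1 := key m hm
      have h2 := key n h0
      have h3 := lat_dist hmn
      have h4 : ‖lat m - lat n‖ ≤ ‖ξ - lat n‖ + ‖ξ - lat m‖ := by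
        have : lat m - lat n = (ξ - lat n) - (ξ - lat m) := by abel
        rw [this]
        exact norm_sub_le _ _
      linarith
    rw [Finset.sum_eq_single_of_mem n hn hz]
    refine le_trans (le_of_eq ?_) (Finset.single_le_sum (f := fun n => ‖a n‖ₑ ^ 2 *
      ((L : ℝ≥0∞) ^ 4 * ‖φ ((L : ℝ) • (ξ - lat n))‖ₑ ^ 2)) (fun _ _ => bot_le) hn)
    have h5 : ‖(L : ℂ)‖ₑ = (L : ℝ≥0∞) := by
      simp [enorm_eq_nnnorm]
    simp only [enorm_mul, enorm_pow, h5]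
    ring
  · push Not at h
    rw [Finset.sum_eq_zero]
    · simp
    · intro n hn
      rw [h n hn]
      ring

theorem scale {g : E 2 → ℝ≥0∞} (hg : Measurable g) (v : E 2) (L : ℕ) (hL : 1 ≤ L) :
    (L : ℝ≥0∞) ^ 2 * ∫⁻ ξ, g ((L : ℝ) • (ξ - v)) = ∫⁻ ξ, g ξ := by
  have hL0 : (L : ℝ) ≠ 0 := by
    have : (1 : ℝ) ≤ L := by exact_mod_cast hL
    linarith
  have h1 : ∫⁻ ξ, g ((L : ℝ) • (ξ - v)) = ∫⁻ ξ, g ((L : ℝ) • ξ) :=
    lintegral_sub_right_eq_self (fun ξ => g ((L : ℝ) • ξ)) v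
  have h2 : ∫⁻ ξ, g ξ ∂(Measure.map (fun x : E 2 => (L : ℝ) • x) volume) =
      ∫⁻ ξ, g ((L : ℝ) • ξ) := lintegral_map hg (measurable_const_smul _)
  rw [Measure.map_addHaar_smul _ hL0, lintegral_smul_measure] at h2
  rw [h1, ← h2, smul_eq_mul, ← mul_assoc]
  have h3 : (L : ℝ≥0∞) ^ 2 * ENNReal.ofReal |((L : ℝ) ^ Module.finrank ℝ (E 2))⁻¹| = 1 := by
    rw [finrank_euclideanSpace_fin, abs_of_nonneg (by positivity),
      ENNReal.ofReal_inv_of_pos (by positivity), ENNReal.ofReal_pow (by positivity),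
      ENNReal.ofReal_natCast]
    refine ENNReal.mul_inv_cancel ?_ ?_
    · exact pow_ne_zero 2 (by exact_mod_cast (by omega : L ≠ 0))
    · exact ENNReal.pow_ne_top (ENNReal.natCast_ne_top L)
  rw [h3, one_mul]

end PLN_

open PLN_ in
theorem p_PLN (h1 : T_FTL) : T_PLN := by
  intro φ ψ c hB
  have hfin : ∫⁻ ξ, ‖φ ξ‖ₑ ^ 2 ≠ ∞ := by
    have hc : HasCompactSupport φ := by
      refine HasCompactSupport.intro (isCompact_closedBall (0 : E 2) (1 / 8)) ?_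
      intro x hx
      apply hB.phs
      rw [Metric.mem_closedBall, dist_zero_right, not_le] at hx
      exact hx.le
    have hm : MemLp φ 2 := hB.phc.memLp_of_hasCompactSupport hc
    rw [sq_eLp]
    exact ENNReal.pow_ne_top hm.2.ne
  refine ⟨(∫⁻ ξ, ‖φ ξ‖ₑ ^ 2).toNNReal, fun a F L hL => ?_⟩
  rw [ENNReal.coe_toNNReal hfin]
  obtain ⟨⟨_, hi, hm⟩, hF, -⟩ := h1 φ ψ c hB a F L hL
  have hme : Measurable fun ξ : E 2 => ‖φ ξ‖ₑ ^ 2 := hB.phc.measurable.enorm.pow_const 2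
  have hmn : ∀ n : Fin 2 → ℤ, Measurable fun ξ : E 2 => ‖φ ((L : ℝ) • (ξ - lat n))‖ₑ ^ 2 := by
    intro n
    have h2 : Measurable fun ξ : E 2 => (L : ℝ) • (ξ - lat n) := by fun_prop
    exact hme.comp h2
  calc ∫⁻ x, ‖fL a F ψ L x‖ₑ ^ 2 = ∫⁻ ξ, ‖𝓕 (fL a F ψ L) ξ‖ₑ ^ 2 := by
        rw [sq_eLp, sq_eLp, Pool.Agent.H25.Plancherel.eLpNorm_fourier_eq hi hm]
    _ ≤ ∫⁻ ξ, ∑ n ∈ F, ‖a n‖ₑ ^ 2 * ((L : ℝ≥0∞) ^ 4 * ‖φ ((L : ℝ) • (ξ - lat n))‖ₑ ^ 2) := by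
        refine lintegral_mono fun ξ => ?_
        rw [hF]
        exact one_term hB.phs a F L hL ξ
    _ = ∑ n ∈ F, ‖a n‖ₑ ^ 2 * ((L : ℝ≥0∞) ^ 2 * ∫⁻ ξ, ‖φ ξ‖ₑ ^ 2) := by
        rw [lintegral_finsetSum]
        · refine Finset.sum_congr rfl fun n _ => ?_
          rw [lintegral_const_mul _ ((hmn n).const_mul _), lintegral_const_mul _ (hmn n),
            ← scale hme (lat n) L hL]
          ring
        · intro n _
          exact ((hmn n).const_mul _).const_mul _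
    _ = (∫⁻ ξ, ‖φ ξ‖ₑ ^ 2) * (L : ℝ≥0∞) ^ 2 * ∑ n ∈ F, ‖a n‖ₑ ^ 2 := by
        rw [← Finset.sum_mul]
        ring

end Pool.Agent.CFS
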