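import Pool.Agent.CFS.Targets

set_option autoImplicit false

/-!
# SEPR: the radii `√(m + 1/2)`, `m ≤ N²`, have relative gaps at least `1/(2N²+2)`
-/

namespace Pool.Agent.CFS

open MeasureTheory Set Filter Topology
open scoped ENNReal NNReal ComplexConjugate

namespace SEPR_

/-- the gap of consecutive radii -/
lemma gap (N m m' : ℕ) (hm : m' ≤ N ^ 2)
    (h : Real.sqrt ((m : ℝ) + 1 / 2) < Real.sqrt ((m' : ℝ) + 1 / 2)) :
    Real.sqrt ((m : ℝ) + 1 / 2) + (2 * (N : ℝ) ^ 2 + 2)⁻¹ * Real.sqrt ((m' : ℝ) + 1 / 2) ≤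
      Real.sqrt ((m' : ℝ) + 1 / 2) := by
  have h0 : (0 : ℝ) ≤ (m : ℝ) + 1 / 2 := by positivity
  have h0' : (0 : ℝ) ≤ (m' : ℝ) + 1 / 2 := by positivity
  have hlt : (m : ℝ) + 1 / 2 < (m' : ℝ) + 1 / 2 := by
    by_contra hc
    exact absurd h (not_lt.mpr (Real.sqrt_le_sqrt (not_lt.mp hc)))
  have hmm : m + 1 ≤ m' := by
    have : (m : ℝ) < m' := by linarith
    exact_mod_cast this
  have hmmR : (m : ℝ) + 1 ≤ m' := by exact_mod_cast hmm
  have hN : (m' : ℝ) ≤ (N : ℝ) ^ 2 := by exact_mod_cast hm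
  set a := Real.sqrt ((m : ℝ) + 1 / 2) with ha
  set b := Real.sqrt ((m' : ℝ) + 1 / 2) with hb
  have ha0 : 0 ≤ a := Real.sqrt_nonneg _
  have hb0 : 0 ≤ b := Real.sqrt_nonneg _
  have ha2 : a ^ 2 = (m : ℝ) + 1 / 2 := Real.sq_sqrt h0
  have hb2 : b ^ 2 = (m' : ℝ) + 1 / 2 := Real.sq_sqrt h0'
  have hbp : 0 < b := lt_of_le_of_lt ha0 h
  have hD : (0 : ℝ) < 2 * (N : ℝ) ^ 2 + 2 := by positivity
  -- `(b - a) * (2 * N^2 + 2) ≥ b`
  have key : b ≤ (b - a) * (2 * (N : ℝ) ^ 2 + 2) := by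
    have h1 : 1 ≤ (b - a) * (b + a) := by nlinarith
    have h2 : (b - a) * (b + a) ≤ (b - a) * (2 * b) := by
      apply mul_le_mul_of_nonneg_left _ (by linarith)
      linarith
    have h3 : b * 1 ≤ b * ((b - a) * (2 * b)) :=
      mul_le_mul_of_nonneg_left (h1.trans h2) hb0
    have h4 : b * ((b - a) * (2 * b)) = (b - a) * (2 * b ^ 2) := by ring
    have h5 : (b - a) * (2 * b ^ 2) ≤ (b - a) * (2 * (N : ℝ) ^ 2 + 2) := by
      apply mul_le_mul_of_nonneg_left _ (by linarith)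
      rw [hb2]
      linarith
    linarith
  have h6 : (2 * (N : ℝ) ^ 2 + 2)⁻¹ * b ≤ b - a := by
    rw [inv_mul_le_iff₀ hD]
    linarith
  linarith

/-- the comparison of the two logarithms -/
lemma logs (N : ℕ) :
    Real.log (3 + Real.log (2 * (N : ℝ) ^ 2 + 2)) ≤ 2 * Real.log (3 + Real.log (3 + N)) := by
  have hN : (0 : ℝ) ≤ N := Nat.cast_nonneg _
  have h1 : 2 * (N : ℝ) ^ 2 + 2 ≤ (3 + N) ^ 3 := by nlinarith [mul_nonneg hN hN]
  have h2 : Real.log (2 * (N : ℝ) ^ 2 + 2) ≤ 3 * Real.log (3 + N) := by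
    have := Real.log_le_log (by positivity) h1
    rw [Real.log_pow] at this
    exact_mod_cast this
  have hl : 0 ≤ Real.log (3 + N) := Real.log_nonneg (by linarith)
  have h3 : 3 + Real.log (2 * (N : ℝ) ^ 2 + 2) ≤ 3 * (3 + Real.log (3 + N)) := by linarith
  have hl2 : 0 ≤ Real.log (2 * (N : ℝ) ^ 2 + 2) := Real.log_nonneg (by nlinarith)
  have h4 := Real.log_le_log (by linarith) h3
  rw [Real.log_mul (by norm_num) (by linarith)] at h4
  have h5 : Real.log 3 ≤ Real.log (3 + Real.log (3 + N)) :=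
    Real.log_le_log (by norm_num) (by linarith)
  linarith

end SEPR_

/-- **SEPR** -/
theorem p_SEPR : T_SEPR := by
  intro N
  have hD : (0 : ℝ) < 2 * (N : ℝ) ^ 2 + 2 := by positivity
  refine ⟨fun m m' => SEPR_.gap N m m', inv_pos.mpr hD, ?_, ?_⟩
  · rw [show (1 / 2 : ℝ) = (2 : ℝ)⁻¹ by norm_num]
    apply inv_anti₀ (by norm_num)
    nlinarith [sq_nonneg (N : ℝ)]
  · rw [inv_inv, wl]
    have hN : (0 : ℝ) ≤ N := Nat.cast_nonneg _
    have h4096 : (4096 : ℝ≥0∞) = ENNReal.ofReal ((2 : ℝ) ^ 12) := by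
      rw [show ((2 : ℝ) ^ 12) = ((4096 : ℕ) : ℝ) by norm_num, ENNReal.ofReal_natCast]
      norm_num
    rw [h4096, ← ENNReal.ofReal_mul (by positivity), ← mul_pow]
    apply ENNReal.ofReal_le_ofReal
    apply pow_le_pow_left₀ _ (SEPR_.logs N)
    apply Real.log_nonneg
    have hl2 : 0 ≤ Real.log (2 * (N : ℝ) ^ 2 + 2) := Real.log_nonneg (by nlinarith)
    linarith

end Pool.Agent.CFS
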