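import Pool.Agent.CFS.Targets

set_option autoImplicit false

/-!
# CFS-TOR: `L²` convergence of double Fourier series and Bessel's inequality
-/

namespace Pool.Agent.CFS

open MeasureTheory FourierTransform Set Filter Topology
open scoped ENNReal NNReal ComplexConjugate
open Pool.Agent.MBS (E ex S)

attribute [local instance] instMeasureSpaceUnitAddCircle

namespace TOR_

/-- the measure on the circle is a Haar measure -/
local instance instHaar : Measure.IsAddHaarMeasure (volume : Measure UnitAddCircle) :=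
  inferInstanceAs (Measure.IsAddHaarMeasure AddCircle.haarAddCircle)

/-- the measure on the circle is a probability measure -/
local instance instProb : IsProbabilityMeasure (volume : Measure UnitAddCircle) :=
  inferInstanceAs (IsProbabilityMeasure AddCircle.haarAddCircle)

/-- the torus -/
abbrev T2 : Type := UnitAddTorus (Fin 2)

/-- the representative of a point of the torus in the unit square -/
noncomputable def rep (t : T2) : E 2 :=
  WithLp.toLp 2 fun i => ((AddCircle.equivIoc 1 0 (t i)).1 : ℝ)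

/-- the half open unit square -/
def K : Set (Fin 2 → ℝ) := {x | ∀ i, x i ∈ Ioc ((0 : Fin 2 → ℝ) i) ((0 : Fin 2 → ℝ) i + 1)}

theorem meas_K : MeasurableSet K := by
  have : K = ⋂ i, (fun x : Fin 2 → ℝ => x i) ⁻¹' (Ioc 0 (0 + 1)) := by
    ext x
    simp [K]
  rw [this]
  exact MeasurableSet.iInter fun i => (measurable_pi_apply i) measurableSet_Ioc

theorem rep_coe {y : Fin 2 → ℝ} (hy : y ∈ K) :
    rep (fun i => ((y i : ℝ) : UnitAddCircle)) = WithLp.toLp 2 y := by
  unfold rep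
  congr 1
  funext i
  have h1 : y i ∈ Ioc (0 : ℝ) (0 + 1) := hy i
  exact AddCircle.equivIoc_coe_of_mem h1

theorem rep_meas : Measurable rep := by
  have h1 : Measurable (fun t : T2 => (UnitAddTorus.measurableEquivPiIoc (0 : Fin 2 → ℝ) t).1) :=
    measurable_subtype_coe.comp (UnitAddTorus.measurableEquivPiIoc (0 : Fin 2 → ℝ)).measurable
  have h2 : rep = fun t => WithLp.toLp 2
      (UnitAddTorus.measurableEquivPiIoc (0 : Fin 2 → ℝ) t).1 := by
    funext t
    rfl
  rw [h2]
  exact (PiLp.volume_preserving_toLp (Fin 2)).measurable.comp h1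

/-- the square `Q1` as a set of functions -/
def Q0 : Set (Fin 2 → ℝ) := {x | ∀ i, x i ∈ Ico (0 : ℝ) 1}

theorem ae_eq : Q0 =ᵐ[volume] K := by
  have h1 : Q0 = univ.pi fun i => Ico ((0 : Fin 2 → ℝ) i) ((1 : Fin 2 → ℝ) i) := by
    ext x
    simp [Q0]
  have h2 : K = univ.pi fun i => Ioc ((0 : Fin 2 → ℝ) i) ((1 : Fin 2 → ℝ) i) := by
    ext x
    simp [K]
  rw [h1, h2]
  exact (Measure.univ_pi_Ico_ae_eq_Icc (μ := fun _ => (volume : Measure ℝ))).trans
    (Measure.univ_pi_Ioc_ae_eq_Icc (μ := fun _ => (volume : Measure ℝ))).symm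

theorem lint (F : E 2 → ℝ≥0∞) : ∫⁻ x in Q1, F x = ∫⁻ t : T2, F (rep t) := by
  have h1 : ∫⁻ x in Q1, F x = ∫⁻ y in Q0, F (WithLp.toLp 2 y) := by
    have h2 := (PiLp.volume_preserving_toLp (Fin 2)).setLIntegral_comp_preimage_emb
      (MeasurableEquiv.toLp 2 (Fin 2 → ℝ)).measurableEmbedding F Q1
    rw [← h2]
    rfl
  rw [h1, setLIntegral_congr ae_eq, UnitAddTorus.lintegral_preimage (fun t => F (rep t)) 0]
  refine setLIntegral_congr_fun meas_K fun y hy => ?_
  simp only
  rw [rep_coe hy]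

theorem bint (F : E 2 → ℂ) : ∫ x in Q1, F x = ∫ t : T2, F (rep t) := by
  have h1 : ∫ x in Q1, F x = ∫ y in Q0, F (WithLp.toLp 2 y) := by
    have h2 := (PiLp.volume_preserving_toLp (Fin 2)).setIntegral_preimage_emb
      (MeasurableEquiv.toLp 2 (Fin 2 → ℝ)).measurableEmbedding F Q1
    rw [← h2]
    rfl
  rw [h1, setIntegral_congr_set ae_eq, UnitAddTorus.integral_preimage (fun t => F (rep t)) 0]
  refine setIntegral_congr_fun meas_K fun y hy => ?_
  simp only
  rw [rep_coe hy]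

theorem ex_rep (n : Fin 2 → ℤ) (t : T2) : ex (rep t) (lat n) = UnitAddTorus.mFourier n t := by
  have h1 : ∀ i, fourier (n i) (t i) =
      Complex.exp (2 * Real.pi * Complex.I * (n i) * ((AddCircle.equivIoc 1 0 (t i)).1 : ℝ)) := by
    intro i
    have h2 : t i = (((AddCircle.equivIoc 1 0 (t i)).1 : ℝ) : UnitAddCircle) :=
      AddCircle.coe_equivIoc.symm
    conv_lhs => rw [h2]
    rw [fourier_coe_apply]
    simp
  have h3 : UnitAddTorus.mFourier n t = ∏ i, fourier (n i) (t i) := rfl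
  rw [h3, Finset.prod_congr rfl fun i _ => h1 i, ← Complex.exp_sum, ex]
  congr 1
  rw [EuclideanSpace.inner_eq_star_dotProduct]
  simp only [rep, lat, dotProduct, Fin.sum_univ_two]
  simp
  ring

theorem sqn {α : Type*} [MeasurableSpace α] (μ : Measure α) (f : α → ℂ) :
    eLpNorm f 2 μ ^ 2 = ∫⁻ x, ‖f x‖ₑ ^ 2 ∂μ := by
  rw [eLpNorm_eq_lintegral_rpow_enorm_toReal (by norm_num) (by norm_num)]
  simp only [ENNReal.toReal_ofNat, ENNReal.rpow_ofNat]
  rw [← ENNReal.rpow_natCast, ← ENNReal.rpow_mul]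
  norm_num

theorem lat_neg (n : Fin 2 → ℤ) : lat (-n) = -lat n := by
  ext i
  simp [lat]

theorem dm_mono : Monotone dm := by
  intro m m' h n hn
  simp only [dm, Finset.mem_filter, Finset.mem_Icc] at hn ⊢
  have h' : (m : ℤ) ≤ m' := by exact_mod_cast h
  refine ⟨⟨fun i => ?_, fun i => ?_⟩, hn.2.trans h'⟩
  · have := hn.1.1 i
    simp only at this ⊢
    linarith
  · have := hn.1.2 i
    simp only at this ⊢
    linarith

theorem abs_le_sq (a : ℤ) : |a| ≤ a ^ 2 := by
  rcases eq_or_ne a 0 with rfl | h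
  · simp
  · have h1 : 1 ≤ |a| := Int.one_le_abs h
    rw [← sq_abs]
    nlinarith

theorem dm_ex (n : Fin 2 → ℤ) : ∃ m, n ∈ dm m := by
  refine ⟨(n 0 ^ 2 + n 1 ^ 2).toNat, ?_⟩
  have h0 : 0 ≤ n 0 ^ 2 + n 1 ^ 2 := by positivity
  simp only [dm, Finset.mem_filter, Finset.mem_Icc, Int.toNat_of_nonneg h0]
  have h1 := abs_le_sq (n 0)
  have h2 := abs_le_sq (n 1)
  have h3 := abs_le.1 h1
  have h4 := abs_le.1 h2
  have h5 := sq_nonneg (n 0)
  have h6 := sq_nonneg (n 1)
  refine ⟨⟨fun i => ?_, fun i => ?_⟩, le_rfl⟩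
  · fin_cases i
    · simp only [Fin.zero_eta]
      linarith [h3.1]
    · simp only [Fin.mk_one]
      linarith [h4.1]
  · fin_cases i
    · simp only [Fin.zero_eta]
      linarith [h3.2]
    · simp only [Fin.mk_one]
      linarith [h4.2]

end TOR_

attribute [local instance] TOR_.instHaar TOR_.instProb

open TOR_ in
theorem p_TOR : T_TOR := by
  intro f hf
  let g : T2 → ℂ := fun t => f (rep t)
  have hgm : Measurable g := hf.meas.comp rep_meas
  have hgn : ∫⁻ t, ‖g t‖ₑ ^ 2 = ∫⁻ x in Q1, ‖f x‖ₑ ^ 2 := (lint fun x => ‖f x‖ₑ ^ 2).symm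
  have hg : MemLp g 2 := by
    refine ⟨hgm.aestronglyMeasurable, ?_⟩
    have h1 := sqn volume g
    rw [hgn] at h1
    rw [lt_top_iff_ne_top]
    intro h2
    rw [h2] at h1
    exact hf.sq (h1.symm.trans (by simp))
  let gL : Lp ℂ 2 (volume : Measure T2) := hg.toLp g
  have hgL : (gL : T2 → ℂ) =ᵐ[volume] g := hg.coeFn_toLp
  have hcoef : ∀ n, UnitAddTorus.mFourierCoeff gL n = fc f n := by
    intro n
    unfold UnitAddTorus.mFourierCoeff fc
    rw [bint]
    refine integral_congr_ae ?_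
    filter_upwards [hgL] with t ht
    rw [ht, ← lat_neg, ex_rep, smul_eq_mul, mul_comm]
  refine ⟨?_, ?_⟩
  · have h1 := UnitAddTorus.hasSum_sq_mFourierCoeff gL
    simp only [hcoef] at h1
    have h2 : ∑' n, ‖fc f n‖ₑ ^ 2 = ENNReal.ofReal (∫ t, ‖gL t‖ ^ 2) := by
      rw [← h1.tsum_eq, ENNReal.ofReal_tsum_of_nonneg (fun n => sq_nonneg _) h1.summable]
      refine tsum_congr fun n => ?_
      rw [ENNReal.ofReal_pow (norm_nonneg _), ofReal_norm]
    have h3 : ENNReal.ofReal (∫ t, ‖gL t‖ ^ 2) = ∫⁻ t, ‖gL t‖ₑ ^ 2 := by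
      have h4 : MemLp (gL : T2 → ℂ) 2 := Lp.memLp gL
      rw [ofReal_integral_eq_lintegral_ofReal ((memLp_two_iff_integrable_sq_norm h4.1).1 h4)
        (Eventually.of_forall fun t => sq_nonneg _)]
      refine lintegral_congr fun t => ?_
      rw [ENNReal.ofReal_pow (norm_nonneg _), ofReal_norm]
    have h4 : ∫⁻ t, ‖gL t‖ₑ ^ 2 = ∫⁻ t, ‖g t‖ₑ ^ 2 := by
      refine lintegral_congr_ae ?_
      filter_upwards [hgL] with t ht
      rw [ht]
    rw [h2, h3, h4, hgn]
  · have h1 := UnitAddTorus.hasSum_mFourier_series_L2 gL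
    simp only [hcoef] at h1
    have h2 : Tendsto (fun m : ℕ => ∑ n ∈ dm m, fc f n • UnitAddTorus.mFourierLp 2 n) atTop
        (𝓝 gL) := h1.comp (tendsto_atTop_finset_of_monotone dm_mono dm_ex)
    have h3 : ∀ m : ℕ, ∫⁻ x in Q1, ‖f x - pm (fc f) m x‖ₑ ^ 2 =
        ‖gL - ∑ n ∈ dm m, fc f n • UnitAddTorus.mFourierLp 2 n‖ₑ ^ 2 := by
      intro m
      have h4 : ((∑ n ∈ dm m, fc f n • UnitAddTorus.mFourierLp 2 n :
          Lp ℂ 2 (volume : Measure T2)) : T2 → ℂ) =ᵐ[volume]
          fun t => ∑ n ∈ dm m, fc f n * UnitAddTorus.mFourier n t := by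
        have h5 : (∑ n ∈ dm m, fc f n • UnitAddTorus.mFourierLp 2 n :
            Lp ℂ 2 (volume : Measure T2)) = ContinuousMap.toLp (E := ℂ) 2 volume ℂ
            (∑ n ∈ dm m, fc f n • UnitAddTorus.mFourier n) := by
          rw [map_sum]
          simp only [map_smul]
        rw [h5]
        refine (ContinuousMap.coeFn_toLp _ _).trans (Eventually.of_forall fun t => ?_)
        simp
      rw [Lp.enorm_def, sqn, lint]
      refine lintegral_congr_ae ?_
      filter_upwards [hgL, h4, Lp.coeFn_sub gL (∑ n ∈ dm m, fc f n •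
        UnitAddTorus.mFourierLp 2 n)] with t ht1 ht2 ht3
      rw [ht3, Pi.sub_apply, ht1, ht2]
      simp only [pm, ex_rep]
      rfl
    simp only [h3]
    have h4 : Tendsto (fun m : ℕ => gL - ∑ n ∈ dm m, fc f n • UnitAddTorus.mFourierLp 2 n) atTop
        (𝓝 0) := by
      have := h2.const_sub gL
      rwa [sub_self] at this
    have h5 := h4.enorm
    rw [enorm_zero] at h5
    have h6 := (ENNReal.continuous_pow 2).tendsto 0
    have h7 := h6.comp h5
    simpa [Function.comp_def] using h7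

end Pool.Agent.CFS
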