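import Pool.Agent.CFS.P_BUMP
import Pool.Agent.CFS.P_FTL
import Pool.Agent.CFS.P_CUT
import Pool.Agent.CFS.P_PLN
import Pool.Agent.CFS.P_SEPR
import Pool.Agent.CFS.P_CELL
import Pool.Agent.CFS.P_MAXE
import Pool.Agent.CFS.P_PAR
import Pool.Agent.CFS.P_BLK
import Pool.Agent.CFS.P_AEQ
import Pool.Agent.CFS.P_CSM
import Pool.Agent.CFS.P_TOR
import Pool.Agent.CFS.P_LIM
import Pool.Agent.CFS.P_MAXF

set_option autoImplicit false

/-!
# CFS: circular partial sums of double Fourier series, assembly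

`T_SEP` is the theorem `MP_ee701d_an.LogLogSeparated` (`Pool.Agent.SEnd.fDSs`).
-/

namespace Pool.Agent.CFS

open MeasureTheory FourierTransform Set Filter Topology
open scoped ENNReal NNReal ComplexConjugate
open Pool.Agent.MBS (E ex S)

theorem fMAXE : T_MAXE :=
  p_MAXE p_BUMP p_FTL (p_CUT p_FTL) (p_PLN p_FTL) p_SEPR p_CELL

theorem fAEQ : T_AEQ := p_AEQ fMAXE p_PAR p_BLK p_CELL

/-- the maximal inequality for circular partial sums of double Fourier series -/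
theorem fMAXF (h : T_SEP) : ∃ C : ℝ≥0, ∀ (N : ℝ) (f : E 2 → ℂ), 1 ≤ N → Per f →
    ∫⁻ x in Q1, (⨆ R ∈ Ioc (0 : ℝ) N, ‖CS f R x‖ₑ) ^ 2 ≤
      C * ENNReal.ofReal (Real.log (3 + Real.log (3 + N)) ^ 12) * ∫⁻ x in Q1, ‖f x‖ₑ ^ 2 :=
  p_MAXF fMAXE p_TOR p_CSM h

/-- convergence almost everywhere of the circular partial sums of double Fourier series -/
theorem fLIM (h : T_SEP) : ∀ f : E 2 → ℂ, Per f →
    ∑' n, ‖fc f n‖ₑ ^ 2 * ENNReal.ofReal (Real.log (3 + Real.log (3 + ‖lat n‖)) ^ 12) ≠ ⊤ →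
    ∀ᵐ x : E 2, Tendsto (fun R : ℝ => CS f R x) atTop (𝓝 (f x)) :=
  p_LIM fAEQ p_TOR p_CSM p_CELL h

end Pool.Agent.CFS
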