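import Pool.Agent.CFS.Targets2
import Pool.Agent.CFS.P_AEQ

set_option autoImplicit false

/-!
# CFS part 2, target GTA: the almost everywhere statement by density
-/

namespace Pool.Agent.CFS

open MeasureTheory FourierTransform Set Filter Topology
open scoped ENNReal NNReal ComplexConjugate
open Pool.Agent.MBS (E ex S)

namespace GTA_

/-- the coefficients outside a disc -/
noncomputable def cut (a : (Fin 2 → ℤ) → ℂ) (N : ℕ) (n : Fin 2 → ℤ) : ℂ :=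
  if n ∈ dm N then 0 else a n

theorem pm_cut (a : (Fin 2 → ℤ) → ℂ) (N m : ℕ) (h : N ≤ m) (x : E 2) :
    pm (cut a N) m x = pm a m x - pm a N x := by
  have h1 := Finset.sum_sdiff (AEQ_.dm_mono h) (f := fun n => a n * ex x (lat n))
  have h2 := Finset.sum_sdiff (AEQ_.dm_mono h) (f := fun n => cut a N n * ex x (lat n))
  unfold pm
  rw [← h1, ← h2, add_sub_cancel_right]
  have h3 : ∑ n ∈ dm N, cut a N n * ex x (lat n) = 0 := by
    refine Finset.sum_eq_zero fun n hn => ?_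
    rw [cut, if_pos hn, zero_mul]
  rw [h3, add_zero]
  refine Finset.sum_congr rfl fun n hn => ?_
  rw [cut, if_neg (Finset.mem_sdiff.1 hn).2]

theorem one_le_log {t : ℝ} (ht : 3 ≤ t) : 1 ≤ Real.log t := by
  rw [Real.le_log_iff_exp_le (by linarith)]
  have := Real.exp_one_lt_d9
  linarith

theorem L_ge {t : ℝ} (ht : 0 ≤ t) : 1 ≤ Real.log (3 + Real.log (3 + t)) := by
  have := one_le_log (t := 3 + t) (by linarith)
  exact one_le_log (by linarith)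

theorem L_mono {s t : ℝ} (hs : 0 ≤ s) (h : s ≤ t) :
    Real.log (3 + Real.log (3 + s)) ≤ Real.log (3 + Real.log (3 + t)) := by
  have h1 := one_le_log (t := 3 + s) (by linarith)
  have h2 : Real.log (3 + s) ≤ Real.log (3 + t) := Real.log_le_log (by linarith) (by linarith)
  exact Real.log_le_log (by linarith) (by linarith)

theorem lt_mono {α s t : ℝ} (hα : 0 ≤ α) (hs : 0 ≤ s) (h : s ≤ t) : lt α s ≤ lt α t := by
  unfold lt
  refine ENNReal.ofReal_le_ofReal (Real.rpow_le_rpow ?_ (L_mono hs h) hα)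
  linarith [L_ge hs]

theorem lt_pos {α t : ℝ} (ht : 0 ≤ t) : lt α t ≠ 0 := by
  unfold lt
  have := Real.rpow_pos_of_pos (lt_of_lt_of_le one_pos (L_ge ht)) α
  simpa using this

theorem lt_top {α t : ℝ} : lt α t ≠ ⊤ := ENNReal.ofReal_ne_top

theorem one_le_lt {α t : ℝ} (hα : 0 ≤ α) (ht : 0 ≤ t) : 1 ≤ lt α t := by
  unfold lt
  rw [ENNReal.one_le_ofReal]
  exact Real.one_le_rpow (L_ge ht) hα

theorem tail (g : (Fin 2 → ℤ) → ℝ≥0∞) (hg : ∑' n, g n ≠ ⊤) :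
    Tendsto (fun N : ℕ => ∑' n, if n ∈ dm N then 0 else g n) atTop (𝓝 0) := by
  have h1 : Tendsto dm atTop atTop := by
    refine Filter.tendsto_atTop_finset_of_monotone (fun a b h => AEQ_.dm_mono h) fun n => ?_
    refine ⟨(n 0 ^ 2 + n 1 ^ 2).toNat, ?_⟩
    rw [AEQ_.mem_dm, Int.toNat_of_nonneg (by positivity)]
  have h2 := (ENNReal.tendsto_tsum_compl_atTop_zero hg).comp h1
  refine h2.congr fun N => ?_
  simp only [Function.comp]
  have h3 := tsum_subtype {n : Fin 2 → ℤ | n ∉ dm N} g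
  refine Eq.trans h3 ?_
  refine tsum_congr fun n => ?_
  by_cases hn : n ∈ dm N
  · rw [if_pos hn, Set.indicator_of_notMem]
    simpa using hn
  · rw [if_neg hn, Set.indicator_of_mem]
    simpa using hn

/-- the pointwise step -/
theorem step (α δ : ℝ) (hα : 0 ≤ α) (hδ : 0 ≤ δ) (f : E 2 → ℂ) (x : E 2) (N : ℕ)
    (h3 : T_CSM)
    (h : (⨆ m : ℕ, ‖pm (cut (fc f) N) m x‖ₑ ^ 2 / lt α (Real.sqrt m)) +
      ‖f x - pm (fc f) N x‖ₑ ^ 2 ≤ ENNReal.ofReal δ)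
    (R : ℝ) (hR : 0 ≤ R) (hN : (N : ℝ) ≤ R ^ 2) :
    ‖CS f R x - f x‖ ^ 2 ≤ 2 * δ * Real.log (3 + Real.log (3 + R)) ^ α := by
  have hm : N ≤ ⌊R ^ 2⌋₊ := Nat.le_floor hN
  have e1 := h3.2 f R x hR
  have e2 := pm_cut (fc f) N ⌊R ^ 2⌋₊ hm x
  set m := ⌊R ^ 2⌋₊ with hmdef
  have hs : Real.sqrt m ≤ R := by
    rw [Real.sqrt_le_left hR]
    exact Nat.floor_le (by positivity)
  have h5 : ‖pm (cut (fc f) N) m x‖ₑ ^ 2 / lt α (Real.sqrt m) ≤
      ⨆ m : ℕ, ‖pm (cut (fc f) N) m x‖ₑ ^ 2 / lt α (Real.sqrt m) :=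
    le_iSup (fun m : ℕ => ‖pm (cut (fc f) N) m x‖ₑ ^ 2 / lt α (Real.sqrt m)) m
  have h6 : ‖pm (cut (fc f) N) m x‖ₑ ^ 2 ≤
      (⨆ m : ℕ, ‖pm (cut (fc f) N) m x‖ₑ ^ 2 / lt α (Real.sqrt m)) * lt α R := by
    rw [ENNReal.div_le_iff (lt_pos (Real.sqrt_nonneg _)) lt_top] at h5
    exact h5.trans (mul_le_mul_right (lt_mono hα (Real.sqrt_nonneg _) hs) _)
  have h7 : ‖f x - pm (fc f) N x‖ₑ ^ 2 ≤ ‖f x - pm (fc f) N x‖ₑ ^ 2 * lt α R := by
    calc ‖f x - pm (fc f) N x‖ₑ ^ 2 = ‖f x - pm (fc f) N x‖ₑ ^ 2 * 1 := (mul_one _).symm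
      _ ≤ _ := mul_le_mul_right (one_le_lt hα hR) _
  have h8 : ‖pm (cut (fc f) N) m x‖ₑ ^ 2 + ‖f x - pm (fc f) N x‖ₑ ^ 2 ≤
      ENNReal.ofReal δ * lt α R := by
    refine (add_le_add h6 h7).trans ?_
    rw [← add_mul]
    exact mul_le_mul_left h _
  have hL := L_ge hR
  have hLα : 0 ≤ Real.log (3 + Real.log (3 + R)) ^ α := Real.rpow_nonneg (by linarith) _
  unfold lt at h8
  rw [← ENNReal.ofReal_mul hδ, ← ofReal_norm, ← ofReal_norm,
    ← ENNReal.ofReal_pow (norm_nonneg _), ← ENNReal.ofReal_pow (norm_nonneg _),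
    ← ENNReal.ofReal_add (by positivity) (by positivity),
    ENNReal.ofReal_le_ofReal_iff (mul_nonneg hδ hLα), e2] at h8
  rw [e1]
  have h9 : ‖pm (fc f) m x - f x‖ ≤
      ‖pm (fc f) m x - pm (fc f) N x‖ + ‖f x - pm (fc f) N x‖ := by
    rw [← norm_neg (f x - pm (fc f) N x), neg_sub]
    exact norm_sub_le_norm_sub_add_norm_sub _ _ _
  have h10 : ‖pm (fc f) m x - f x‖ ^ 2 ≤
      (‖pm (fc f) m x - pm (fc f) N x‖ + ‖f x - pm (fc f) N x‖) ^ 2 :=
    pow_le_pow_left₀ (norm_nonneg _) h9 2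
  nlinarith [sq_nonneg (‖pm (fc f) m x - pm (fc f) N x‖ - ‖f x - pm (fc f) N x‖)]

end GTA_

open GTA_ in
/-- GTA. -/
theorem p_GTA (h1 : T_GTM) (h2 : T_TOR) (h3 : T_CSM) (h4 : T_CELL) : T_GTA := by
  intro hsep α f hα hα' hf hfin
  obtain ⟨C, hC⟩ := h1 hsep
  obtain ⟨-, hcell, hper, hQm, -⟩ := h4
  obtain ⟨-, htor⟩ := h2 f hf
  have htail := tail (fun n => ‖fc f n‖ₑ ^ 2 * lt (12 - α) ‖lat n‖) hfin
  obtain ⟨ε, hε, hεs⟩ := ENNReal.exists_pos_sum_of_countable (ε := 1) one_ne_zero ℕ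
  have hex : ∀ k : ℕ, ∃ N : ℕ,
      (∑' n, if n ∈ dm N then 0 else ‖fc f n‖ₑ ^ 2 * lt (12 - α) ‖lat n‖) ≤ ε k ∧
      ∫⁻ x in Q1, ‖f x - pm (fc f) N x‖ₑ ^ 2 ≤ ε k := by
    intro k
    have hk : (0 : ℝ≥0∞) < ε k := by exact_mod_cast hε k
    exact ((htail.eventually (ge_mem_nhds hk)).and (htor.eventually (ge_mem_nhds hk))).exists
  choose N hN1 hN2 using hex
  have hDm : ∀ k : ℕ, Measurable fun x : E 2 =>
      ⨆ m : ℕ, ‖pm (cut (fc f) (N k)) m x‖ₑ ^ 2 / lt α (Real.sqrt m) := fun k =>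
    Measurable.iSup fun m =>
      ((AEQ_.pm_cont (cut (fc f) (N k)) m).measurable.enorm.pow_const 2).div_const _
  have hGm : ∀ k : ℕ, Measurable fun x : E 2 => ‖f x - pm (fc f) (N k) x‖ₑ ^ 2 := fun k =>
    (hf.meas.sub (AEQ_.pm_cont (fc f) (N k)).measurable).enorm.pow_const 2
  have hD : ∀ k : ℕ, ∫⁻ x in Q1,
      (⨆ m : ℕ, ‖pm (cut (fc f) (N k)) m x‖ₑ ^ 2 / lt α (Real.sqrt m)) ≤ C * ε k := by
    intro k
    refine (hC α (cut (fc f) (N k)) hα hα').trans (mul_le_mul_right ?_ _)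
    refine le_trans (le_of_eq (tsum_congr fun n => ?_)) (hN1 k)
    unfold cut
    split_ifs with hn
    · simp
    · rfl
  have hae : ∀ᵐ x ∂(volume.restrict Q1), ∑' k : ℕ,
      ((⨆ m : ℕ, ‖pm (cut (fc f) (N k)) m x‖ₑ ^ 2 / lt α (Real.sqrt m)) +
        ‖f x - pm (fc f) (N k) x‖ₑ ^ 2) < ⊤ := by
    have hSm : ∀ k : ℕ, Measurable fun x : E 2 =>
        ((⨆ m : ℕ, ‖pm (cut (fc f) (N k)) m x‖ₑ ^ 2 / lt α (Real.sqrt m)) +
        ‖f x - pm (fc f) (N k) x‖ₑ ^ 2) := fun k => (hDm k).add (hGm k)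
    refine ae_lt_top (Measurable.tsum hSm) ?_
    rw [lintegral_tsum fun k => (hSm k).aemeasurable]
    have hb : ∀ k : ℕ, ∫⁻ x in Q1,
        ((⨆ m : ℕ, ‖pm (cut (fc f) (N k)) m x‖ₑ ^ 2 / lt α (Real.sqrt m)) +
        ‖f x - pm (fc f) (N k) x‖ₑ ^ 2) ≤ (C + 1) * ε k := by
      intro k
      rw [lintegral_add_left (hDm k), add_mul, one_mul]
      exact add_le_add (hD k) (hN2 k)
    refine ne_top_of_le_ne_top ?_ (ENNReal.tsum_le_tsum hb)
    rw [ENNReal.tsum_mul_left]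
    exact ENNReal.mul_ne_top (by simp) (hεs.trans ENNReal.one_lt_top).ne
  refine hcell _ ?_ ?_
  · filter_upwards [hae] with x hx
    have h0 := ENNReal.tendsto_atTop_zero_of_tsum_ne_top hx.ne
    rw [Metric.tendsto_atTop]
    intro e he
    have hδ : (0 : ℝ≥0∞) < ENNReal.ofReal (e ^ 2 / 4) := ENNReal.ofReal_pos.2 (by positivity)
    obtain ⟨k, hk⟩ := (h0.eventually (ge_mem_nhds hδ)).exists
    refine ⟨max 1 (N k : ℝ), fun R hR => ?_⟩
    have hR1 : 1 ≤ R := (le_max_left _ _).trans hR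
    have hR2 : (N k : ℝ) ≤ R := (le_max_right _ _).trans hR
    have hR3 : (N k : ℝ) ≤ R ^ 2 := by nlinarith
    have h5 := step α (e ^ 2 / 4) hα (by positivity) f x (N k) h3 hk R (by linarith) hR3
    have hL := L_ge (t := R) (by linarith)
    have hLp : 0 < Real.log (3 + Real.log (3 + R)) := by linarith
    have hLα : 0 < Real.log (3 + Real.log (3 + R)) ^ (α / 2) := Real.rpow_pos_of_pos hLp _
    have hsq : (Real.log (3 + Real.log (3 + R)) ^ (α / 2)) ^ 2 =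
        Real.log (3 + Real.log (3 + R)) ^ α := by
      rw [← Real.rpow_natCast, ← Real.rpow_mul hLp.le]
      congr 1
      push_cast
      ring
    rw [Real.dist_eq, sub_zero, abs_of_nonneg (div_nonneg (norm_nonneg _) hLα.le),
      div_lt_iff₀ hLα]
    refine lt_of_pow_lt_pow_left₀ 2 (by positivity) ?_
    rw [mul_pow, hsq]
    rw [← hsq] at h5 ⊢
    have : 0 < e ^ 2 * (Real.log (3 + Real.log (3 + R)) ^ (α / 2)) ^ 2 := by positivity
    nlinarith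
  · intro x k hx
    have e : ∀ R, CS f R (x + lat k) = CS f R x := by
      intro R
      unfold CS
      refine finsum_congr fun n => ?_
      rw [hper]
    simp only [e, hf.per]
    exact hx

end Pool.Agent.CFS
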