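import Pool.Agent.CFS.Targets2

set_option autoImplicit false

/-!
# CFS: GTF, the two-parameter maximal inequality for functions and real radii
-/

namespace Pool.Agent.CFS

open MeasureTheory FourierTransform Set Filter Topology
open scoped ENNReal NNReal ComplexConjugate
open Pool.Agent.MBS (E ex S)

namespace GTF_

theorem lt_mono {α a b : ℝ} (hα : 0 ≤ α) (ha : 0 ≤ a) (hab : a ≤ b) : lt α a ≤ lt α b := by
  have h1 : 0 ≤ Real.log (3 + a) := Real.log_nonneg (by linarith)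
  have h2 : Real.log (3 + a) ≤ Real.log (3 + b) := Real.log_le_log (by linarith) (by linarith)
  have h3 : 0 ≤ Real.log (3 + Real.log (3 + a)) := Real.log_nonneg (by linarith)
  have h4 : Real.log (3 + Real.log (3 + a)) ≤ Real.log (3 + Real.log (3 + b)) :=
    Real.log_le_log (by linarith) (by linarith)
  unfold lt
  exact ENNReal.ofReal_le_ofReal (Real.rpow_le_rpow h3 h4 hα)

theorem sqrt_floor {R : ℝ} (hR : 0 ≤ R) : Real.sqrt ((⌊R ^ 2⌋₊ : ℕ) : ℝ) ≤ R := by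
  calc Real.sqrt ((⌊R ^ 2⌋₊ : ℕ) : ℝ) ≤ Real.sqrt (R ^ 2) :=
        Real.sqrt_le_sqrt (Nat.floor_le (sq_nonneg R))
    _ = R := Real.sqrt_sq hR

end GTF_

theorem p_GTF (h1 : T_GTM) (h2 : T_CSM) : T_GTF := by
  intro hS
  obtain ⟨C, hC⟩ := h1 hS
  refine ⟨C, fun α f hα hα' _ => ?_⟩
  refine le_trans (lintegral_mono fun x => ?_) (hC α (fc f) hα hα')
  refine iSup₂_le fun R hR => ?_
  rw [h2.2 f R x hR.le]
  refine le_trans ?_ (le_iSup (fun m : ℕ => ‖pm (fc f) m x‖ₑ ^ 2 / lt α (Real.sqrt m))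
    ⌊R ^ 2⌋₊)
  exact ENNReal.div_le_div_left
    (GTF_.lt_mono hα (Real.sqrt_nonneg _) (GTF_.sqrt_floor hR.le)) _

end Pool.Agent.CFS
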