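import Pool.Agent.CFS.Targets2
import Pool.Agent.CFS.P_AEQ
import Pool.Agent.CFS.P_CELL

set_option autoImplicit false

/-!
# CFS, target GTM: the maximal inequality with two weights
-/

namespace Pool.Agent.CFS

open MeasureTheory FourierTransform Set Filter Topology
open scoped ENNReal NNReal ComplexConjugate
open Pool.Agent.MBS (E ex S)

namespace GTM_

open AEQ_

/-- the real weight -/
noncomputable def Lr (d : ℝ) : ℝ := Real.log (3 + Real.log (3 + d))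

theorem lt_eq (α d : ℝ) : lt α d = ENNReal.ofReal (Lr d ^ α) := rfl

theorem lr_ge {d : ℝ} (h : 0 ≤ d) : 1 ≤ Lr d := by
  have h1 : 0 ≤ Real.log (3 + d) := Real.log_nonneg (by linarith)
  rw [Lr, Real.le_log_iff_exp_le (by linarith)]
  have := Real.exp_one_lt_d9
  linarith

theorem lr_pos {d : ℝ} (h : 0 ≤ d) : 0 < Lr d := by linarith [lr_ge h]

theorem lr_mono {d d' : ℝ} (h : 0 ≤ d) (h' : d ≤ d') : Lr d ≤ Lr d' := by
  have h1 : 0 ≤ Real.log (3 + d) := Real.log_nonneg (by linarith)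
  have h2 : Real.log (3 + d) ≤ Real.log (3 + d') := Real.log_le_log (by linarith) (by linarith)
  exact Real.log_le_log (by linarith) (by linarith)

theorem lt_mono {α d d' : ℝ} (hα : 0 ≤ α) (h : 0 ≤ d) (h' : d ≤ d') : lt α d ≤ lt α d' := by
  rw [lt_eq, lt_eq]
  exact ENNReal.ofReal_le_ofReal (Real.rpow_le_rpow (lr_pos h).le (lr_mono h h') hα)

theorem one_le_lt {α d : ℝ} (hα : 0 ≤ α) (h : 0 ≤ d) : 1 ≤ lt α d := by
  rw [lt_eq, ← ENNReal.ofReal_one]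
  exact ENNReal.ofReal_le_ofReal (Real.one_le_rpow (lr_ge h) hα)

theorem lt_ne_zero {α d : ℝ} (hα : 0 ≤ α) (h : 0 ≤ d) : lt α d ≠ 0 :=
  (lt_of_lt_of_le zero_lt_one (one_le_lt hα h)).ne'

theorem lt_ne_top (α d : ℝ) : lt α d ≠ ⊤ := ENNReal.ofReal_ne_top

theorem lt_mul (α : ℝ) {d : ℝ} (h : 0 ≤ d) : lt α d * lt (12 - α) d = wl d := by
  have h1 : 0 < Lr d := lr_pos h
  rw [lt_eq, lt_eq, ← ENNReal.ofReal_mul (by positivity), ← Real.rpow_add h1,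
    show α + (12 - α) = ((12 : ℕ) : ℝ) by push_cast; ring, Real.rpow_natCast]
  rfl

/-- the points `2 ^ 2 ^ k` -/
noncomputable def r (k : ℕ) : ℝ := 2 ^ (2 ^ k)

theorem r_pos (k : ℕ) : 0 ≤ r k := by
  unfold r
  positivity

theorem r_mono {j k : ℕ} (h : j ≤ k) : r j ≤ r k := by
  unfold r
  exact pow_le_pow_right₀ (by norm_num) (Nat.pow_le_pow_right (by norm_num) h)

/-- the constant -/
noncomputable def C0 : ℝ := 16 * ∑' j : ℕ, (((j : ℝ) + 1) ^ 2)⁻¹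

theorem summ : Summable fun k : ℕ => (((k : ℝ) + 1) ^ 2)⁻¹ := by
  have h4 : Summable fun k : ℕ => ((k : ℝ) ^ 2)⁻¹ := by
    simp
  have h5 := (summable_nat_add_iff 1).2 h4
  refine h5.congr fun k => ?_
  push_cast
  rfl

theorem C0_nonneg : 0 ≤ C0 := by
  unfold C0
  have : 0 ≤ ∑' j : ℕ, (((j : ℝ) + 1) ^ 2)⁻¹ := tsum_nonneg fun j => by positivity
  positivity

theorem sum_le (h3 : T_BLK) (k : ℕ) : ∑ j ∈ Finset.range k, (Lr (r j) ^ 12)⁻¹ ≤ C0 := by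
  have h1 : ∀ j : ℕ, (Lr (r j) ^ 12)⁻¹ ≤ 16 * (((j : ℝ) + 1) ^ 2)⁻¹ := by
    intro j
    have h4 : (j : ℝ) + 1 ≤ 4 * Lr (r j) := (h3 j (r j) le_rfl).2.2
    have h5 := lr_ge (r_pos j)
    have hj : (0 : ℝ) < (j : ℝ) + 1 := by positivity
    have h6 : ((j : ℝ) + 1) ^ 2 ≤ 16 * Lr (r j) ^ 12 := by
      have e2 : ((j : ℝ) + 1) ^ 2 ≤ (4 * Lr (r j)) ^ 2 := pow_le_pow_left₀ hj.le h4 2
      have e3 : Lr (r j) ^ 2 ≤ Lr (r j) ^ 12 := pow_le_pow_right₀ h5 (by norm_num)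
      nlinarith
    have h7 : (0 : ℝ) < Lr (r j) ^ 12 := by positivity
    rw [← div_eq_mul_inv, inv_eq_one_div, div_le_div_iff₀ h7 (by positivity)]
    linarith
  calc ∑ j ∈ Finset.range k, (Lr (r j) ^ 12)⁻¹
      ≤ ∑ j ∈ Finset.range k, 16 * (((j : ℝ) + 1) ^ 2)⁻¹ := Finset.sum_le_sum fun j _ => h1 j
    _ = 16 * ∑ j ∈ Finset.range k, (((j : ℝ) + 1) ^ 2)⁻¹ := by rw [Finset.mul_sum]
    _ ≤ 16 * ∑' j : ℕ, (((j : ℝ) + 1) ^ 2)⁻¹ := by
        refine mul_le_mul_of_nonneg_left ?_ (by norm_num)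
        exact summ.sum_le_tsum _ fun j _ => by positivity

theorem mid (h3 : T_BLK) (k : ℕ) {α : ℝ} (hα : 0 ≤ α) (b : ℕ → ℂ) :
    ‖∑ j ∈ Finset.range k, b j‖ ^ 2 ≤ C0 * Lr (r k) ^ α *
      ∑ j ∈ Finset.range k, Lr (r j) ^ (12 - α) * ‖b j‖ ^ 2 := by
  have h1 : ‖∑ j ∈ Finset.range k, b j‖ ^ 2 ≤ (∑ j ∈ Finset.range k, ‖b j‖) ^ 2 :=
    pow_le_pow_left₀ (norm_nonneg _) (norm_sum_le _ _) 2
  have h2 : (∑ j ∈ Finset.range k, ‖b j‖) ^ 2 ≤ (∑ j ∈ Finset.range k, Lr (r j) ^ (α - 12)) *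
      ∑ j ∈ Finset.range k, Lr (r j) ^ (12 - α) * ‖b j‖ ^ 2 := by
    refine Finset.sum_sq_le_sum_mul_sum_of_sq_le_mul _ (fun j _ => ?_) (fun j _ => ?_)
      fun j _ => ?_
    · exact Real.rpow_nonneg (lr_pos (r_pos j)).le _
    · exact mul_nonneg (Real.rpow_nonneg (lr_pos (r_pos j)).le _) (by positivity)
    · refine le_of_eq ?_
      rw [← mul_assoc, ← Real.rpow_add (lr_pos (r_pos j)), sub_add_sub_cancel, sub_self,
        Real.rpow_zero, one_mul]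
  have h4 : ∑ j ∈ Finset.range k, Lr (r j) ^ (α - 12) ≤ C0 * Lr (r k) ^ α := by
    have h5 : ∀ j ∈ Finset.range k, Lr (r j) ^ (α - 12) ≤ (Lr (r j) ^ 12)⁻¹ * Lr (r k) ^ α := by
      intro j hj
      have hp := lr_pos (r_pos j)
      have e1 : Lr (r j) ^ (α - 12) = (Lr (r j) ^ 12)⁻¹ * Lr (r j) ^ α := by
        rw [sub_eq_add_neg, Real.rpow_add hp, Real.rpow_neg hp.le,
          show (12 : ℝ) = ((12 : ℕ) : ℝ) by norm_num, Real.rpow_natCast, mul_comm]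
      rw [e1]
      refine mul_le_mul_of_nonneg_left ?_ (by positivity)
      exact Real.rpow_le_rpow hp.le
        (lr_mono (r_pos j) (r_mono (Finset.mem_range.1 hj).le)) hα
    refine (Finset.sum_le_sum h5).trans ?_
    rw [← Finset.sum_mul]
    exact mul_le_mul_of_nonneg_right (sum_le h3 k) (Real.rpow_nonneg (lr_pos (r_pos k)).le _)
  refine h1.trans (h2.trans (mul_le_mul_of_nonneg_right h4 ?_))
  exact Finset.sum_nonneg fun j _ =>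
    mul_nonneg (Real.rpow_nonneg (lr_pos (r_pos j)).le _) (by positivity)

theorem en_sq (z : ℂ) : ‖z‖ₑ ^ 2 = ENNReal.ofReal (‖z‖ ^ 2) := by
  rw [ENNReal.ofReal_pow (norm_nonneg _), ofReal_norm]

theorem mid' (h3 : T_BLK) (k : ℕ) {α : ℝ} (hα : 0 ≤ α) (b : ℕ → ℂ) :
    ‖∑ j ∈ Finset.range k, b j‖ₑ ^ 2 / lt α (r k) ≤
      ENNReal.ofReal C0 * ∑' j : ℕ, lt (12 - α) (r j) * ‖b j‖ₑ ^ 2 := by
  refine ENNReal.div_le_of_le_mul ?_
  have h1 := ENNReal.ofReal_le_ofReal (mid h3 k hα b)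
  rw [← en_sq] at h1
  refine h1.trans ?_
  rw [ENNReal.ofReal_mul (mul_nonneg C0_nonneg (Real.rpow_nonneg (lr_pos (r_pos k)).le _)),
    ENNReal.ofReal_mul C0_nonneg, ← lt_eq, mul_assoc, mul_assoc]
  refine mul_le_mul_right ?_ _
  rw [mul_comm]
  refine mul_le_mul_left ?_ _
  rw [ENNReal.ofReal_sum_of_nonneg fun j _ =>
    mul_nonneg (Real.rpow_nonneg (lr_pos (r_pos j)).le _) (by positivity)]
  calc ∑ j ∈ Finset.range k, ENNReal.ofReal (Lr (r j) ^ (12 - α) * ‖b j‖ ^ 2)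
      = ∑ j ∈ Finset.range k, lt (12 - α) (r j) * ‖b j‖ₑ ^ 2 := by
        refine Finset.sum_congr rfl fun j _ => ?_
        rw [ENNReal.ofReal_mul (Real.rpow_nonneg (lr_pos (r_pos j)).le _), ← lt_eq, en_sq]
    _ ≤ _ := ENNReal.sum_le_tsum _

theorem three_sq (x y z : ℂ) : ‖x + y + z‖ₑ ^ 2 ≤ 3 * (‖x‖ₑ ^ 2 + ‖y‖ₑ ^ 2 + ‖z‖ₑ ^ 2) := by
  rw [en_sq, en_sq, en_sq, en_sq, ← ENNReal.ofReal_add (by positivity) (by positivity),
    ← ENNReal.ofReal_add (by positivity) (by positivity),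
    show (3 : ℝ≥0∞) = ENNReal.ofReal 3 by norm_num, ← ENNReal.ofReal_mul (by norm_num)]
  refine ENNReal.ofReal_le_ofReal ?_
  have h1 : ‖x + y + z‖ ≤ ‖x‖ + ‖y‖ + ‖z‖ :=
    (norm_add_le _ _).trans (by linarith [norm_add_le x y])
  have h2 : ‖x + y + z‖ ^ 2 ≤ (‖x‖ + ‖y‖ + ‖z‖) ^ 2 := pow_le_pow_left₀ (norm_nonneg _) h1 2
  nlinarith [sq_nonneg (‖x‖ - ‖y‖), sq_nonneg (‖x‖ - ‖z‖), sq_nonneg (‖y‖ - ‖z‖)]

theorem ptw (h3 : T_BLK) {α : ℝ} (hα : 0 ≤ α) (p : ℕ → ℂ) (q : ℕ → ℝ≥0∞) (D : ℝ≥0∞)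
    (hq : ∀ k m, M k ≤ m → m ≤ M (k + 1) → ‖p m - p (M k)‖ₑ ≤ q k)
    (hD : ∀ m ≤ M 0, ‖p m‖ₑ ^ 2 ≤ D) (m : ℕ) :
    ‖p m‖ₑ ^ 2 / lt α (Real.sqrt m) ≤ 3 * (D +
      ENNReal.ofReal C0 * (∑' j : ℕ, lt (12 - α) (r j) * ‖p (M (j + 1)) - p (M j)‖ₑ ^ 2) +
      ∑' k : ℕ, q k ^ 2 / lt α (r k)) := by
  rcases le_total m (M 0) with hm | hm
  · calc ‖p m‖ₑ ^ 2 / lt α (Real.sqrt m) ≤ ‖p m‖ₑ ^ 2 / 1 :=
          ENNReal.div_le_div_left (one_le_lt hα (Real.sqrt_nonneg _)) _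
      _ = ‖p m‖ₑ ^ 2 := by rw [div_one]
      _ ≤ D := hD m hm
      _ ≤ D + _ := le_self_add
      _ ≤ D + _ + _ := le_self_add
      _ = 1 * _ := (one_mul _).symm
      _ ≤ _ := mul_le_mul_left (by norm_num) _
  · obtain ⟨k, -, hk1, hk2⟩ := exists_block 0 m hm
    have hr : r k ≤ Real.sqrt m := by
      refine Real.le_sqrt_of_sq_le ?_
      have h1 : ((M k : ℕ) : ℝ) ≤ m := by exact_mod_cast hk1
      unfold M at h1
      push_cast at h1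
      exact h1
    have hsum : p m = p (M 0) + (∑ j ∈ Finset.range k, (p (M (j + 1)) - p (M j))) +
        (p m - p (M k)) := by
      rw [Finset.sum_range_sub (fun j => p (M j)) k]
      ring
    calc ‖p m‖ₑ ^ 2 / lt α (Real.sqrt m) ≤ ‖p m‖ₑ ^ 2 / lt α (r k) :=
          ENNReal.div_le_div_left (lt_mono hα (r_pos k) hr) _
      _ ≤ 3 * (‖p (M 0)‖ₑ ^ 2 + ‖∑ j ∈ Finset.range k, (p (M (j + 1)) - p (M j))‖ₑ ^ 2 +
            ‖p m - p (M k)‖ₑ ^ 2) / lt α (r k) := by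
          refine ENNReal.div_le_div_right ?_ _
          have h2 := three_sq (p (M 0)) (∑ j ∈ Finset.range k, (p (M (j + 1)) - p (M j)))
            (p m - p (M k))
          rw [← hsum] at h2
          exact h2
      _ = 3 * (‖p (M 0)‖ₑ ^ 2 / lt α (r k) +
            ‖∑ j ∈ Finset.range k, (p (M (j + 1)) - p (M j))‖ₑ ^ 2 / lt α (r k) +
            ‖p m - p (M k)‖ₑ ^ 2 / lt α (r k)) := by
          rw [mul_div_assoc, ENNReal.add_div, ENNReal.add_div]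
      _ ≤ _ := by
          refine mul_le_mul_right (add_le_add (add_le_add ?_ ?_) ?_) _
          · calc ‖p (M 0)‖ₑ ^ 2 / lt α (r k) ≤ ‖p (M 0)‖ₑ ^ 2 / 1 :=
                  ENNReal.div_le_div_left (one_le_lt hα (r_pos k)) _
              _ = ‖p (M 0)‖ₑ ^ 2 := by rw [div_one]
              _ ≤ D := hD _ le_rfl
          · exact mid' h3 k hα fun j => p (M (j + 1)) - p (M j)
          · calc ‖p m - p (M k)‖ₑ ^ 2 / lt α (r k) ≤ q k ^ 2 / lt α (r k) := by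
                  refine ENNReal.div_le_div_right ?_ _
                  exact pow_le_pow_left' (hq k m hk1 hk2) 2
              _ ≤ _ := ENNReal.le_tsum k

theorem norm_ex (x ξ : E 2) : ‖ex x ξ‖ₑ = 1 := by
  have h1 : ‖ex x ξ‖ = 1 := by
    unfold ex
    have h : (2 * Real.pi * Complex.I * ((inner ℝ x ξ : ℝ) : ℂ) : ℂ) =
        ((2 * Real.pi * inner ℝ x ξ : ℝ) : ℂ) * Complex.I := by
      push_cast
      ring
    rw [h, Complex.norm_exp_ofReal_mul_I]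
  rw [← ofReal_norm, h1, ENNReal.ofReal_one]

theorem small (a : (Fin 2 → ℤ) → ℂ) (m : ℕ) (hm : m ≤ M 0) (x : E 2) :
    ‖pm a m x‖ₑ ^ 2 ≤ ((dm (M 0)).card : ℝ≥0∞) * ∑ n ∈ dm (M 0), ‖a n‖ₑ ^ 2 := by
  have h1 : ‖pm a m x‖₊ ≤ ∑ n ∈ dm (M 0), ‖a n‖₊ := by
    unfold pm
    refine (nnnorm_sum_le _ _).trans ?_
    calc ∑ n ∈ dm m, ‖a n * ex x (lat n)‖₊ = ∑ n ∈ dm m, ‖a n‖₊ := by
          refine Finset.sum_congr rfl fun n _ => ?_
          have h2 : ‖ex x (lat n)‖₊ = 1 := by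
            have := norm_ex x (lat n)
            rw [enorm_eq_nnnorm] at this
            exact_mod_cast this
          rw [nnnorm_mul, h2, mul_one]
      _ ≤ ∑ n ∈ dm (M 0), ‖a n‖₊ := Finset.sum_le_sum_of_subset (dm_mono hm)
  have h2 : ‖pm a m x‖₊ ^ 2 ≤ ((dm (M 0)).card : ℝ≥0) * ∑ n ∈ dm (M 0), ‖a n‖₊ ^ 2 :=
    (pow_le_pow_left' h1 2).trans sq_sum_le_card_mul_sum_sq
  have h3 : ((‖pm a m x‖₊ ^ 2 : ℝ≥0) : ℝ≥0∞) ≤
      ((((dm (M 0)).card : ℝ≥0) * ∑ n ∈ dm (M 0), ‖a n‖₊ ^ 2 : ℝ≥0) : ℝ≥0∞) := by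
    exact_mod_cast h2
  push_cast at h3
  exact h3

end GTM_

open AEQ_ GTM_ in
/-- GTM. -/
theorem p_GTM (h1 : T_MAXE) (h2 : T_PAR) (h3 : T_BLK) (h4 : T_CSM) : T_GTM := by
  intro hsep
  have _ := h4
  obtain ⟨C, hC⟩ := h1 hsep
  refine ⟨3 * ((dm (M 0)).card + C0.toNNReal + C * 4096), fun α a hα hα' => ?_⟩
  have hβ : 0 ≤ 12 - α := by linarith
  set W : ℝ≥0∞ := ∑' n, ‖a n‖ₑ ^ 2 * lt (12 - α) ‖lat n‖ with hW
  set b : ℕ → E 2 → ℂ := fun k x => pm a (M (k + 1)) x - pm a (M k) x with hb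
  set q : ℕ → E 2 → ℝ≥0∞ := fun k x =>
    ⨆ (m : ℕ) (_ : m ≤ (2 ^ 2 ^ (k + 1)) ^ 2), ‖pm (cut a k) m x‖ₑ with hq
  set D : ℝ≥0∞ := ((dm (M 0)).card : ℝ≥0∞) * ∑ n ∈ dm (M 0), ‖a n‖ₑ ^ 2 with hD
  have hbc : ∀ k : ℕ, Continuous (b k) := fun k => (pm_cont a _).sub (pm_cont a _)
  have hbm : ∀ k : ℕ, Measurable fun x => lt (12 - α) (r k) * ‖b k x‖ₑ ^ 2 := by
    intro k
    exact ((hbc k).measurable.enorm.pow_const 2).const_mul _
  have hqm0 : ∀ k : ℕ, Measurable fun x => q k x ^ 2 := by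
    intro k
    refine Measurable.pow_const ?_ 2
    exact Measurable.iSup fun m => Measurable.iSup fun _ =>
      (pm_cont (cut a k) m).measurable.enorm
  have hqm : ∀ k : ℕ, Measurable fun x => q k x ^ 2 / lt α (r k) := by
    intro k
    exact (hqm0 k).div_const _
  have hBW : ∀ k : ℕ, lt (12 - α) (r k) * ∑ n ∈ B k, ‖a n‖ₑ ^ 2 ≤
      ∑ n ∈ B k, ‖a n‖ₑ ^ 2 * lt (12 - α) ‖lat n‖ := by
    intro k
    rw [Finset.mul_sum]
    refine Finset.sum_le_sum fun n hn => ?_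
    rw [mul_comm]
    exact mul_le_mul_right (lt_mono hβ (r_pos k) (low_lat hn)) _
  have hTW : ∑' k : ℕ, lt (12 - α) (r k) * ∑ n ∈ B k, ‖a n‖ₑ ^ 2 ≤ W :=
    (ENNReal.tsum_le_tsum hBW).trans (tsum_block _)
  have hbi : ∫⁻ x in Q1, ∑' k : ℕ, lt (12 - α) (r k) * ‖b k x‖ₑ ^ 2 ≤ W := by
    rw [lintegral_tsum fun k => (hbm k).aemeasurable]
    refine le_trans (ENNReal.tsum_le_tsum fun k => ?_) hTW
    rw [lintegral_const_mul _ ((hbc k).measurable.enorm.pow_const 2)]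
    refine mul_le_mul_right (le_of_eq ?_) _
    rw [← h2 a (B k)]
    refine lintegral_congr fun x => ?_
    simp only [hb]
    rw [pm_sub]
  have hqi : ∫⁻ x in Q1, ∑' k : ℕ, q k x ^ 2 / lt α (r k) ≤ C * 4096 * W := by
    rw [lintegral_tsum fun k => (hqm k).aemeasurable]
    have hk : ∀ k : ℕ, ∫⁻ x in Q1, q k x ^ 2 / lt α (r k) ≤
        C * 4096 * (lt (12 - α) (r k) * ∑ n ∈ B k, ‖a n‖ₑ ^ 2) := by
      intro k
      simp only [div_eq_mul_inv]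
      rw [lintegral_mul_const _ (hqm0 k)]
      have h5 := hC (2 ^ 2 ^ (k + 1)) (cut a k)
      have e2 : ∑ n ∈ dm ((2 ^ 2 ^ (k + 1)) ^ 2), ‖cut a k n‖ₑ ^ 2 = ∑ n ∈ B k, ‖a n‖ₑ ^ 2 :=
        sum_cut a k
      rw [e2] at h5
      have h6 : wl ((2 ^ 2 ^ (k + 1) : ℕ) : ℝ) ≤ 4096 * (lt α (r k) * lt (12 - α) (r k)) := by
        rw [lt_mul α (r_pos k)]
        have h7 := (h3 k (r k) le_rfl).1
        have e3 : wl ((2 ^ 2 ^ (k + 1) : ℕ) : ℝ) = wl (2 ^ 2 ^ (k + 1)) := by push_cast; rfl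
        rw [e3]
        exact h7
      have h8 : ∫⁻ x in Q1, q k x ^ 2 ≤
          C * (4096 * (lt α (r k) * lt (12 - α) (r k))) * ∑ n ∈ B k, ‖a n‖ₑ ^ 2 := by
        refine h5.trans ?_
        gcongr
      calc (∫⁻ x in Q1, q k x ^ 2) * (lt α (r k))⁻¹
          ≤ C * (4096 * (lt α (r k) * lt (12 - α) (r k))) * (∑ n ∈ B k, ‖a n‖ₑ ^ 2) *
            (lt α (r k))⁻¹ := by gcongr
        _ = C * 4096 * (lt (12 - α) (r k) * ∑ n ∈ B k, ‖a n‖ₑ ^ 2) *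
            (lt α (r k) * (lt α (r k))⁻¹) := by ring
        _ = _ := by
            rw [ENNReal.mul_inv_cancel (lt_ne_zero hα (r_pos k)) (lt_ne_top _ _), mul_one]
    refine (ENNReal.tsum_le_tsum hk).trans ?_
    rw [ENNReal.tsum_mul_left]
    exact mul_le_mul_right hTW _
  have hDW : D ≤ (dm (M 0)).card * W := by
    rw [hD]
    refine mul_le_mul_right ?_ _
    refine le_trans ?_ (ENNReal.sum_le_tsum (dm (M 0)))
    refine Finset.sum_le_sum fun n _ => ?_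
    calc ‖a n‖ₑ ^ 2 = ‖a n‖ₑ ^ 2 * 1 := (mul_one _).symm
      _ ≤ _ := mul_le_mul_right (one_le_lt hβ (norm_nonneg _)) _
  have hpt : ∀ x : E 2, (⨆ m : ℕ, ‖pm a m x‖ₑ ^ 2 / lt α (Real.sqrt m)) ≤
      3 * (D + ENNReal.ofReal C0 * (∑' j : ℕ, lt (12 - α) (r j) * ‖b j x‖ₑ ^ 2) +
        ∑' k : ℕ, q k x ^ 2 / lt α (r k)) := by
    intro x
    refine iSup_le fun m => ?_
    refine ptw h3 hα (fun m => pm a m x) (fun k => q k x) D (fun k m hk hm => ?_)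
      (fun m hm => small a m hm x) m
    rw [← pm_cut a k m hk x]
    simp only [hq]
    exact le_iSup₂_of_le m hm le_rfl
  have hQ : volume Q1 = 1 := p_CELL.2.2.2.2
  calc ∫⁻ x in Q1, (⨆ m : ℕ, ‖pm a m x‖ₑ ^ 2 / lt α (Real.sqrt m))
      ≤ ∫⁻ x in Q1, 3 * (D + ENNReal.ofReal C0 *
          (∑' j : ℕ, lt (12 - α) (r j) * ‖b j x‖ₑ ^ 2) +
          ∑' k : ℕ, q k x ^ 2 / lt α (r k)) := lintegral_mono fun x => hpt x
    _ = 3 * (D + ENNReal.ofReal C0 *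
          (∫⁻ x in Q1, ∑' j : ℕ, lt (12 - α) (r j) * ‖b j x‖ₑ ^ 2) +
          ∫⁻ x in Q1, ∑' k : ℕ, q k x ^ 2 / lt α (r k)) := by
        have m1 : Measurable fun x => ∑' j : ℕ, lt (12 - α) (r j) * ‖b j x‖ₑ ^ 2 :=
          Measurable.tsum hbm
        have m2 : Measurable fun x => ∑' k : ℕ, q k x ^ 2 / lt α (r k) := Measurable.tsum hqm
        have m3 : Measurable fun x => D + ENNReal.ofReal C0 *
            (∑' j : ℕ, lt (12 - α) (r j) * ‖b j x‖ₑ ^ 2) +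
            ∑' k : ℕ, q k x ^ 2 / lt α (r k) :=
          (measurable_const.add (m1.const_mul _)).add m2
        rw [lintegral_const_mul _ m3, lintegral_add_right _ m2,
          lintegral_add_left measurable_const, lintegral_const_mul _ m1, setLIntegral_const, hQ,
          mul_one]
    _ ≤ 3 * ((dm (M 0)).card * W + ENNReal.ofReal C0 * W + C * 4096 * W) := by
        gcongr
    _ = _ := by
        push_cast
        rw [ENNReal.ofReal]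
        ring

end Pool.Agent.CFS
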