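import Pool.Agent.CFS.All
import Pool.Agent.CFS.P_GTM
import Pool.Agent.CFS.P_GTF
import Pool.Agent.CFS.P_GTA

set_option autoImplicit false

/-!
# CFS: circular partial sums of double Fourier series, the two-parameter form

`T_SEP` is the theorem `MP_ee701d_an.LogLogSeparated` (`Pool.Agent.SEnd.fDSs`).
-/

namespace Pool.Agent.CFS

open MeasureTheory FourierTransform Set Filter Topology
open scoped ENNReal NNReal ComplexConjugate
open Pool.Agent.MBS (E ex S)

theorem fGTM : T_GTM := p_GTM fMAXE p_PAR p_BLK p_CSM

/-- the maximal inequality with weights `L(R)^(-α)` and `L(|n|)^(12-α)` -/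
theorem fGTF : T_GTF := p_GTF fGTM p_CSM

/-- convergence almost everywhere, relative to `L(R)^(α/2)` -/
theorem fGTA : T_GTA := p_GTA fGTM p_TOR p_CSM p_CELL

end Pool.Agent.CFS
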