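import Pool.Agent.CFS.Targets3
import Pool.Agent.CFS.P_GTM

set_option autoImplicit false

/-!
# CFS, target PBL: one dyadic block of radii
-/

namespace Pool.Agent.CFS

open MeasureTheory FourierTransform Set Filter Topology
open scoped ENNReal NNReal ComplexConjugate
open Pool.Agent.MBS (E ex S)

namespace PBL_

open GTM_

theorem lr_double {t : ℝ} (ht : 0 ≤ t) : Lr (2 * t) ≤ 2 * Lr t := by
  have h0 : 0 ≤ Real.log (3 + t) := Real.log_nonneg (by linarith)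
  have hl2 : Real.log 2 ≤ 1 := by
    have := Real.log_two_lt_d9
    linarith
  have h1 : Real.log (3 + 2 * t) ≤ 1 + Real.log (3 + t) := by
    have h2 : Real.log (3 + 2 * t) ≤ Real.log (2 * (3 + t)) :=
      Real.log_le_log (by linarith) (by linarith)
    rw [Real.log_mul two_ne_zero (by linarith)] at h2
    linarith
  have h3 : Lr (2 * t) ≤ Real.log (2 * (3 + Real.log (3 + t))) := by
    unfold Lr
    refine Real.log_le_log ?_ (by linarith)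
    have : 0 ≤ Real.log (3 + 2 * t) := Real.log_nonneg (by linarith)
    linarith
  rw [Real.log_mul two_ne_zero (by linarith)] at h3
  have h4 : 1 ≤ Lr t := lr_ge ht
  have h5 : Lr t = Real.log (3 + Real.log (3 + t)) := rfl
  rw [← h5] at h3
  linarith

theorem lt_double {α t : ℝ} (hα : 0 ≤ α) (hα' : α ≤ 12) (ht : 0 ≤ t) :
    lt α (2 * t) ≤ 4096 * lt α t := by
  have h1 : 1 ≤ Lr t := lr_ge ht
  have h2 : 0 < Lr (2 * t) := lr_pos (by linarith)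
  have h3 : Lr (2 * t) ^ α ≤ 4096 * Lr t ^ α := by
    calc Lr (2 * t) ^ α ≤ (2 * Lr t) ^ α := Real.rpow_le_rpow h2.le (lr_double ht) hα
      _ = 2 ^ α * Lr t ^ α := Real.mul_rpow (by norm_num) (by linarith)
      _ ≤ 4096 * Lr t ^ α := by
          refine mul_le_mul_of_nonneg_right ?_ (Real.rpow_nonneg (by linarith) _)
          calc (2 : ℝ) ^ α ≤ 2 ^ (12 : ℝ) :=
                Real.rpow_le_rpow_of_exponent_le (by norm_num) hα'
            _ = 4096 := by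
                rw [show (12 : ℝ) = ((12 : ℕ) : ℝ) by norm_num, Real.rpow_natCast]
                norm_num
  rw [lt_eq, lt_eq]
  calc ENNReal.ofReal (Lr (2 * t) ^ α) ≤ ENNReal.ofReal (4096 * Lr t ^ α) :=
        ENNReal.ofReal_le_ofReal h3
    _ = 4096 * ENNReal.ofReal (Lr t ^ α) := by
        rw [ENNReal.ofReal_mul (by norm_num)]
        norm_num

/-- the coefficients in the shell -/
noncomputable def cut (a : (Fin 2 → ℤ) → ℂ) (j : ℕ) (n : Fin 2 → ℤ) : ℂ :=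
  if n ∈ dm (4 ^ (j + 1)) \ dm (4 ^ j) then a n else 0

theorem pm_cut (a : (Fin 2 → ℤ) → ℂ) (j m : ℕ) (h : 4 ^ j ≤ m) (h' : m ≤ 4 ^ (j + 1)) (x : E 2) :
    pm a m x - pm a (4 ^ j) x = pm (cut a j) m x := by
  have hsub : dm (4 ^ j) ⊆ dm m := AEQ_.dm_mono h
  have hsub' : dm m ⊆ dm (4 ^ (j + 1)) := AEQ_.dm_mono h'
  unfold pm
  rw [← Finset.sum_sdiff hsub, add_sub_cancel_right]
  rw [← Finset.sum_subset (Finset.sdiff_subset : dm m \ dm (4 ^ j) ⊆ dm m)]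
  · refine Finset.sum_congr rfl fun n hn => ?_
    rw [Finset.mem_sdiff] at hn
    have : cut a j n = a n := by
      unfold cut
      rw [if_pos (Finset.mem_sdiff.2 ⟨hsub' hn.1, hn.2⟩)]
    rw [this]
  · intro n hn hn'
    have : cut a j n = 0 := by
      unfold cut
      rw [if_neg]
      intro h2
      exact hn' (Finset.mem_sdiff.2 ⟨hn, (Finset.mem_sdiff.1 h2).2⟩)
    rw [this, zero_mul]

end PBL_

open PBL_ GTM_ in
theorem p_PBL (h1 : T_GTM) (_h2 : T_CSM) : T_PBL := by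
  intro hS
  obtain ⟨C, hC⟩ := h1 hS
  refine ⟨C * 4096, ?_⟩
  intro α a j hα hα'
  have h2j : (0 : ℝ) ≤ 2 ^ j := by positivity
  -- the weight at the end of the block
  have hw : lt α (2 ^ (j + 1)) ≤ 4096 * lt α (2 ^ j) := by
    have := lt_double hα hα' h2j
    rwa [← pow_succ'] at this
  have hG := hC α (cut a j) hα hα'
  have hpt : ∀ x : E 2,
      (⨆ (m : ℕ) (_ : 4 ^ j ≤ m ∧ m ≤ 4 ^ (j + 1)), ‖pm a m x - pm a (4 ^ j) x‖ₑ) ^ 2 ≤
        lt α (2 ^ (j + 1)) *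
          ⨆ m : ℕ, ‖pm (cut a j) m x‖ₑ ^ 2 / lt α (Real.sqrt m) := by
    intro x
    set G : ℝ≥0∞ := ⨆ m : ℕ, ‖pm (cut a j) m x‖ₑ ^ 2 / lt α (Real.sqrt m) with hGdef
    have hroot : ((⨆ (m : ℕ) (_ : 4 ^ j ≤ m ∧ m ≤ 4 ^ (j + 1)),
        ‖pm a m x - pm a (4 ^ j) x‖ₑ)) ≤ (lt α (2 ^ (j + 1)) * G) ^ ((2 : ℝ)⁻¹) := by
      refine iSup₂_le fun m hm => ?_
      rw [pm_cut a j m hm.1 hm.2]
      rw [ENNReal.le_rpow_inv_iff (by norm_num : (0 : ℝ) < 2)]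
      rw [show (2 : ℝ) = ((2 : ℕ) : ℝ) by norm_num, ENNReal.rpow_natCast]
      have hsq : 0 ≤ Real.sqrt (m : ℝ) := Real.sqrt_nonneg _
      have hsq2 : Real.sqrt (m : ℝ) ≤ 2 ^ (j + 1) := by
        rw [Real.sqrt_le_left (by positivity)]
        have h3 : (m : ℝ) ≤ ((4 ^ (j + 1) : ℕ) : ℝ) := by exact_mod_cast hm.2
        calc (m : ℝ) ≤ ((4 ^ (j + 1) : ℕ) : ℝ) := h3
          _ = (2 ^ (j + 1)) ^ 2 := by
              push_cast
              rw [← pow_mul, mul_comm (j + 1) 2, pow_mul]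
              norm_num
      have h4 : ‖pm (cut a j) m x‖ₑ ^ 2 / lt α (Real.sqrt m) ≤ G :=
        le_iSup (fun m : ℕ => ‖pm (cut a j) m x‖ₑ ^ 2 / lt α (Real.sqrt m)) m
      have h5 : ‖pm (cut a j) m x‖ₑ ^ 2 ≤ G * lt α (Real.sqrt m) :=
        (ENNReal.div_le_iff_le_mul (Or.inl (lt_ne_zero hα hsq))
          (Or.inl (lt_ne_top _ _))).1 h4
      refine h5.trans ?_
      rw [mul_comm]
      exact mul_le_mul_left (lt_mono hα hsq hsq2) _
    calc (⨆ (m : ℕ) (_ : 4 ^ j ≤ m ∧ m ≤ 4 ^ (j + 1)), ‖pm a m x - pm a (4 ^ j) x‖ₑ) ^ 2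
        ≤ ((lt α (2 ^ (j + 1)) * G) ^ ((2 : ℝ)⁻¹)) ^ 2 := pow_le_pow_left' hroot 2
      _ = lt α (2 ^ (j + 1)) * G := by
          rw [← ENNReal.rpow_natCast, ← ENNReal.rpow_mul]
          norm_num
  have htop : lt α (2 ^ (j + 1)) ≠ ⊤ := lt_ne_top _ _
  have hsum : ∑' n, ‖cut a j n‖ₑ ^ 2 * lt (12 - α) ‖lat n‖ =
      ∑ n ∈ dm (4 ^ (j + 1)) \ dm (4 ^ j), ‖a n‖ₑ ^ 2 * lt (12 - α) ‖lat n‖ := by
    rw [tsum_eq_sum (s := dm (4 ^ (j + 1)) \ dm (4 ^ j))]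
    · refine Finset.sum_congr rfl fun n hn => ?_
      unfold cut
      rw [if_pos hn]
    · intro n hn
      unfold cut
      rw [if_neg hn]
      simp
  calc ∫⁻ x in Q1, (⨆ (m : ℕ) (_ : 4 ^ j ≤ m ∧ m ≤ 4 ^ (j + 1)),
        ‖pm a m x - pm a (4 ^ j) x‖ₑ) ^ 2
      ≤ ∫⁻ x in Q1, lt α (2 ^ (j + 1)) *
          ⨆ m : ℕ, ‖pm (cut a j) m x‖ₑ ^ 2 / lt α (Real.sqrt m) := lintegral_mono hpt
    _ = lt α (2 ^ (j + 1)) * ∫⁻ x in Q1,
          ⨆ m : ℕ, ‖pm (cut a j) m x‖ₑ ^ 2 / lt α (Real.sqrt m) :=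
        lintegral_const_mul' _ _ htop
    _ ≤ (4096 * lt α (2 ^ j)) * (C * ∑' n, ‖cut a j n‖ₑ ^ 2 * lt (12 - α) ‖lat n‖) :=
        mul_le_mul' hw hG
    _ = _ := by
        rw [hsum, ENNReal.coe_mul]
        push_cast
        ring

end Pool.Agent.CFS
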