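import Pool.Agent.CFS.Targets3
import Pool.Agent.CFS.P_AEQ
import Pool.Agent.CFS.P_GTA

set_option autoImplicit false

/-!
# CFS, target PBS: the bad dyadic blocks of radii are sparse, double Fourier series
-/

namespace Pool.Agent.CFS

open MeasureTheory FourierTransform Set Filter Topology
open scoped ENNReal NNReal ComplexConjugate
open Pool.Agent.MBS (E ex S)

namespace PBS_

/-- the oscillation over a dyadic block -/
noncomputable def Os (a : (Fin 2 → ℤ) → ℂ) (j : ℕ) (x : E 2) : ℝ≥0∞ :=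
  ⨆ (m : ℕ) (_ : 4 ^ j ≤ m ∧ m ≤ 4 ^ (j + 1)), ‖pm a m x - pm a (4 ^ j) x‖ₑ

theorem os_meas (a : (Fin 2 → ℤ) → ℂ) (j : ℕ) : Measurable (Os a j) := by
  unfold Os
  exact Measurable.iSup fun m => Measurable.iSup fun _ =>
    ((AEQ_.pm_cont a m).measurable.sub (AEQ_.pm_cont a (4 ^ j)).measurable).enorm

theorem sum_block (g : (Fin 2 → ℤ) → ℝ≥0∞) (K : ℕ) :
    (∑ j ∈ Finset.range K, ∑ n ∈ dm (4 ^ (j + 1)) \ dm (4 ^ j), g n) +
      ∑ n ∈ dm (4 ^ 0), g n = ∑ n ∈ dm (4 ^ K), g n := by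
  induction K with
  | zero => simp
  | succ K ih =>
    rw [Finset.sum_range_succ, add_right_comm, ih, add_comm]
    exact Finset.sum_sdiff (AEQ_.dm_mono (Nat.pow_le_pow_right (by norm_num) (Nat.le_succ K)))

theorem tsum_block (g : (Fin 2 → ℤ) → ℝ≥0∞) :
    ∑' j : ℕ, ∑ n ∈ dm (4 ^ (j + 1)) \ dm (4 ^ j), g n ≤ ∑' n, g n := by
  refine ENNReal.tsum_le_of_sum_range_le fun K => ?_
  calc ∑ j ∈ Finset.range K, ∑ n ∈ dm (4 ^ (j + 1)) \ dm (4 ^ j), g n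
      ≤ (∑ j ∈ Finset.range K, ∑ n ∈ dm (4 ^ (j + 1)) \ dm (4 ^ j), g n) +
        ∑ n ∈ dm (4 ^ 0), g n := le_self_add
    _ = ∑ n ∈ dm (4 ^ K), g n := sum_block g K
    _ ≤ ∑' n, g n := ENNReal.sum_le_tsum _

/-- the weighted sum of the squares of the oscillations is finite -/
theorem sum_fin {α : ℝ} {a : (Fin 2 → ℤ) → ℂ} {C : ℝ≥0} (hfin : ∑' n, ‖a n‖ₑ ^ 2 *
      lt (12 - α) ‖lat n‖ ≠ ⊤)
    (hC : ∀ j : ℕ, ∫⁻ x in Q1, Os a j x ^ 2 ≤ C * lt α (2 ^ j) *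
      ∑ n ∈ dm (4 ^ (j + 1)) \ dm (4 ^ j), ‖a n‖ₑ ^ 2 * lt (12 - α) ‖lat n‖) :
    ∀ᵐ x ∂(volume.restrict Q1), ∑' j : ℕ, (lt α (2 ^ j))⁻¹ * Os a j x ^ 2 < ⊤ := by
  have hm : ∀ j : ℕ, Measurable fun x : E 2 => (lt α (2 ^ j))⁻¹ * Os a j x ^ 2 := fun j =>
    ((os_meas a j).pow_const 2).const_mul _
  refine ae_lt_top (Measurable.tsum hm) ?_
  rw [lintegral_tsum fun j => (hm j).aemeasurable]
  have h3 : ∀ j : ℕ, ∫⁻ x in Q1, (lt α (2 ^ j))⁻¹ * Os a j x ^ 2 ≤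
      C * ∑ n ∈ dm (4 ^ (j + 1)) \ dm (4 ^ j), ‖a n‖ₑ ^ 2 * lt (12 - α) ‖lat n‖ := by
    intro j
    rw [lintegral_const_mul _ ((os_meas a j).pow_const 2)]
    have hw0 : lt α (2 ^ j) ≠ 0 := GTA_.lt_pos (by positivity)
    have hwt : lt α (2 ^ j) ≠ ⊤ := GTA_.lt_top
    calc (lt α (2 ^ j))⁻¹ * ∫⁻ x in Q1, Os a j x ^ 2
        ≤ (lt α (2 ^ j))⁻¹ * (C * lt α (2 ^ j) *
          ∑ n ∈ dm (4 ^ (j + 1)) \ dm (4 ^ j), ‖a n‖ₑ ^ 2 * lt (12 - α) ‖lat n‖) :=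
          mul_le_mul' le_rfl (hC j)
      _ = ((lt α (2 ^ j))⁻¹ * lt α (2 ^ j)) * (C *
          ∑ n ∈ dm (4 ^ (j + 1)) \ dm (4 ^ j), ‖a n‖ₑ ^ 2 * lt (12 - α) ‖lat n‖) := by ring
      _ = _ := by rw [ENNReal.inv_mul_cancel hw0 hwt, one_mul]
  refine ne_top_of_le_ne_top ?_ (ENNReal.tsum_le_tsum h3)
  rw [ENNReal.tsum_mul_left]
  exact ENNReal.mul_ne_top ENNReal.coe_ne_top (ne_top_of_le_ne_top hfin (tsum_block _))

/-- the final comparison at one point -/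
theorem final (h3 : T_CSM) {α : ℝ} {f : E 2 → ℂ} {x : E 2} {ε : ℝ} (hα : 0 ≤ α) (hε : 0 < ε)
    (h1 : ∑' j : ℕ, (lt α (2 ^ j))⁻¹ * Os (fc f) j x ^ 2 ≠ ⊤)
    (h2 : Tendsto (fun k : ℕ => pm (fc f) (4 ^ k) x) atTop (𝓝 (f x))) :
    ∑' j : {j : ℕ // ∃ R : ℝ, 2 ^ j ≤ R ∧ R ≤ 2 ^ (j + 1) ∧ ε < ‖CS f R x - f x‖},
      (lt α (2 ^ (j : ℕ)))⁻¹ ≠ ⊤ := by
  obtain ⟨J, hJ⟩ := (Metric.tendsto_atTop.1 h2) (ε / 2) (by positivity)
  set P : Set ℕ := {j : ℕ | ∃ R : ℝ, 2 ^ j ≤ R ∧ R ≤ 2 ^ (j + 1) ∧ ε < ‖CS f R x - f x‖} with hP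
  have e1 : ∑' j : {j : ℕ // ∃ R : ℝ, 2 ^ j ≤ R ∧ R ≤ 2 ^ (j + 1) ∧ ε < ‖CS f R x - f x‖},
      (lt α (2 ^ (j : ℕ)))⁻¹ = ∑' j : ℕ, P.indicator (fun j : ℕ => (lt α (2 ^ j))⁻¹) j :=
    tsum_subtype P (fun j : ℕ => (lt α (2 ^ j))⁻¹)
  rw [e1]
  have hl0 : ENNReal.ofReal (ε / 2) ^ 2 ≠ 0 :=
    pow_ne_zero 2 (ENNReal.ofReal_pos.2 (by positivity)).ne'
  have hlt : ENNReal.ofReal (ε / 2) ^ 2 ≠ ⊤ := ENNReal.pow_ne_top ENNReal.ofReal_ne_top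
  have h5 : ∀ j : ℕ, P.indicator (fun j : ℕ => (lt α (2 ^ j))⁻¹) j ≤
      (if j ∈ Finset.range J then (1 : ℝ≥0∞) else 0) +
        (ENNReal.ofReal (ε / 2) ^ 2)⁻¹ * ((lt α (2 ^ j))⁻¹ * Os (fc f) j x ^ 2) := by
    intro j
    by_cases hj : j ∈ P
    · rw [indicator_of_mem hj]
      by_cases hjJ : j ∈ Finset.range J
      · rw [if_pos hjJ]
        refine le_trans ?_ le_self_add
        exact ENNReal.inv_le_one.2 (GTA_.one_le_lt hα (by positivity))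
      · rw [if_neg hjJ, zero_add]
        have hJj : J ≤ j := by
          rw [Finset.mem_range] at hjJ
          omega
        obtain ⟨R, hR1, hR2, hR3⟩ := hj
        have hR0 : 0 ≤ R := le_trans (by positivity) hR1
        have h4 := hJ j hJj
        rw [dist_eq_norm] at h4
        rw [h3.2 f R x hR0] at hR3
        have h6 : ε / 2 ≤ ‖pm (fc f) ⌊R ^ 2⌋₊ x - pm (fc f) (4 ^ j) x‖ := by
          have h7 : ‖pm (fc f) ⌊R ^ 2⌋₊ x - f x‖ ≤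
              ‖pm (fc f) ⌊R ^ 2⌋₊ x - pm (fc f) (4 ^ j) x‖ + ‖pm (fc f) (4 ^ j) x - f x‖ := by
            have e2 : pm (fc f) ⌊R ^ 2⌋₊ x - f x =
                (pm (fc f) ⌊R ^ 2⌋₊ x - pm (fc f) (4 ^ j) x) + (pm (fc f) (4 ^ j) x - f x) := by
              ring
            rw [e2]
            exact norm_add_le _ _
          linarith
        have hm1 : 4 ^ j ≤ ⌊R ^ 2⌋₊ := by
          rw [Nat.le_floor_iff (by positivity)]
          push_cast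
          calc (4 : ℝ) ^ j = (2 ^ j) ^ 2 := by
                rw [← pow_mul, mul_comm, pow_mul]
                norm_num
            _ ≤ R ^ 2 := pow_le_pow_left₀ (by positivity) hR1 2
        have hm2 : ⌊R ^ 2⌋₊ ≤ 4 ^ (j + 1) := by
          have h8 : R ^ 2 ≤ ((4 ^ (j + 1) : ℕ) : ℝ) := by
            push_cast
            calc R ^ 2 ≤ (2 ^ (j + 1)) ^ 2 := pow_le_pow_left₀ hR0 hR2 2
              _ = (4 : ℝ) ^ (j + 1) := by
                rw [← pow_mul, mul_comm, pow_mul]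
                norm_num
          exact Nat.floor_le_of_le h8
        have h9 : ENNReal.ofReal (ε / 2) ≤ Os (fc f) j x := by
          have h10 : ‖pm (fc f) ⌊R ^ 2⌋₊ x - pm (fc f) (4 ^ j) x‖ₑ ≤ Os (fc f) j x :=
            le_iSup₂ (f := fun (m : ℕ) (_ : 4 ^ j ≤ m ∧ m ≤ 4 ^ (j + 1)) =>
              ‖pm (fc f) m x - pm (fc f) (4 ^ j) x‖ₑ) ⌊R ^ 2⌋₊ ⟨hm1, hm2⟩
          refine le_trans ?_ h10
          rw [← ofReal_norm]
          exact ENNReal.ofReal_le_ofReal h6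
        calc (lt α (2 ^ j))⁻¹ = (ENNReal.ofReal (ε / 2) ^ 2)⁻¹ *
              ((lt α (2 ^ j))⁻¹ * ENNReal.ofReal (ε / 2) ^ 2) := by
              rw [mul_comm ((lt α (2 ^ j))⁻¹), ← mul_assoc, ENNReal.inv_mul_cancel hl0 hlt,
                one_mul]
          _ ≤ _ := mul_le_mul' le_rfl (mul_le_mul' le_rfl (pow_le_pow_left' h9 2))
    · rw [indicator_of_notMem hj]
      exact zero_le
  refine ne_top_of_le_ne_top ?_ (ENNReal.tsum_le_tsum h5)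
  rw [ENNReal.tsum_add, ENNReal.tsum_mul_left]
  refine ENNReal.add_ne_top.2 ⟨?_, ENNReal.mul_ne_top (ENNReal.inv_ne_top.2 hl0) h1⟩
  rw [tsum_eq_sum (s := Finset.range J) (fun j hj => if_neg hj)]
  exact ENNReal.sum_ne_top.2 fun j hj => by
    rw [if_pos hj]
    exact ENNReal.one_ne_top

end PBS_

/-- PBS -/
theorem p_PBS (h1 : T_PBL) (h2 : T_PLC) (h3 : T_CSM) (h4 : T_CELL) : T_PBS := by
  intro hsep α f hα hα' hf hfin
  obtain ⟨C, hC⟩ := h1 hsep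
  obtain ⟨-, hcell, hper, -, -⟩ := h4
  have hconv := h2 hsep f hf
  have hae := PBS_.sum_fin (α := α) (a := fc f) (C := C) hfin
    (fun j => hC α (fc f) j hα hα')
  refine hcell _ ?_ ?_
  · filter_upwards [hae, hconv] with x hx1 hx2
    intro ε hε
    exact PBS_.final h3 hα hε hx1.ne hx2
  · intro x k hx
    have e : ∀ R, CS f R (x + lat k) = CS f R x := by
      intro R
      unfold CS
      refine finsum_congr fun n => ?_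
      rw [hper]
    intro ε hε
    have h6 := hx ε hε
    have e2 : {j : ℕ | ∃ R : ℝ, 2 ^ j ≤ R ∧ R ≤ 2 ^ (j + 1) ∧
        ε < ‖CS f R (x + lat k) - f (x + lat k)‖} =
        {j : ℕ | ∃ R : ℝ, 2 ^ j ≤ R ∧ R ≤ 2 ^ (j + 1) ∧ ε < ‖CS f R x - f x‖} := by
      ext j
      simp only [Set.mem_ofPred_eq, e, hf.per]
    have e3 : ∑' j : ({j : ℕ | ∃ R : ℝ, 2 ^ j ≤ R ∧ R ≤ 2 ^ (j + 1) ∧
        ε < ‖CS f R (x + lat k) - f (x + lat k)‖} : Set ℕ), (lt α (2 ^ (j : ℕ)))⁻¹ ≠ ⊤ := by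
      rw [e2]
      exact h6
    exact e3

end Pool.Agent.CFS
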