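import Pool.Agent.CFS.Targets3

set_option autoImplicit false

/-!
# CFS, target PLC: almost everywhere convergence along the radii `2 ^ k`
-/

namespace Pool.Agent.CFS

open MeasureTheory FourierTransform Set Filter Topology
open scoped ENNReal NNReal ComplexConjugate
open Pool.Agent.MBS (E ex S)

namespace PLC_

theorem ex_cont (ξ : E 2) : Continuous (fun x : E 2 => ex x ξ) := by
  unfold ex
  have : Continuous (fun x : E 2 => ((inner ℝ x ξ : ℝ) : ℂ)) :=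
    Complex.continuous_ofReal.comp (continuous_id.inner continuous_const)
  exact Complex.continuous_exp.comp (continuous_const.mul this)

theorem pm_cont (a : (Fin 2 → ℤ) → ℂ) (m : ℕ) : Continuous (pm a m) := by
  unfold pm
  exact continuous_finsetSum _ fun n _ => continuous_const.mul (ex_cont (lat n))

/-- the maximal function over all lacunary radii -/
theorem full {C : ℝ≥0} (hC : ∀ (K : ℕ) (a : (Fin 2 → ℤ) → ℂ),
    ∫⁻ x in Q1, (⨆ (k : ℕ) (_ : k ≤ K), ‖pm a (4 ^ k) x‖ₑ) ^ 2 ≤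
      C * ∑ n ∈ dm (4 ^ K), ‖a n‖ₑ ^ 2) (a : (Fin 2 → ℤ) → ℂ) :
    ∫⁻ x in Q1, (⨆ k : ℕ, ‖pm a (4 ^ k) x‖ₑ) ^ 2 ≤ C * ∑' n, ‖a n‖ₑ ^ 2 := by
  have e : ∀ x : E 2, (⨆ k : ℕ, ‖pm a (4 ^ k) x‖ₑ) ^ 2 =
      ⨆ K : ℕ, (⨆ (k : ℕ) (_ : k ≤ K), ‖pm a (4 ^ k) x‖ₑ) ^ 2 := by
    intro x
    rw [← ENNReal.iSup_pow]
    congr 1
    apply le_antisymm
    · exact iSup_le fun k => le_iSup_of_le k
        (le_iSup₂ (f := fun (k' : ℕ) (_ : k' ≤ k) => ‖pm a (4 ^ k') x‖ₑ) k le_rfl)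
    · exact iSup_le fun K => iSup₂_le fun k _ => le_iSup (fun k => ‖pm a (4 ^ k) x‖ₑ) k
  simp only [e]
  rw [lintegral_iSup]
  · refine iSup_le fun K => (hC K a).trans ?_
    gcongr
    exact ENNReal.sum_le_tsum _
  · intro K
    refine Measurable.pow_const ?_ 2
    exact Measurable.iSup fun k => Measurable.iSup fun _ => (pm_cont a (4 ^ k)).measurable.enorm
  · intro K K' hK x
    refine pow_le_pow_left' ?_ 2
    exact iSup₂_le fun k hk => le_iSup₂
      (f := fun (k' : ℕ) (_ : k' ≤ K') => ‖pm a (4 ^ k') x‖ₑ) k (hk.trans hK)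

/-- the coefficients outside a disc -/
noncomputable def cut (a : (Fin 2 → ℤ) → ℂ) (i : ℕ) (n : Fin 2 → ℤ) : ℂ :=
  if n ∈ dm (4 ^ i) then 0 else a n

theorem dm_mono (h3 : T_CSM) {m m' : ℕ} (h : m ≤ m') : dm m ⊆ dm m' := by
  intro n hn
  rw [h3.1] at hn ⊢
  exact hn.trans (by exact_mod_cast h)

theorem pm_cut (h3 : T_CSM) (a : (Fin 2 → ℤ) → ℂ) (i m : ℕ) (h : 4 ^ i ≤ m) (x : E 2) :
    pm (cut a i) m x = pm a m x - pm a (4 ^ i) x := by
  have h1 := Finset.sum_sdiff (dm_mono h3 h) (f := fun n => a n * ex x (lat n))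
  have h2 := Finset.sum_sdiff (dm_mono h3 h) (f := fun n => cut a i n * ex x (lat n))
  unfold pm
  rw [← h1, ← h2, add_sub_cancel_right]
  have h3 : ∑ n ∈ dm (4 ^ i), cut a i n * ex x (lat n) = 0 := by
    refine Finset.sum_eq_zero fun n hn => ?_
    rw [cut, if_pos hn, zero_mul]
  rw [h3, add_zero]
  refine Finset.sum_congr rfl fun n hn => ?_
  rw [cut, if_neg (Finset.mem_sdiff.1 hn).2]

/-- the tails of the sum of the squares of the coefficients -/
theorem tail (h3 : T_CSM) (a : (Fin 2 → ℤ) → ℂ) (ha : ∑' n, ‖a n‖ₑ ^ 2 ≠ ⊤) :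
    Tendsto (fun i => ∑' n, ‖cut a i n‖ₑ ^ 2) atTop (𝓝 0) := by
  have h1 := ENNReal.tendsto_tsum_compl_atTop_zero ha
  have h2 : Tendsto (fun i : ℕ => dm (4 ^ i)) atTop atTop := by
    refine tendsto_atTop_finset_of_monotone ?_ ?_
    · intro i j hij
      exact dm_mono h3 (Nat.pow_le_pow_right (by norm_num) hij)
    · intro n
      obtain ⟨i, hi⟩ := pow_unbounded_of_one_lt (‖lat n‖ ^ 2) (show (1 : ℝ) < 4 by norm_num)
      refine ⟨i, ?_⟩
      rw [h3.1]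
      push_cast
      exact hi.le
  refine (h1.comp h2).congr fun i => ?_
  simp only [Function.comp]
  have h4 := tsum_subtype {n : Fin 2 → ℤ | n ∉ dm (4 ^ i)} (fun n => ‖a n‖ₑ ^ 2)
  refine h4.trans (tsum_congr fun n => ?_)
  rw [cut]
  by_cases hn : n ∈ dm (4 ^ i)
  · rw [Set.indicator_of_notMem (by simpa using hn), if_pos hn]
    simp
  · rw [Set.indicator_of_mem (by simpa using hn), if_neg hn]

end PLC_

open PLC_ in
theorem p_PLC (h1 : T_PLX) (h2 : T_TOR) (h3 : T_CSM) : T_PLC := by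
  intro hS f hf
  obtain ⟨C, hC⟩ := h1 hS
  obtain ⟨hb, hL2⟩ := h2 f hf
  set a := fc f with ha
  have hfin : ∑' n, ‖a n‖ₑ ^ 2 ≠ ⊤ := ne_top_of_le_ne_top hf.sq hb
  set D : ℕ → E 2 → ℝ≥0∞ := fun i x => (⨆ k : ℕ, ‖pm (cut a i) (4 ^ k) x‖ₑ) ^ 2 with hD
  set B : ℕ → E 2 → ℝ≥0∞ := fun i x => ‖f x - pm a (4 ^ i) x‖ₑ ^ 2 with hB
  have hDm : ∀ i, Measurable (D i) := by
    intro i
    refine Measurable.pow_const ?_ 2
    exact Measurable.iSup fun k => (pm_cont (cut a i) (4 ^ k)).measurable.enorm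
  have hBm : ∀ i, Measurable (B i) := by
    intro i
    exact ((hf.meas.sub (pm_cont a (4 ^ i)).measurable).enorm).pow_const 2
  have h4 : Tendsto (fun i => ∫⁻ x in Q1, (D i x + B i x)) atTop (𝓝 0) := by
    have e : ∀ i, ∫⁻ x in Q1, (D i x + B i x) =
        (∫⁻ x in Q1, D i x) + ∫⁻ x in Q1, B i x := fun i => lintegral_add_left (hDm i) _
    simp only [e]
    have h5 : Tendsto (fun i => ∫⁻ x in Q1, D i x) atTop (𝓝 0) := by
      refine tendsto_of_tendsto_of_tendsto_of_le_of_le tendsto_const_nhds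
        (?_ : Tendsto (fun i => (C : ℝ≥0∞) * ∑' n, ‖cut a i n‖ₑ ^ 2) atTop (𝓝 0))
        (fun i => bot_le) (fun i => full hC (cut a i))
      have h6 := ENNReal.Tendsto.const_mul (a := (C : ℝ≥0∞)) (tail h3 a hfin)
        (Or.inr ENNReal.coe_ne_top)
      rwa [mul_zero] at h6
    have h6 : Tendsto (fun i => ∫⁻ x in Q1, B i x) atTop (𝓝 0) :=
      hL2.comp (tendsto_pow_atTop_atTop_of_one_lt (by norm_num : 1 < 4))
    have h7 := h5.add h6
    rwa [add_zero] at h7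
  have hm : ∀ i, Measurable fun x => D i x + B i x := fun i => (hDm i).add (hBm i)
  have h5 : ∫⁻ x in Q1, liminf (fun i => D i x + B i x) atTop = 0 := by
    refine le_antisymm ?_ bot_le
    refine (lintegral_liminf_le hm).trans ?_
    rw [h4.liminf_eq]
  have h6 := (lintegral_eq_zero_iff (Measurable.liminf hm)).1 h5
  filter_upwards [h6] with x hx
  rw [Metric.tendsto_atTop]
  intro ε hε
  have hε2 : 0 < ε / 2 := by linarith
  have hpos : (0 : ℝ≥0∞) < ENNReal.ofReal (ε / 2) ^ 2 := by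
    have : 0 < ENNReal.ofReal (ε / 2) := ENNReal.ofReal_pos.2 hε2
    positivity
  have h7 : liminf (fun i => D i x + B i x) atTop < ENNReal.ofReal (ε / 2) ^ 2 := by
    have h8 : liminf (fun i => D i x + B i x) atTop = 0 := hx
    rwa [h8]
  obtain ⟨i, hi⟩ := (frequently_lt_of_liminf_lt (h := h7)).exists
  have hDi : D i x < ENNReal.ofReal (ε / 2) ^ 2 := lt_of_le_of_lt le_self_add hi
  have hBi : B i x < ENNReal.ofReal (ε / 2) ^ 2 := lt_of_le_of_lt le_add_self hi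
  have hD2 := lt_of_pow_lt_pow_left' 2 hDi
  have hB2 := lt_of_pow_lt_pow_left' 2 hBi
  refine ⟨i, fun k hk => ?_⟩
  have h8 : ‖pm a (4 ^ k) x - pm a (4 ^ i) x‖ₑ < ENNReal.ofReal (ε / 2) := by
    rw [← pm_cut h3 a i (4 ^ k) (Nat.pow_le_pow_right (by norm_num) hk) x]
    exact lt_of_le_of_lt (le_iSup (fun k => ‖pm (cut a i) (4 ^ k) x‖ₑ) k) hD2
  rw [← ofReal_norm, ENNReal.ofReal_lt_ofReal_iff hε2] at h8 hB2
  calc dist (pm a (4 ^ k) x) (f x)
      ≤ dist (pm a (4 ^ k) x) (pm a (4 ^ i) x) + dist (pm a (4 ^ i) x) (f x) :=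
        dist_triangle _ _ _
    _ < ε / 2 + ε / 2 := by
      rw [dist_eq_norm, dist_comm (pm a (4 ^ i) x), dist_eq_norm]
      exact add_lt_add h8 hB2
    _ = ε := by ring

end Pool.Agent.CFS
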