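import Pool.Agent.CFS.Targets3
import Pool.Agent.CFS.P_MAXE

set_option autoImplicit false

/-!
# CFS, target PLX: the maximal inequality for lacunary radii on the unit square
-/

namespace Pool.Agent.CFS

open MeasureTheory FourierTransform Set Filter Topology
open scoped ENNReal NNReal ComplexConjugate
open Pool.Agent.MBS (E ex S)

namespace PLX_

/-- the maximal function of the sums `pm` over the lacunary radii -/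
noncomputable def M (a : (Fin 2 → ℤ) → ℂ) (K : ℕ) (x : E 2) : ℝ≥0∞ :=
  ⨆ (k : ℕ) (_ : k ≤ K), ‖pm a (4 ^ k) x‖ₑ

/-- the set of the radii -/
def A (K : ℕ) : Set ℝ := {R : ℝ | ∃ k : ℕ, k ≤ K ∧ R = Real.sqrt (((4 ^ k : ℕ) : ℝ) + 1 / 2)}

theorem M_meas (a : (Fin 2 → ℤ) → ℂ) (K : ℕ) : Measurable (M a K) := by
  unfold M
  exact Measurable.iSup fun k => Measurable.iSup fun _ =>
    (MAXE_.pm_cont a (4 ^ k)).enorm.measurable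

theorem M_per (h6 : T_CELL) (a : (Fin 2 → ℤ) → ℂ) (K : ℕ) (x : E 2) (k : Fin 2 → ℤ) :
    M a K (x + lat k) = M a K x := by
  unfold M pm
  simp only [h6.2.2.1]

theorem pow_le {k K : ℕ} (h : k ≤ K) : 4 ^ k ≤ (2 ^ K) ^ 2 := by
  have h1 : (2 ^ K) ^ 2 = 4 ^ K := by
    rw [← pow_mul, mul_comm, pow_mul]
    norm_num
  rw [h1]
  exact Nat.pow_le_pow_right (by norm_num) h

theorem gap (K : ℕ) : ∀ R ∈ A K, ∀ R' ∈ A K, R < R' → R + 1 / 4 * R' ≤ R' := by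
  rintro R ⟨k, -, rfl⟩ R' ⟨l, -, rfl⟩ hlt
  have h0 : ((4 ^ k : ℕ) : ℝ) + 1 / 2 < ((4 ^ l : ℕ) : ℝ) + 1 / 2 := by
    by_contra h
    exact absurd hlt (not_lt.2 (Real.sqrt_le_sqrt (not_lt.1 h)))
  have h1 : 4 ^ k < 4 ^ l := by
    have : ((4 ^ k : ℕ) : ℝ) < ((4 ^ l : ℕ) : ℝ) := by linarith
    exact_mod_cast this
  have h2 : k < l := (Nat.pow_lt_pow_iff_right (by norm_num)).1 h1
  have h3 : 4 * 4 ^ k ≤ 4 ^ l := by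
    rw [← pow_succ']
    exact Nat.pow_le_pow_right (by norm_num) h2
  have h4 : (4 : ℝ) * ((4 ^ k : ℕ) : ℝ) ≤ ((4 ^ l : ℕ) : ℝ) := by exact_mod_cast h3
  have h5 : (1 : ℝ) ≤ ((4 ^ k : ℕ) : ℝ) := by exact_mod_cast Nat.one_le_pow _ _ (by norm_num)
  have h6 : Real.sqrt (((4 ^ k : ℕ) : ℝ) + 1 / 2) ≤
      3 / 4 * Real.sqrt (((4 ^ l : ℕ) : ℝ) + 1 / 2) := by
    refine Real.sqrt_le_iff.2 ⟨by positivity, ?_⟩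
    rw [mul_pow, Real.sq_sqrt (by positivity)]
    linarith
  linarith

theorem low {φ ψ : E 2 → ℂ} {c : ℝ} (hB : Bump φ ψ c) (h3 : T_CUT) (a : (Fin 2 → ℤ) → ℂ)
    (K : ℕ) (x : E 2)
    (hx : ∀ i, x i ∈ Ico (-((2 ^ K + 1 : ℕ) : ℝ)) ((2 ^ K + 1 : ℕ) : ℝ)) :
    ENNReal.ofReal c * M a K x ≤
      ⨆ R ∈ A K, ‖S (fL a (dm ((2 ^ K) ^ 2)) ψ (2 ^ K + 1)) R x‖ₑ := by
  have hL : (0 : ℝ) < ((2 ^ K + 1 : ℕ) : ℝ) := by positivity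
  have hc : ENNReal.ofReal c ≤ ‖ψ ((((2 ^ K + 1 : ℕ) : ℝ))⁻¹ • x)‖ₑ := by
    rw [← ofReal_norm_eq_enorm]
    refine ENNReal.ofReal_le_ofReal (hB.low _ fun i => ?_)
    have h1 := hx i
    rw [PiLp.smul_apply, smul_eq_mul, abs_mul, abs_of_pos (inv_pos.2 hL), inv_mul_le_iff₀ hL,
      mul_one]
    exact abs_le.2 ⟨h1.1, h1.2.le⟩
  unfold M
  rw [ENNReal.mul_iSup]
  refine iSup_le fun k => ?_
  rw [ENNReal.mul_iSup]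
  refine iSup_le fun hk => ?_
  have h1 := h3 φ ψ c hB a (2 ^ K) (4 ^ k) (pow_le hk) x
  refine le_trans ?_ (le_iSup₂ (f := fun (R : ℝ) (_ : R ∈ A K) =>
    ‖S (fL a (dm ((2 ^ K) ^ 2)) ψ (2 ^ K + 1)) R x‖ₑ)
    (Real.sqrt (((4 ^ k : ℕ) : ℝ) + 1 / 2)) ⟨k, hk, rfl⟩)
  rw [h1, enorm_mul, mul_comm]
  exact mul_le_mul_right hc _

end PLX_

open PLX_ in
theorem p_PLX (h1 : T_BUMP) (h2 : T_FTL) (h3 : T_CUT) (h4 : T_PLN) (h6 : T_CELL) : T_PLX := by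
  rintro ⟨Cs, hsep⟩
  obtain ⟨φ, ψ, c, hB⟩ := h1
  obtain ⟨Cp, hpln⟩ := h4 φ ψ c hB
  set D : ℝ≥0 := (Real.log (3 + Real.log (1 / 4 : ℝ)⁻¹) ^ 12).toNNReal with hD
  refine ⟨(c.toNNReal ^ 2)⁻¹ * (Cs * D * Cp), fun K a => ?_⟩
  have hKK : (2 ^ K) ^ 2 = 4 ^ K := by
    rw [← pow_mul, mul_comm, pow_mul]
    norm_num
  obtain ⟨hc1, hi1, hm1⟩ := (h2 φ ψ c hB a (dm ((2 ^ K) ^ 2)) (2 ^ K + 1)
    (Nat.le_add_left 1 _)).1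
  have hS := hsep (1 / 4) (A K) (fL a (dm ((2 ^ K) ^ 2)) ψ (2 ^ K + 1)) (by norm_num)
    (by norm_num)
    (by
      rintro R ⟨m, hm, rfl⟩
      positivity)
    (gap K) hc1.measurable hi1 hm1
  have hP := hpln a (dm ((2 ^ K) ^ 2)) (2 ^ K + 1) (Nat.le_add_left 1 _)
  -- the left side
  set κ : ℝ≥0∞ := ENNReal.ofReal c with hκ
  set L : ℝ≥0∞ := ((2 ^ K + 1 : ℕ) : ℝ≥0∞) with hL
  have hκ0 : κ ≠ 0 := (ENNReal.ofReal_pos.2 hB.c0).ne'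
  have hκt : κ ≠ ⊤ := ENNReal.ofReal_ne_top
  have hL0 : L ≠ 0 := by
    rw [hL]
    exact_mod_cast Nat.succ_ne_zero (2 ^ K)
  have hLt : L ≠ ⊤ := ENNReal.natCast_ne_top _
  have hmeasB : MeasurableSet
      {x : E 2 | ∀ i, x i ∈ Ico (-((2 ^ K + 1 : ℕ) : ℝ)) ((2 ^ K + 1 : ℕ) : ℝ)} := by
    have : {x : E 2 | ∀ i, x i ∈ Ico (-((2 ^ K + 1 : ℕ) : ℝ)) ((2 ^ K + 1 : ℕ) : ℝ)} =
        ⋂ i : Fin 2, (fun x : E 2 => x i) ⁻¹'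
          Ico (-((2 ^ K + 1 : ℕ) : ℝ)) ((2 ^ K + 1 : ℕ) : ℝ) := by
      ext x
      simp
    rw [this]
    exact MeasurableSet.iInter fun i => measurableSet_Ico.preimage (by fun_prop)
  have hcell := h6.1 (fun x => M a K x ^ 2) (2 ^ K + 1) ((M_meas a K).pow_const 2)
    (fun x k => by rw [M_per h6])
  have hlow : κ ^ 2 * ((2 * L) ^ 2 * ∫⁻ x in Q1, M a K x ^ 2) ≤
      ∫⁻ x, (⨆ R ∈ A K, ‖S (fL a (dm ((2 ^ K) ^ 2)) ψ (2 ^ K + 1)) R x‖ₑ) ^ 2 := by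
    rw [← hcell, ← lintegral_const_mul' _ _ (ENNReal.pow_ne_top hκt)]
    refine le_trans ?_ (setLIntegral_le_lintegral
      {x : E 2 | ∀ i, x i ∈ Ico (-((2 ^ K + 1 : ℕ) : ℝ)) ((2 ^ K + 1 : ℕ) : ℝ)} _)
    refine setLIntegral_mono' hmeasB fun x hx => ?_
    rw [← mul_pow]
    exact pow_le_pow_left' (low hB h3 a K x hx) 2
  have hmain : κ ^ 2 * ((2 * L) ^ 2 * ∫⁻ x in Q1, M a K x ^ 2) ≤
      Cs * D * (Cp * L ^ 2 * ∑ n ∈ dm ((2 ^ K) ^ 2), ‖a n‖ₑ ^ 2) :=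
    hlow.trans (hS.trans (mul_le_mul' le_rfl hP))
  have hmain2 : κ ^ 2 * L ^ 2 * ∫⁻ x in Q1, M a K x ^ 2 ≤
      κ ^ 2 * L ^ 2 * ((κ ^ 2)⁻¹ * (Cs * D * Cp) * ∑ n ∈ dm ((2 ^ K) ^ 2), ‖a n‖ₑ ^ 2) := by
    have e1 : κ ^ 2 * (κ ^ 2)⁻¹ = 1 :=
      ENNReal.mul_inv_cancel (pow_ne_zero 2 hκ0) (ENNReal.pow_ne_top hκt)
    have e2 : κ ^ 2 * L ^ 2 * ((κ ^ 2)⁻¹ * (Cs * D * Cp) *
        ∑ n ∈ dm ((2 ^ K) ^ 2), ‖a n‖ₑ ^ 2) =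
        Cs * D * (Cp * L ^ 2 * ∑ n ∈ dm ((2 ^ K) ^ 2), ‖a n‖ₑ ^ 2) := by
      calc _ = (κ ^ 2 * (κ ^ 2)⁻¹) * (Cs * D *
            (Cp * L ^ 2 * ∑ n ∈ dm ((2 ^ K) ^ 2), ‖a n‖ₑ ^ 2)) := by ring
        _ = _ := by rw [e1, one_mul]
    rw [e2]
    refine le_trans ?_ hmain
    rw [mul_assoc]
    refine mul_le_mul_right ?_ _
    refine mul_le_mul_left ?_ _
    rw [mul_pow]
    exact le_mul_of_one_le_left' (by norm_num)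
  have hfin : κ ^ 2 * L ^ 2 ≠ 0 := mul_ne_zero (pow_ne_zero 2 hκ0) (pow_ne_zero 2 hL0)
  have hfin' : κ ^ 2 * L ^ 2 ≠ ⊤ :=
    ENNReal.mul_ne_top (ENNReal.pow_ne_top hκt) (ENNReal.pow_ne_top hLt)
  have hres := (ENNReal.mul_le_mul_iff_right hfin hfin').1 hmain2
  have hcoe : (((c.toNNReal ^ 2)⁻¹ * (Cs * D * Cp) : ℝ≥0) : ℝ≥0∞) =
      (κ ^ 2)⁻¹ * (Cs * D * Cp) := by
    have hne : c.toNNReal ^ 2 ≠ 0 := pow_ne_zero 2 (Real.toNNReal_pos.2 hB.c0).ne'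
    rw [ENNReal.coe_mul, ENNReal.coe_inv hne, ENNReal.coe_pow, ENNReal.coe_mul, ENNReal.coe_mul]
    rfl
  rw [hcoe, ← hKK]
  exact hres

end Pool.Agent.CFS
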