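import Pool.Agent.CFS.All2
import Pool.Agent.CFS.P_PLX
import Pool.Agent.CFS.P_PBL
import Pool.Agent.CFS.P_PLC
import Pool.Agent.CFS.P_PBS

set_option autoImplicit false

/-!
# CFS: assembly, third part (MP_ee701d_an): the bad dyadic blocks are sparse
-/

namespace Pool.Agent.CFS

theorem fPBS : T_PBS :=
  p_PBS (p_PBL fGTM p_CSM) (p_PLC (p_PLX p_BUMP p_FTL (p_CUT p_FTL) (p_PLN p_FTL) p_CELL) p_TOR p_CSM) p_CSM p_CELL

end Pool.Agent.CFS
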