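import Pool.Agent.CFS.Targets

set_option autoImplicit false

/-! CFS: a smooth bump and its transform. -/

namespace Pool.Agent.CFS

open MeasureTheory FourierTransform Set Filter Topology SchwartzMap
open scoped ENNReal NNReal ContDiff
open Pool.Agent.MBS (E ex S)

namespace BUMP_

/-- the bump -/
noncomputable def b : ContDiffBump (0 : E 2) where
  rIn := 1 / 16
  rOut := 1 / 8
  rIn_pos := by norm_num
  rIn_lt_rOut := by norm_num

/-- the bump, complex valued -/
noncomputable def φ (ξ : E 2) : ℂ := ((b ξ : ℝ) : ℂ)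

theorem hasCompactSupport_phi : HasCompactSupport φ :=
  b.hasCompactSupport.comp_left (g := fun x : ℝ => (x : ℂ)) (by simp)

theorem contDiff_phi : ContDiff ℝ ∞ φ := Complex.ofRealCLM.contDiff.comp b.contDiff

/-- the bump as a Schwartz function -/
noncomputable def Φ : 𝓢(E 2, ℂ) := hasCompactSupport_phi.toSchwartzMap contDiff_phi

theorem coe_Phi : (Φ : E 2 → ℂ) = φ := rfl

theorem integrable_b : Integrable (b : E 2 → ℝ) :=
  b.continuous.integrable_of_hasCompactSupport b.hasCompactSupport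

theorem integral_b_pos : 0 < ∫ ξ, b ξ := by
  rw [integral_pos_iff_support_of_nonneg b.nonneg' integrable_b, b.support_eq]
  exact Metric.measure_ball_pos volume 0 b.rOut_pos

theorem cos_ge {ξ y : E 2} (hξ : ‖ξ‖ ≤ 1 / 8) (hy : ∀ i, |y i| ≤ 1) :
    7 / 25 ≤ Real.cos (2 * Real.pi * inner ℝ ξ y) := by
  have h1 : |inner ℝ ξ y| ≤ ‖ξ‖ * ‖y‖ := abs_real_inner_le_norm ξ y
  have h2 : ‖y‖ ^ 2 ≤ 2 := by
    rw [EuclideanSpace.norm_sq_eq, Fin.sum_univ_two]
    have a0 : ‖y 0‖ ^ 2 ≤ 1 := by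
      rw [Real.norm_eq_abs]
      exact pow_le_one₀ (abs_nonneg _) (hy 0)
    have a1 : ‖y 1‖ ^ 2 ≤ 1 := by
      rw [Real.norm_eq_abs]
      exact pow_le_one₀ (abs_nonneg _) (hy 1)
    linarith
  have h3 : (inner ℝ ξ y) ^ 2 ≤ 1 / 32 := by
    calc (inner ℝ ξ y) ^ 2 = |inner ℝ ξ y| ^ 2 := (sq_abs _).symm
      _ ≤ (‖ξ‖ * ‖y‖) ^ 2 := pow_le_pow_left₀ (abs_nonneg _) h1 2
      _ = ‖ξ‖ ^ 2 * ‖y‖ ^ 2 := by ring
      _ ≤ (1 / 8) ^ 2 * 2 := by
          refine mul_le_mul (pow_le_pow_left₀ (norm_nonneg _) hξ 2) h2 (by positivity)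
            (by positivity)
      _ = 1 / 32 := by norm_num
  have h4 : Real.pi ^ 2 ≤ 10 := by
    have := Real.pi_lt_d2
    have := Real.pi_pos
    nlinarith
  have h5 := Real.one_sub_sq_div_two_le_cos (x := 2 * Real.pi * inner ℝ ξ y)
  have h6 : (2 * Real.pi * inner ℝ ξ y) ^ 2 ≤ 5 / 4 := by
    calc (2 * Real.pi * inner ℝ ξ y) ^ 2 = 4 * (Real.pi ^ 2 * (inner ℝ ξ y) ^ 2) := by ring
      _ ≤ 4 * (10 * (1 / 32)) := by
          refine mul_le_mul_of_nonneg_left (mul_le_mul h4 h3 (by positivity) (by norm_num))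
            (by norm_num)
      _ = 5 / 4 := by norm_num
  linarith

theorem hcs_smul (f : E 2 → ℂ) {g : E 2 → ℂ} (hg : HasCompactSupport g) :
    HasCompactSupport fun ξ => f ξ • g ξ := by
  refine hg.mono fun ξ hξ h0 => hξ ?_
  simp only
  rw [h0, smul_zero]

/-- the inverse transform -/
noncomputable def Ψ : 𝓢(E 2, ℂ) := 𝓕⁻ Φ

theorem re_integral {f : E 2 → ℂ} (hi : Integrable f) : (∫ ξ, f ξ).re = ∫ ξ, (f ξ).re :=
  (integral_re hi).symm

theorem low {y : E 2} (hy : ∀ i, |y i| ≤ 1) : 7 / 25 * ∫ ξ, b ξ ≤ ‖Ψ y‖ := by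
  have e0 : Ψ y = ∫ ξ, Complex.exp (↑(2 * Real.pi * inner ℝ ξ y) * Complex.I) • φ ξ := by
    have h : (Ψ : E 2 → ℂ) = 𝓕⁻ (Φ : E 2 → ℂ) := SchwartzMap.fourierInv_coe Φ
    rw [h, Real.fourierInv_eq', coe_Phi]
  have hi : Integrable fun ξ : E 2 =>
      Complex.exp (↑(2 * Real.pi * inner ℝ ξ y) * Complex.I) • φ ξ := by
    refine Continuous.integrable_of_hasCompactSupport ?_ ?_
    · have := contDiff_phi.continuous
      fun_prop
    · exact hcs_smul _ hasCompactSupport_phi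
  have e1 : (Ψ y).re = ∫ ξ, Real.cos (2 * Real.pi * inner ℝ ξ y) * b ξ := by
    rw [e0, re_integral hi]
    refine integral_congr_ae (Eventually.of_forall fun ξ => ?_)
    simp only [φ, smul_eq_mul, Complex.re_mul_ofReal, Complex.exp_ofReal_mul_I_re]
  have hi2 : Integrable fun ξ : E 2 => Real.cos (2 * Real.pi * inner ℝ ξ y) * b ξ := by
    refine Continuous.integrable_of_hasCompactSupport ?_ ?_
    · have := b.continuous
      fun_prop
    · exact HasCompactSupport.mul_left (f := fun ξ : E 2 =>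
        Real.cos (2 * Real.pi * inner ℝ ξ y)) (f' := (b : E 2 → ℝ)) b.hasCompactSupport
  calc 7 / 25 * ∫ ξ, b ξ = ∫ ξ, 7 / 25 * b ξ := (integral_const_mul _ _).symm
    _ ≤ ∫ ξ, Real.cos (2 * Real.pi * inner ℝ ξ y) * b ξ := by
        refine integral_mono (integrable_b.const_mul _) hi2 fun ξ => ?_
        simp only
        rcases le_or_gt ‖ξ‖ (1 / 8) with h | h
        · exact mul_le_mul_of_nonneg_right (cos_ge h hy) b.nonneg
        · have h0 : b ξ = 0 := by
            refine b.zero_of_le_dist ?_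
            rw [dist_zero_right]
            exact h.le
          rw [h0]
          simp
    _ = (Ψ y).re := e1.symm
    _ ≤ ‖Ψ y‖ := Complex.re_le_norm _

end BUMP_

theorem p_BUMP : T_BUMP := by
  refine ⟨BUMP_.φ, BUMP_.Ψ, 7 / 25 * ∫ ξ, BUMP_.b ξ, ?_⟩
  exact
    { c0 := by
        have := BUMP_.integral_b_pos
        positivity
      phc := BUMP_.contDiff_phi.continuous
      phs := fun ξ hξ => by
        have h0 : BUMP_.b ξ = 0 := by
          refine BUMP_.b.zero_of_le_dist ?_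
          rw [dist_zero_right]
          exact hξ
        simp [BUMP_.φ, h0]
      psc := BUMP_.Ψ.continuous
      psi := BUMP_.Ψ.integrable
      psq := BUMP_.Ψ.memLp 2
      four := by
        have h : 𝓕 BUMP_.Ψ = BUMP_.Φ := FourierTransform.fourier_fourierInv_eq BUMP_.Φ
        rw [← SchwartzMap.fourier_coe, h, BUMP_.coe_Phi]
      low := fun y hy => BUMP_.low hy }

end Pool.Agent.CFS

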