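import Pool.Agent.MBS.Defs
import Pool.Agent.H25.Plancherel

set_option autoImplicit false

/-!
# CFS: circular partial sums of double Fourier series (MP_ee701d_an, second part of LogLogSeparated)

Transference of the theorem `LogLogSeparated` (the maximal disc partial sums over a set of radii with
relative gaps `δ` are bounded on `L²(ℝ²)` with norm `C (log(3 + log(1/δ)))⁶`) to the torus:
`∫_{[0,1)²} sup_{0 < R ≤ N} |∑_{|n| ≤ R} f^(n) e(n·x)|² dx ≤ C (log(3+log(3+N)))¹² ∫_{[0,1)²} |f|²` and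
convergence almost everywhere if `∑ |f^(n)|² (log(3+log(3+|n|)))¹² < ∞`.

Every target `T_X` is to be proved as `theorem p_X : T_X` (other targets may be taken as hypotheses)
in a NEW file `Pool/Agent/CFS/P_X.lean` importing this one, namespace `Pool.Agent.CFS`, helper lemmas
in the sub-namespace `X_`. `ex x ξ = e^{2πi x·ξ}`, `S f R x = ∫_{|ξ| ≤ R} 𝓕 f ξ ex x ξ dξ`.
-/

namespace Pool.Agent.CFS

open MeasureTheory FourierTransform Set Filter Topology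
open scoped ENNReal NNReal ComplexConjugate
open Pool.Agent.MBS (E ex S)

/-! ### definitions -/

/-- the lattice point `n` as a vector of `ℝ²` -/
noncomputable def lat (n : Fin 2 → ℤ) : E 2 := WithLp.toLp 2 (fun i => (n i : ℝ))

/-- the lattice points with `n₀² + n₁² ≤ m` -/
noncomputable def dm (m : ℕ) : Finset (Fin 2 → ℤ) :=
  (Finset.Icc (fun _ => -(m : ℤ)) (fun _ => (m : ℤ))).filter fun n => n 0 ^ 2 + n 1 ^ 2 ≤ m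

/-- `∑_{|n|² ≤ m} a_n e^{2πi n·x}` -/
noncomputable def pm (a : (Fin 2 → ℤ) → ℂ) (m : ℕ) (x : E 2) : ℂ :=
  ∑ n ∈ dm m, a n * ex x (lat n)

/-- the unit square -/
def Q1 : Set (E 2) := {x | ∀ i, x i ∈ Ico (0 : ℝ) 1}

/-- the doubly logarithmic weight -/
noncomputable def wl (d : ℝ) : ℝ≥0∞ := ENNReal.ofReal (Real.log (3 + Real.log (3 + d)) ^ 12)

/-- the theorem `MP_ee701d_an.LogLogSeparated` (landed: `Pool.Agent.SEnd.fDSs`) -/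
def T_SEP : Prop := ∃ C : ℝ≥0, ∀ (δ : ℝ) (A : Set ℝ) (f : E 2 → ℂ), 0 < δ → δ ≤ 1 / 2 →
    (∀ R ∈ A, 0 < R) → (∀ R ∈ A, ∀ R' ∈ A, R < R' → R + δ * R' ≤ R') →
    Measurable f → Integrable f → MemLp f 2 →
    ∫⁻ x, (⨆ R ∈ A, ‖S f R x‖ₑ) ^ 2 ≤
      C * ENNReal.ofReal (Real.log (3 + Real.log δ⁻¹) ^ 12) * ∫⁻ x, ‖f x‖ₑ ^ 2

/-- the transform `φ = ψ^` is supported in `|ξ| < 1/8`; `|ψ| ≥ c` on the square `|y_i| ≤ 1` -/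
structure Bump (φ ψ : E 2 → ℂ) (c : ℝ) : Prop where
  c0 : 0 < c
  phc : Continuous φ
  phs : ∀ ξ, 1 / 8 ≤ ‖ξ‖ → φ ξ = 0
  psc : Continuous ψ
  psi : Integrable ψ
  psq : MemLp ψ 2
  four : 𝓕 ψ = φ
  low : ∀ y : E 2, (∀ i, |y i| ≤ 1) → c ≤ ‖ψ y‖

/-- `∑_{n ∈ F} a_n e(n·x) ψ(x/L)` -/
noncomputable def fL (a : (Fin 2 → ℤ) → ℂ) (F : Finset (Fin 2 → ℤ)) (ψ : E 2 → ℂ) (L : ℕ)
    (x : E 2) : ℂ := ∑ n ∈ F, a n * (ex x (lat n) * ψ ((L : ℝ)⁻¹ • x))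

/-! ### transference -/

/-- **BUMP** (45 min). `φ` = a `ContDiffBump` at `0` with `rIn = 1/16`, `rOut = 1/8` (values in `[0,1]`), as a
Schwartz function (`HasCompactSupport.toSchwartzMap`); `ψ = 𝓕⁻ φ` (Schwartz), so `𝓕 ψ = φ`
(`SchwartzMap` Fourier inversion, or `Continuous.fourier_fourierInv_eq`). `Re ψ(y) = ∫ φ(ξ) cos(2π y·ξ) dξ`, and for
`|y_i| ≤ 1`, `|ξ| ≤ 1/8`: `|2π y·ξ| ≤ 2π √2/8 < 6/5`, `cos ≥ 1 - (6/5)²/2 = 7/25`. So `c = (7/25) ∫ φ > 0`. -/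
def T_BUMP : Prop := ∃ (φ ψ : E 2 → ℂ) (c : ℝ), Bump φ ψ c

/-- **FTL** (45 min). Each term is `ψ(x/L)` (dilation: transform `L² φ(Lξ)`) times `e(n·x)` (translation of the
transform by `n`): substitution in the integral. (3): substitute `ξ = n + η/L`: `ex x (lat n) ∫ φ(η) ex (x/L) η dη`, and
`∫ φ(η) ex y η dη = ψ(y)` by `Continuous.fourierInv_fourier_eq` (`φ` is continuous with compact support, so
integrable). `MemLp`: a finite sum, `|ex| = 1`, dilation. -/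
def T_FTL : Prop := ∀ (φ ψ : E 2 → ℂ) (c : ℝ), Bump φ ψ c → ∀ (a : (Fin 2 → ℤ) → ℂ)
  (F : Finset (Fin 2 → ℤ)) (L : ℕ), 1 ≤ L →
  (Continuous (fL a F ψ L) ∧ Integrable (fL a F ψ L) ∧ MemLp (fL a F ψ L) 2) ∧
  (∀ ξ : E 2, 𝓕 (fL a F ψ L) ξ = ∑ n ∈ F, a n * ((L : ℂ) ^ 2 * φ ((L : ℝ) • (ξ - lat n)))) ∧
  ∀ (n : Fin 2 → ℤ) (x : E 2), ∫ ξ, (L : ℂ) ^ 2 * φ ((L : ℝ) • (ξ - lat n)) * ex x ξ =
    ex x (lat n) * ψ ((L : ℝ)⁻¹ • x)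

/-- **CUT** (45 min; uses FTL). `L = N + 1`, `R = √(m+1/2)`, `j = n₀² + n₁² ≤ N²`, `|n| = √j`:
`|R - √j| = |m + 1/2 - j| / (R + √j) ≥ (1/2)/(2(N+1)) ≥ 1/(8L)` (`m, j ≤ N²`, so `R, √j ≤ N + 1`). So for `j ≤ m` the support of
`φ(L(ξ-n))`, contained in `|ξ-n| < 1/(8L)`, is in the disc `|ξ| ≤ R` and for `j > m` it does not meet it: the integral over the
disc of the term `n` is `ex x (lat n) ψ(x/L)` (FTL (3)) resp. `0`. -/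
def T_CUT : Prop := ∀ (φ ψ : E 2 → ℂ) (c : ℝ), Bump φ ψ c → ∀ (a : (Fin 2 → ℤ) → ℂ)
  (N m : ℕ), m ≤ N ^ 2 → ∀ x : E 2,
    S (fL a (dm (N ^ 2)) ψ (N + 1)) (Real.sqrt (m + 1 / 2)) x =
      pm a m x * ψ (((N + 1 : ℕ) : ℝ)⁻¹ • x)

/-- **PLN** (45 min; uses FTL). Plancherel (`Pool.Agent.H25.Plancherel.eLpNorm_fourier_eq`): the integral is
`∫ |𝓕 (fL ..)|²`; the supports of the terms are disjoint (`|n - n'| ≥ 1`), so it is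
`∑ |a_n|² L⁴ ∫ |φ(L(ξ-n))|² dξ = L² (∫ |φ|²) ∑ |a_n|²`. `C = ∫ |φ|²`. -/
def T_PLN : Prop := ∀ (φ ψ : E 2 → ℂ) (c : ℝ), Bump φ ψ c → ∃ C : ℝ≥0,
  ∀ (a : (Fin 2 → ℤ) → ℂ) (F : Finset (Fin 2 → ℤ)) (L : ℕ), 1 ≤ L →
    ∫⁻ x, ‖fL a F ψ L x‖ₑ ^ 2 ≤ C * (L : ℝ≥0∞) ^ 2 * ∑ n ∈ F, ‖a n‖ₑ ^ 2

/-- **SEPR** (30 min). `R_{m'} - R_m = (m'-m)/(R_m + R_{m'}) ≥ 1/(2 R_{m'})` and `R_{m'}² = m' + 1/2 ≤ N² + 1/2`. For the
logarithms: `2N²+2 ≤ (3+N)³`, so `log δ⁻¹ ≤ 3 log(3+N)`, `3 + 3l ≤ 3(3+l)`, `log 3 ≤ log(3+l)`: the factor is `2¹²`. -/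
def T_SEPR : Prop := ∀ N : ℕ,
  (∀ m m' : ℕ, m' ≤ N ^ 2 → Real.sqrt ((m : ℝ) + 1 / 2) < Real.sqrt ((m' : ℝ) + 1 / 2) →
    Real.sqrt ((m : ℝ) + 1 / 2) + (2 * (N : ℝ) ^ 2 + 2)⁻¹ * Real.sqrt ((m' : ℝ) + 1 / 2) ≤
      Real.sqrt ((m' : ℝ) + 1 / 2)) ∧
  0 < (2 * (N : ℝ) ^ 2 + 2)⁻¹ ∧ (2 * (N : ℝ) ^ 2 + 2)⁻¹ ≤ 1 / 2 ∧
  ENNReal.ofReal (Real.log (3 + Real.log ((2 * (N : ℝ) ^ 2 + 2)⁻¹)⁻¹) ^ 12) ≤ 4096 * wl N

/-- **CELL** (60 min). (1) The square is the disjoint union of the `Q1 + lat k`, `-K ≤ k_i < K`; translation invariance.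
(2) `E 2` is the union of the countably many `Q1 + lat k`; the set where `p` fails is invariant under lattice
translations, and its part in `Q1` is a null set. (3) `ex (x + lat k) (lat n) = ex x (lat n)` as `k·n` is an integer. -/
def T_CELL : Prop :=
  (∀ (G : E 2 → ℝ≥0∞) (K : ℕ), Measurable G → (∀ (x : E 2) (k : Fin 2 → ℤ), G (x + lat k) = G x) →
    ∫⁻ x in {x : E 2 | ∀ i, x i ∈ Ico (-(K : ℝ)) K}, G x = (2 * (K : ℝ≥0∞)) ^ 2 * ∫⁻ x in Q1, G x) ∧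
  (∀ p : E 2 → Prop, (∀ᵐ x ∂(volume.restrict Q1), p x) →
    (∀ (x : E 2) (k : Fin 2 → ℤ), p x → p (x + lat k)) → ∀ᵐ x : E 2, p x) ∧
  (∀ (x : E 2) (k n : Fin 2 → ℤ), ex (x + lat k) (lat n) = ex x (lat n)) ∧
  MeasurableSet Q1 ∧ volume Q1 = 1

/-- **MAXE** (60 min; uses SEP, BUMP, FTL, CUT, PLN, SEPR, CELL). Apply SEP to `f = fL a (dm (N²)) ψ L`, `L = N+1`, and the set
`A = {√(m+1/2) : m ≤ N²}`. On the square `|x_i| ≤ L` `|ψ(x/L)| ≥ c`, so by CUT `sup_A |S f R x| ≥ c sup_{m ≤ N²} |pm a m x|`, which is a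
periodic function; by CELL the left side is at least `c² (2L)² ∫_{Q1} (sup ..)²`; the right side is at most
`C · 4096 wl(N) · C' L² ∑ |a_n|²` (SEPR, PLN). Divide by `L²`. -/
def T_MAXE : Prop := T_SEP → ∃ C : ℝ≥0, ∀ (N : ℕ) (a : (Fin 2 → ℤ) → ℂ),
  ∫⁻ x in Q1, (⨆ (m : ℕ) (_ : m ≤ N ^ 2), ‖pm a m x‖ₑ) ^ 2 ≤
    C * wl N * ∑ n ∈ dm (N ^ 2), ‖a n‖ₑ ^ 2

/-! ### the torus -/

/-- **PAR** (60 min; CELL may be used): Parseval for trigonometric polynomials. Expand the square (as a complex integral),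
`∫_{Q1} ex x (lat n) conj(ex x (lat n')) dx = 1` if `n = n'` and `0` otherwise: Fubini over the two coordinates
(`EuclideanSpace.volume_preserving_symm_measurableEquiv_toLp`, `MeasureTheory.volume_preserving_finTwoArrow`) or translation by
a small vector: the integral `I` of the periodic function `e((n-n')·x)` does not change under `x ↦ x + h`, so
`I = e((n-n')·h) I`; or `UnitAddTorus.orthonormal_mFourier`. -/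
def T_PAR : Prop := ∀ (a : (Fin 2 → ℤ) → ℂ) (F : Finset (Fin 2 → ℤ)),
  ∫⁻ x in Q1, ‖∑ n ∈ F, a n * ex x (lat n)‖ₑ ^ 2 = ∑ n ∈ F, ‖a n‖ₑ ^ 2

/-- **BLK** (30 min): numbers. `l = log(3+d) ≥ 2^k log 2`. First: `log(3 + 2^(2^(k+1))) ≤ log 4 + 2·2^k log 2 ≤ 2 + 2l`, and
`3 + 2 + 2l ≤ 2(3+l)`, `log 2 ≤ log(3+l)`. Second: `(3+l)² ≥ 12 l ≥ 8·2^k`, so `2 log(3+l) ≥ (k+3) log 2`. -/
def T_BLK : Prop := ∀ (k : ℕ) (d : ℝ), (2 : ℝ) ^ (2 ^ k) ≤ d →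
  wl (2 ^ (2 ^ (k + 1))) ≤ 4096 * wl d ∧ ((k : ℝ≥0∞) + 1) ^ 2 ≤ 16 * wl d ∧
  (k : ℝ) + 1 ≤ 4 * Real.log (3 + Real.log (3 + d))

/-- **AEQ** (90 min; uses MAXE, PAR, BLK, CELL). `M k = 4^(2^k) = (2^(2^k))²`, `B_k = dm (M (k+1)) \ dm (M k)` (so
`2^(2^k) < |n| ≤ 2^(2^(k+1))`), `s_k = ∑_{B_k} |a_n|² wl |n|`, `∑ s_k < ∞`.
(i) `b_k(x) = pm a (M(k+1)) x - pm a (M k) x = ∑_{B_k}`: `∫_{Q1} |b_k|² = ∑_{B_k} |a_n|²` (PAR) `≤ 16 (k+1)^(-2) s_k` (BLK; `wl ≥ ..`), so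
`∫_{Q1} |b_k| ≤ 4 (k+1)^(-1) s_k^(1/2)`, which is summable (Cauchy–Schwarz): `∑ |b_k(x)| < ∞` a.e., `pm a (M k) x` converges.
(ii) `q_k(x) = sup_{M k ≤ m ≤ M(k+1)} |pm a m x - pm a (M k) x|` is at most the supremum in MAXE with `N = 2^(2^(k+1))` for the
coefficients `a_n 1_{n ∉ dm (M k)}`: `∫_{Q1} q_k² ≤ C wl(2^(2^(k+1))) ∑_{B_k} |a_n|² ≤ 4096 C s_k` (BLK), so `∑ q_k² < ∞` a.e. and
`q_k(x) → 0`. Together the sequence converges for a.e. `x ∈ Q1`; for a.e. `x` by CELL (2), (3). -/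
def T_AEQ : Prop := T_SEP → ∀ a : (Fin 2 → ℤ) → ℂ, ∑' n, ‖a n‖ₑ ^ 2 * wl ‖lat n‖ ≠ ⊤ →
  ∀ᵐ x : E 2, ∃ z : ℂ, Tendsto (fun m : ℕ => pm a m x) atTop (𝓝 z)

/-- the Fourier coefficients of a periodic function -/
noncomputable def fc (f : E 2 → ℂ) (n : Fin 2 → ℤ) : ℂ := ∫ x in Q1, f x * ex x (-lat n)

/-- the circular partial sums of the Fourier series, `∑_{|n| ≤ R} f^(n) e^{2πi n·x}` -/
noncomputable def CS (f : E 2 → ℂ) (R : ℝ) (x : E 2) : ℂ :=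
  ∑ᶠ (n : Fin 2 → ℤ) (_ : ‖lat n‖ ≤ R), fc f n * ex x (lat n)

/-- square integrable functions on the torus -/
structure Per (f : E 2 → ℂ) : Prop where
  meas : Measurable f
  per : ∀ (x : E 2) (k : Fin 2 → ℤ), f (x + lat k) = f x
  sq : ∫⁻ x in Q1, ‖f x‖ₑ ^ 2 ≠ ⊤

/-- **CSM** (30 min). `‖lat n‖² = n₀² + n₁²`, an integer: `‖lat n‖ ≤ R ↔ n ∈ dm ⌊R²⌋₊`. -/
def T_CSM : Prop := (∀ (n : Fin 2 → ℤ) (m : ℕ), n ∈ dm m ↔ ‖lat n‖ ^ 2 ≤ m) ∧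
  ∀ (f : E 2 → ℂ) (R : ℝ) (x : E 2), 0 ≤ R → CS f R x = pm (fc f) ⌊R ^ 2⌋₊ x

/-- **TOR** (90 min): the Fourier series of `f` converges to `f` in `L²`, and Bessel's inequality. From
`UnitAddTorus.hasSum_mFourier_series_L2`, `UnitAddTorus.hasSum_sq_mFourierCoeff` and `UnitAddTorus.lintegral_preimage`,
`UnitAddTorus.integral_preimage` (`a = 0`; in that file the circle has the LOCAL instance
`MeasureSpace UnitAddCircle := ⟨AddCircle.haarAddCircle⟩`, repeat it in your file) for the function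
`t ↦ f (the representatives of t_i in (0,1])`; `Q1` and `{x | ∀ i, x i ∈ Ioc 0 1}` differ by a null set. -/
def T_TOR : Prop := ∀ f : E 2 → ℂ, Per f →
  (∑' n, ‖fc f n‖ₑ ^ 2 ≤ ∫⁻ x in Q1, ‖f x‖ₑ ^ 2) ∧
  Tendsto (fun m : ℕ => ∫⁻ x in Q1, ‖f x - pm (fc f) m x‖ₑ ^ 2) atTop (𝓝 0)

/-- **LIM** (45 min; uses AEQ, TOR, CSM, CELL). For a.e. `x` the sequence `pm (fc f) m x` converges (AEQ) to `z x`; by TOR a
subsequence converges to `f x` for a.e. `x ∈ Q1` (`tendstoInMeasure_of_tendsto_eLpNorm`,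
`TendstoInMeasure.exists_seq_tendsto_ae`), so `z x = f x`; for a.e. `x ∈ E 2` by CELL (2). For real `R`: CSM,
`⌊R²⌋₊ → ∞`. -/
def T_LIM : Prop := T_SEP → ∀ f : E 2 → ℂ, Per f → ∑' n, ‖fc f n‖ₑ ^ 2 * wl ‖lat n‖ ≠ ⊤ →
  ∀ᵐ x : E 2, Tendsto (fun R : ℝ => CS f R x) atTop (𝓝 (f x))

/-- **MAXF** (30 min; uses MAXE, TOR, CSM). With `N' = ⌈N⌉₊ ≤ 2N`: `⌊R²⌋₊ ≤ N'²`, `wl N' ≤ 4096 wl N`
(`3 + log(3+2N) ≤ 2(3+log(3+N))`, `log 2 ≤ log(..)`). -/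
def T_MAXF : Prop := T_SEP → ∃ C : ℝ≥0, ∀ (N : ℝ) (f : E 2 → ℂ), 1 ≤ N → Per f →
  ∫⁻ x in Q1, (⨆ R ∈ Ioc (0 : ℝ) N, ‖CS f R x‖ₑ) ^ 2 ≤ C * wl N * ∫⁻ x in Q1, ‖f x‖ₑ ^ 2

end Pool.Agent.CFS
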