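import Pool.Agent.CFS.Targets

set_option autoImplicit false

/-!
# CFS, part 2: the two-parameter form

With `L(t) = log(3 + log(3 + t))` and `0 ≤ α ≤ 12`:
`∫_{[0,1)²} sup_R |S_R f|² / L(R)^α ≤ C ∑ |f^(n)|² L(|n|)^(12-α)` and, if the right side is finite,
`(S_R f - f) / L(R)^(α/2) → 0` almost everywhere (`α = 0`: convergence; `α = 12`: every `f ∈ L²` of the
torus has `S_R f = o((log log R)⁶)` almost everywhere).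

Every target `T_X` is to be proved as `theorem p_X : T_X` (other targets may be taken as hypotheses)
in a NEW file `Pool/Agent/CFS/P_X.lean` importing this one, namespace `Pool.Agent.CFS`, helper lemmas
in the sub-namespace `X_`.
-/

namespace Pool.Agent.CFS

open MeasureTheory FourierTransform Set Filter Topology
open scoped ENNReal NNReal ComplexConjugate
open Pool.Agent.MBS (E ex S)

/-- `L(d)^α`, `L(d) = log(3 + log(3 + d))` -/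
noncomputable def lt (α d : ℝ) : ℝ≥0∞ := ENNReal.ofReal (Real.log (3 + Real.log (3 + d)) ^ α)

/-- **GTM** (75 min; uses MAXE, PAR, BLK, CSM (first part); compare `P_AEQ.lean`). `M k = 4^(2^k)`,
`B_k = dm (M (k+1)) \ dm (M k)`, `L_k = log(3+log(3+2^(2^k)))`. `L(d) ≥ 1` and `L` is monotone for `d ≥ 0`;
`L(2^(2^(k+1))) ≤ 2 L_k` (BLK with `d = 2^(2^k)`, twelfth roots, or `wl` of BLK), `L_k ≥ (k+1)/4` (BLK), so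
`L_k^(-12) ≤ L_k^(-2) ≤ 16 (k+1)^(-2)`.
`b_j = pm a (M (j+1)) - pm a (M j)`, `q_k = sup_{M k ≤ m ≤ M (k+1)} |pm a m - pm a (M k)|`.
* `m < M 0 = 4`: `|pm a m x|² ≤ #(dm 4) ∑_{dm 4} |a_n|²`, and both `lt`-factors are `≥ 1`.
* `M k ≤ m ≤ M (k+1)`: `|pm a m|² ≤ 3 (|pm a 4|² + (∑_{j<k} |b_j|)² + q_k²)` and `lt α √m ≥ L_k^α`.
  `(∑_{j<k} |b_j|)² L_k^(-α) ≤ (∑_{j<k} L_j^(α-12) L_k^(-α)) ∑_j L_j^(12-α) |b_j|²` and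
  `L_j^(α-12) L_k^(-α) ≤ L_j^(-12)` for `j < k`, summable; `∫_{Q1} |b_j|² = ∑_{B_j} |a_n|²` (PAR).
  `∑_k ∫ q_k² L_k^(-α) ≤ C ∑_k L(2^(2^(k+1)))^12 L_k^(-α) ∑_{B_k} |a_n|²` (MAXE for `a_n 1_{n ∉ dm (M k)}`, `N = 2^(2^(k+1))`)
  `≤ 4096 C ∑_k L_k^(12-α) ∑_{B_k} |a_n|²`, and `L_k ≤ L(|n|)` on `B_k`.
So the supremum over `m` is at most `3 (const ∑_{dm 4} |a_n|² + C₀ ∑_j L_j^(12-α) |b_j|² + ∑_k q_k² L_k^(-α))`; integrate over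
`Q1` (measurability: `pm a m` is continuous). If the right side is infinite there is nothing to prove. -/
def T_GTM : Prop := T_SEP → ∃ C : ℝ≥0, ∀ (α : ℝ) (a : (Fin 2 → ℤ) → ℂ), 0 ≤ α → α ≤ 12 →
  ∫⁻ x in Q1, (⨆ m : ℕ, ‖pm a m x‖ₑ ^ 2 / lt α (Real.sqrt m)) ≤
    C * ∑' n, ‖a n‖ₑ ^ 2 * lt (12 - α) ‖lat n‖

/-- **GTF** (30 min; uses GTM, CSM). `CS f R x = pm (fc f) ⌊R²⌋₊ x` and `√⌊R²⌋₊ ≤ R`, `lt α` is monotone on `[0,∞)`. -/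
def T_GTF : Prop := T_SEP → ∃ C : ℝ≥0, ∀ (α : ℝ) (f : E 2 → ℂ), 0 ≤ α → α ≤ 12 → Per f →
  ∫⁻ x in Q1, (⨆ (R : ℝ) (_ : 0 < R), ‖CS f R x‖ₑ ^ 2 / lt α R) ≤
    C * ∑' n, ‖fc f n‖ₑ ^ 2 * lt (12 - α) ‖lat n‖

/-- **GTA** (60 min; uses GTM, TOR, CSM, CELL; compare `P_AEQ.lean`, `P_LIM.lean`). `a = fc f`. For `k ∈ ℕ` choose `m_k` with
`∑_{n ∉ dm m_k} |a_n|² lt (12-α) |n| ≤ 4^(-k)` (the sum is finite and every `n` is in `dm m` for large `m`) and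
`∫_{Q1} |f - p_k|² ≤ 4^(-k)`, `p_k = pm a m_k` (TOR). `D_k(x) = ⨆_m |pm (a 1_{n ∉ dm m_k}) m x|² / lt α √m`: `∫_{Q1} D_k ≤ C 4^(-k)` (GTM), so
for a.e. `x ∈ Q1` `D_k(x) + |f(x) - p_k(x)|² → 0`. For `R² ≥ m_k`: `CS f R x - p_k(x) = pm (a 1_{n ∉ dm m_k}) ⌊R²⌋₊ x` (CSM), and
`lt α R ≥ 1`, `lt α R ≥ lt α √⌊R²⌋₊`, so `|CS f R x - f x|² / lt α R ≤ 2 (D_k(x) + |f(x) - p_k(x)|²)`. For a.e. `x ∈ E 2`: CELL (2), (3)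
(everything is periodic). -/
def T_GTA : Prop := T_SEP → ∀ (α : ℝ) (f : E 2 → ℂ), 0 ≤ α → α ≤ 12 → Per f →
  ∑' n, ‖fc f n‖ₑ ^ 2 * lt (12 - α) ‖lat n‖ ≠ ⊤ →
  ∀ᵐ x : E 2, Tendsto (fun R : ℝ =>
    ‖CS f R x - f x‖ / Real.log (3 + Real.log (3 + R)) ^ (α / 2)) atTop (𝓝 0)

end Pool.Agent.CFS
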