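import Pool.Agent.CFS.Targets2

set_option autoImplicit false

/-!
# CFS, part 3: the bad dyadic blocks of radii are sparse, double Fourier series (MP_ee701d_an)

THEOREM: if `0 ≤ α ≤ 12` and `∑ |f^(n)|² L(|n|)^(12-α) < ∞`, then for a.e. `x` and all `ε > 0` the sum of `L(2^j)^(-α)` over the `j` such that `|CS f R x - f x| > ε` for some
`R ∈ [2^j, 2^(j+1)]` is finite. The planar analogue is `Pool/Agent/BIR/Targets4.lean`.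
-/

namespace Pool.Agent.CFS

open MeasureTheory FourierTransform Set Filter Topology
open scoped ENNReal NNReal ComplexConjugate
open Pool.Agent.MBS (E ex S)

/-- **PLX** (45 min; edit of the landed `P_MAXE.lean`): lacunary radii. Apply SEP with `δ = 1/4` to `f = fL a (dm (N²)) ψ L`, `N = 2^K` (`N² = 4^K`), `L = N+1`, and the set
`A = {√(4^k+1/2) : k ≤ K}`: `√(4^k+1/2) ≤ (3/4) √(4^l+1/2)` for `k < l` (`16 (4^k + 1/2) ≤ 9 (4·4^k + 1/2)`). The factor `log(3+log 4)^12` is a constant. -/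
def T_PLX : Prop := T_SEP → ∃ C : ℝ≥0, ∀ (K : ℕ) (a : (Fin 2 → ℤ) → ℂ),
  ∫⁻ x in Q1, (⨆ (k : ℕ) (_ : k ≤ K), ‖pm a (4 ^ k) x‖ₑ) ^ 2 ≤
    C * ∑ n ∈ dm (4 ^ K), ‖a n‖ₑ ^ 2

/-- **PBL** (60 min; from GTM, CSM): one block. `a' n = a n` for `n ∈ dm (4^(j+1)) \ dm (4^j)`, `0` otherwise: for `4^j ≤ m ≤ 4^(j+1)` `pm a m x - pm a (4^j) x = pm a' m x`, and
`lt α √m ≤ lt α (2^(j+1)) ≤ 2^12 lt α (2^j)` (`L(2t) ≤ 2 L(t)` for `t ≥ 0`, `L ≥ 1`). GTM for `a'`. -/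
def T_PBL : Prop := T_SEP → ∃ C : ℝ≥0, ∀ (α : ℝ) (a : (Fin 2 → ℤ) → ℂ) (j : ℕ), 0 ≤ α → α ≤ 12 →
  ∫⁻ x in Q1, (⨆ (m : ℕ) (_ : 4 ^ j ≤ m ∧ m ≤ 4 ^ (j + 1)), ‖pm a m x - pm a (4 ^ j) x‖ₑ) ^ 2 ≤
    C * lt α (2 ^ j) *
      ∑ n ∈ dm (4 ^ (j + 1)) \ dm (4 ^ j), ‖a n‖ₑ ^ 2 * lt (12 - α) ‖lat n‖

/-- **PLC** (60 min; from PLX, TOR, CSM; compare `P_AEQ.lean`, `P_LIM.lean`, `VRR/P_CVG.lean`). `a = fc f`, `∑ |a_n|² < ∞` (TOR). For `k ≥ i`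
`pm a (4^k) x = pm a (4^i) x + pm (a 1_{n ∉ dm (4^i)}) (4^k) x`; the `L²(Q1)` norm of `sup_k |pm (a 1_{n ∉ dm (4^i)}) (4^k)|` is at most `C (∑_{n ∉ dm (4^i)} |a_n|²)^(1/2) → 0`
(PLX, `K → ∞` by monotone convergence): the sequence converges a.e. in `Q1`; the limit is `f` (TOR, subsequence). -/
def T_PLC : Prop := T_SEP → ∀ f : E 2 → ℂ, Per f →
  ∀ᵐ x ∂(volume.restrict Q1), Tendsto (fun k : ℕ => pm (fc f) (4 ^ k) x) atTop (𝓝 (f x))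

/-- **PBS** (75 min; from PBL, PLC, CSM, CELL; template: `BIR/Targets4.lean`, SB3). `Os j x = sup_{4^j ≤ m ≤ 4^(j+1)} |pm (fc f) m x - pm (fc f) (4^j) x|` (a finite supremum of continuous
functions). `∫_{Q1} Σ_j (lt α (2^j))⁻¹ (Os j)² ≤ C Σ_n |a_n|² lt (12-α) |n| < ∞` (disjoint shells), so for a.e. `x ∈ Q1` `Σ_j (lt α (2^j))⁻¹ (Os j x)² < ∞`. By PLC
`|pm a (4^j) x - f x| ≤ ε/2` for `j ≥ j_0(x)`; if `j ≥ j_0` is in the index set, then `Os j x > ε/2` (`R ∈ [2^j,2^(j+1)]`, `m = ⌊R²⌋₊ ∈ [4^j, 4^(j+1)]`, CSM), so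
`(lt α (2^j))⁻¹ ≤ (ε/2)^(-2) (lt α (2^j))⁻¹ (Os j x)²`; the other `j_0` terms are `≤ 1`. All `x`: CELL (2), (3) (the condition is periodic). -/
def T_PBS : Prop := T_SEP → ∀ (α : ℝ) (f : E 2 → ℂ), 0 ≤ α → α ≤ 12 → Per f →
  ∑' n, ‖fc f n‖ₑ ^ 2 * lt (12 - α) ‖lat n‖ ≠ ⊤ →
  ∀ᵐ x : E 2, ∀ ε : ℝ, 0 < ε →
    ∑' j : {j : ℕ // ∃ R : ℝ, 2 ^ j ≤ R ∧ R ≤ 2 ^ (j + 1) ∧ ε < ‖CS f R x - f x‖},
      (lt α (2 ^ (j : ℕ)))⁻¹ ≠ ⊤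

end Pool.Agent.CFS
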